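import Pool.Agent.Lib.MP_399f8e_an.Rp.Fl

/-! Short chords: existence, uniqueness and Lipschitz dependence. -/

open Set Filter Topology Metric
open scoped RealInnerProductSpace

noncomputable section

namespace Pool.Agent.Lib.MP_399f8e_an.Rp

theorem exists_vel {x v : H} (hx : x ∈ S2) (hv : v.re = 0) (hxv : ⟪x, v⟫ = 0) :
    ∃ q : S3, pos q = x ∧ ‖v‖ • vel q = v := by
  obtain ⟨q, rfl⟩ := exists_pos hx
  have e := frame q hv
  rw [hxv, zero_smul, zero_add] at e
  rcases eq_or_ne v 0 with h0 | h0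
  · exact ⟨q, rfl, by simp [h0]⟩
  have hn : ‖v‖ ≠ 0 := norm_ne_zero_iff.2 h0
  have e2 : ‖v‖ ^ 2 = ⟪vel q, v⟫ ^ 2 + ⟪nor q, v⟫ ^ 2 := by
    rw [← real_inner_self_eq_norm_sq]
    nth_rewrite 1 [e]
    rw [inner_add_left, real_inner_smul_left, real_inner_smul_left]; ring
  obtain ⟨r, hr⟩ := exists_rot (a := ⟪vel q, v⟫ / ‖v‖) (b := ⟪nor q, v⟫ / ‖v‖)
    (by rw [div_pow, div_pow, ← add_div, ← e2]; field_simp)
  refine ⟨q * r, (hr q).1, ?_⟩
  rw [(hr q).2.1, smul_add, smul_smul, smul_smul, mul_div_cancel₀ _ hn, mul_div_cancel₀ _ hn]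
  exact e.symm

/-- pairs of nearby points of the two-sphere -/
def Near (u : ℝ) (x y : H) : Prop := x ∈ S2 ∧ y ∈ S2 ∧ ‖x - y‖ ≤ 50 * u

/-- the short chord -/
def ch (φ : ℝ → S3 → S3) (u : ℝ) (x y : H) : S3 × ℝ :=
  haveI : Nonempty (S3 × ℝ) := ⟨(uI, 0)⟩
  Classical.epsilon fun c => pos c.1 = x ∧ 0 ≤ c.2 ∧ c.2 ≤ 200 * u ∧ pos (φ c.2 c.1) = y

/-- initial frame of the chord -/
def dir (φ : ℝ → S3 → S3) (u : ℝ) (x y : H) : S3 := (ch φ u x y).1
/-- length of the chord -/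
def len (φ : ℝ → S3 → S3) (u : ℝ) (x y : H) : ℝ := (ch φ u x y).2
/-- the logarithm -/
def Wv (φ : ℝ → S3 → S3) (u : ℝ) (x y : H) : H := len φ u x y • vel (dir φ u x y)
/-- points on the chord -/
def pt (φ : ℝ → S3 → S3) (u : ℝ) (x y : H) (a : ℝ) : H :=
  pos (φ (max 0 (min a (len φ u x y))) (dir φ u x y))

variable {lam : S3 → ℝ} {L u : ℝ} {φ : ℝ → S3 → S3}

namespace Lc

theorem small (h : Lc lam L φ u) : 200 * u ≤ 1 / 100 := by
  nlinarith [h.sm, h.L0, h.u0]

theorem gg0 (h : Lc lam L φ u) (q : S3) : gg φ 0 q = 0 := by simp [gg, h.zero]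

theorem gg_le (h : Lc lam L φ u) (q : S3) {s : ℝ} (hs : |s| ≤ 200 * u) :
    ‖gg φ s q‖ ≤ |s| / 100 := by
  have h1 := h.me q q s 0 hs (by rw [abs_zero]; linarith [h.u0])
  simpa [h.gg0, norm_smul, norm_vel] using h1

theorem ma (h : Lc lam L φ u) (q q' : S3) {s s' : ℝ} (hs : |s| ≤ 200 * u) (hs' : |s'| ≤ 200 * u) :
    ‖pos (φ s q) - pos (φ s' q')‖ ≤ 2 * (‖pos q - pos q'‖ + ‖s • vel q - s' • vel q'‖) := by
  have h1 := h.me q q' s s' hs hs'
  have e : pos (φ s q) - pos (φ s' q') =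
      (pos q - pos q') + (s • vel q - s' • vel q') + (gg φ s q - gg φ s' q') := by
    simp only [gg]; abel
  have h2 := norm_add₃_le (a := pos q - pos q') (b := s • vel q - s' • vel q')
    (c := gg φ s q - gg φ s' q')
  rw [e]
  linarith [norm_nonneg (pos q - pos q'), norm_nonneg (s • vel q - s' • vel q')]

theorem mb (h : Lc lam L φ u) (q q' : S3) {s s' : ℝ} (hs : |s| ≤ 200 * u) (hs' : |s'| ≤ 200 * u) :
    ‖s • vel q - s' • vel q'‖ ≤ 2 * (‖pos q - pos q'‖ + ‖pos (φ s q) - pos (φ s' q')‖) := by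
  have h1 := h.me q q' s s' hs hs'
  have e : s • vel q - s' • vel q' =
      (pos (φ s q) - pos (φ s' q')) + -(pos q - pos q') + -(gg φ s q - gg φ s' q') := by
    simp only [gg]; abel
  have h2 := norm_add₃_le (a := pos (φ s q) - pos (φ s' q')) (b := -(pos q - pos q'))
    (c := -(gg φ s q - gg φ s' q'))
  rw [← e, norm_neg, norm_neg] at h2
  linarith [norm_nonneg (pos q - pos q'), norm_nonneg (pos (φ s q) - pos (φ s' q'))]

theorem uniq (h : Lc lam L φ u) {q q' : S3} {s s' : ℝ} (hs : |s| ≤ 200 * u) (hs' : |s'| ≤ 200 * u)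
    (h1 : pos q = pos q') (h2 : pos (φ s q) = pos (φ s' q')) : s • vel q = s' • vel q' := by
  have h3 := h.mb q q' hs hs'
  rw [h1, h2, sub_self, sub_self, norm_zero, add_zero, mul_zero] at h3
  exact sub_eq_zero.1 (norm_le_zero_iff.1 h3)

theorem same (h : Lc lam L φ u) {q q' : S3} {s s' : ℝ} (hs : |s| ≤ 200 * u) (hs' : |s'| ≤ 200 * u)
    (h1 : pos q = pos q') (h2 : s • vel q = s' • vel q') : pos (φ s q) = pos (φ s' q') := by
  have h3 := h.ma q q' hs hs'
  rw [h1, h2, sub_self, sub_self, norm_zero, add_zero, mul_zero] at h3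
  exact sub_eq_zero.1 (norm_le_zero_iff.1 h3)

theorem exists_chord (h : Lc lam L φ u) {x y : H} (n : Near u x y) :
    ∃ c : S3 × ℝ, pos c.1 = x ∧ 0 ≤ c.2 ∧ c.2 ≤ 200 * u ∧ pos (φ c.2 c.1) = y := by
  obtain ⟨hx, hy, hxy⟩ := n
  have hu := h.u0
  have hsm := h.small
  let T : Set H := {w | w.re = 0 ∧ ⟪x, w⟫ = 0 ∧ ‖w‖ ≤ 200 * u}
  have hT : IsClosed T := (isClosed_eq Quaternion.continuous_re continuous_const).inter
    ((isClosed_eq (by fun_prop) continuous_const).inter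
      (isClosed_le continuous_norm continuous_const))
  have : CompleteSpace T := hT.completeSpace_coe
  have : Nonempty T := ⟨⟨0, rfl, by simp, by rw [norm_zero]; linarith⟩⟩
  choose Q hQ1 hQ2 using fun w : T => exists_vel hx w.2.1 w.2.2.1
  have xx : ⟪x, x⟫ = 1 := by rw [real_inner_self_eq_norm_sq, hx.2]; norm_num
  have pr : ∀ v : H, ‖v - ⟪x, v⟫ • x‖ ≤ ‖v‖ := by
    intro v
    refine (sq_le_sq₀ (norm_nonneg _) (norm_nonneg _)).1 ?_
    rw [norm_sub_sq_real, real_inner_smul_right, norm_smul, hx.2, real_inner_comm, mul_one,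
      Real.norm_eq_abs, sq_abs]
    nlinarith [sq_nonneg ⟪v, x⟫]
  have ab : ∀ w : T, |‖(w : H)‖| ≤ 200 * u := fun w => by rw [abs_norm]; exact w.2.2.2
  let V : T → H := fun w => y - x - gg φ ‖(w : H)‖ (Q w)
  have hV : ∀ w, ‖V w‖ ≤ 52 * u := fun w => by
    have a1 := norm_sub_le (y - x) (gg φ ‖(w : H)‖ (Q w))
    have a2 := h.gg_le (Q w) (ab w)
    rw [norm_sub_rev y] at a1
    linarith [ab w]
  have hre : ∀ w, (V w).re = 0 := fun w => by
    simp [V, gg, hx.1, hy.1, re_pos, re_vel]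
  let F : T → T := fun w => ⟨V w - ⟪x, V w⟫ • x, by simp [hre, hx.1], by
    rw [inner_sub_right, real_inner_smul_right, xx]; ring, (pr _).trans (by linarith [hV w])⟩
  have hF : ContractingWith (1 / 2) F := by
    refine ⟨by norm_num, LipschitzWith.of_dist_le_mul fun w w' => ?_⟩
    rw [Subtype.dist_eq, Subtype.dist_eq, dist_eq_norm, dist_eq_norm]
    have e : (F w : H) - F w' = (V w - V w') - ⟪x, V w - V w'⟫ • x := by
      simp only [F, inner_sub_right, sub_smul]; abel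
    have e2 : V w - V w' = -(gg φ ‖(w : H)‖ (Q w) - gg φ ‖(w' : H)‖ (Q w')) := by
      simp only [V]; abel
    have a1 := h.me (Q w) (Q w') _ _ (ab w) (ab w')
    rw [hQ2, hQ2, hQ1, hQ1, sub_self, norm_zero] at a1
    rw [e]
    refine (pr _).trans ?_
    rw [e2, norm_neg]
    push_cast
    linarith [norm_nonneg ((w : H) - w')]
  obtain ⟨w, hw⟩ : ∃ w, F w = w := ⟨_, hF.fixedPoint_isFixedPt⟩
  refine ⟨(Q w, ‖(w : H)‖), hQ1 w, norm_nonneg _, w.2.2.2, ?_⟩
  have e1 : V w - ⟪x, V w⟫ • x = w := congrArg Subtype.val hw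
  have e2 : pos (φ ‖(w : H)‖ (Q w)) = y - ⟪x, V w⟫ • x := by
    have e3 : pos (φ ‖(w : H)‖ (Q w)) = y - V w + w := by
      simp only [V, gg, hQ1, hQ2]; abel
    rw [e3, ← e1]; abel
  have c1 : |⟪x, V w⟫| ≤ 52 * u := by
    have := abs_real_inner_le_norm x (V w)
    rw [hx.2, one_mul] at this
    exact this.trans (hV w)
  generalize ⟪x, V w⟫ = c at e2 c1
  have c2 := norm_sub_sq_real y (c • x)
  rw [← e2, norm_pos', hy.2, real_inner_smul_right, norm_smul, hx.2, mul_one, Real.norm_eq_abs,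
    sq_abs, inner_S2 hy hx, norm_sub_rev] at c2
  have c3 : ‖x - y‖ ^ 2 ≤ 1 := by nlinarith [norm_nonneg (x - y)]
  have c4 : c * (c - 2 * (1 - ‖x - y‖ ^ 2 / 2)) = 0 := by linarith
  rcases mul_eq_zero.1 c4 with c5 | c5
  · show pos (φ ‖(w : H)‖ (Q w)) = y
    rw [e2, c5]; simp
  · linarith [(abs_le.1 c1).2]

section
variable {x y x' y' : H}

theorem spec (h : Lc lam L φ u) (n : Near u x y) : pos (dir φ u x y) = x ∧ 0 ≤ len φ u x y ∧
    len φ u x y ≤ 200 * u ∧ pos (φ (len φ u x y) (dir φ u x y)) = y :=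
  Classical.epsilon_spec (h.exists_chord n)

theorem len_abs (h : Lc lam L φ u) (n : Near u x y) : |len φ u x y| ≤ 200 * u := by
  rw [abs_of_nonneg (h.spec n).2.1]; exact (h.spec n).2.2.1

theorem W_eq (h : Lc lam L φ u) (n : Near u x y) {q : S3} {s : ℝ} (hs : |s| ≤ 200 * u)
    (h1 : pos q = x) (h2 : pos (φ s q) = y) : Wv φ u x y = s • vel q :=
  h.uniq (h.len_abs n) hs ((h.spec n).1.trans h1.symm) ((h.spec n).2.2.2.trans h2.symm)

theorem norm_W (h : Lc lam L φ u) (n : Near u x y) : ‖Wv φ u x y‖ = len φ u x y := by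
  rw [Wv, norm_smul, norm_vel, mul_one, Real.norm_of_nonneg (h.spec n).2.1]

theorem le_len (h : Lc lam L φ u) (n : Near u x y) : ‖x - y‖ ≤ len φ u x y := by
  have h1 := h.pos_lip0 (dir φ u x y) (len φ u x y)
  rwa [(h.spec n).1, (h.spec n).2.2.2, abs_of_nonneg (h.spec n).2.1, norm_sub_rev] at h1

theorem len_le (h : Lc lam L φ u) (n : Near u x y) : len φ u x y ≤ 2 * ‖x - y‖ := by
  have h1 := h.mb (dir φ u x y) (dir φ u x y) (h.len_abs n) (s' := 0)
    (by rw [abs_zero]; linarith [h.u0])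
  rw [h.zero, (h.spec n).1, (h.spec n).2.2.2, sub_self, norm_zero, zero_add, zero_smul, sub_zero,
    norm_sub_rev] at h1
  rw [← h.norm_W n]; exact h1

theorem W_lip (h : Lc lam L φ u) (n : Near u x y) (n' : Near u x' y') :
    ‖Wv φ u x y - Wv φ u x' y'‖ ≤ 2 * (‖x - x'‖ + ‖y - y'‖) := by
  have h1 := h.mb (dir φ u x y) (dir φ u x' y') (h.len_abs n) (h.len_abs n')
  rwa [(h.spec n).1, (h.spec n).2.2.2, (h.spec n').1, (h.spec n').2.2.2] at h1

theorem len_lip (h : Lc lam L φ u) (n : Near u x y) (n' : Near u x' y') :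
    |len φ u x y - len φ u x' y'| ≤ ‖Wv φ u x y - Wv φ u x' y'‖ := by
  rw [← h.norm_W n, ← h.norm_W n']; exact abs_norm_sub_norm_le _ _

theorem cl_mem (h : Lc lam L φ u) (n : Near u x y) (a : ℝ) :
    0 ≤ max 0 (min a (len φ u x y)) ∧ max 0 (min a (len φ u x y)) ≤ len φ u x y :=
  ⟨le_max_left _ _, max_le (h.spec n).2.1 (min_le_right _ _)⟩

theorem pt_mem (x y : H) (a : ℝ) : pt φ u x y a ∈ S2 := pos_mem _

theorem pt_lo (h : Lc lam L φ u) (n : Near u x y) {a : ℝ} (ha : a ≤ 0) : pt φ u x y a = x := by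
  rw [pt, max_eq_left (min_le_of_left_le ha), h.zero, (h.spec n).1]

theorem pt_hi (h : Lc lam L φ u) (n : Near u x y) {a : ℝ} (ha : len φ u x y ≤ a) :
    pt φ u x y a = y := by
  rw [pt, min_eq_right ha, max_eq_right (h.spec n).2.1, (h.spec n).2.2.2]

theorem cl_lip (a b l m : ℝ) : |max 0 (min a l) - max 0 (min b m)| ≤ |a - b| + |l - m| := by
  have h1 := abs_max_sub_max_le_max 0 (min a l) 0 (min b m)
  have h2 := abs_min_sub_min_le_max a l b m
  rw [sub_self, abs_zero, max_eq_right (abs_nonneg (min a l - min b m))] at h1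
  exact h1.trans (h2.trans (max_le (by linarith [abs_nonneg (l - m)])
    (by linarith [abs_nonneg (a - b)])))

theorem pt_lip1 (h : Lc lam L φ u) (x y : H) (a b : ℝ) :
    ‖pt φ u x y a - pt φ u x y b‖ ≤ |a - b| :=
  (h.pos_lip _ _ _).trans ((cl_lip _ _ _ _).trans (by simp))

theorem pt_lip (h : Lc lam L φ u) (n : Near u x y) (n' : Near u x' y') (a b : ℝ) :
    ‖pt φ u x y a - pt φ u x' y' b‖ ≤ 14 * (‖x - x'‖ + ‖y - y'‖ + |a - b|) := by
  have c1 := h.cl_mem n a
  have c2 := h.cl_mem n' b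
  have c3 := cl_lip a b (len φ u x y) (len φ u x' y')
  have h1 := h.ma (dir φ u x y) (dir φ u x' y')
    (s := max 0 (min a (len φ u x y))) (s' := max 0 (min b (len φ u x' y')))
    (by rw [abs_of_nonneg c1.1]; exact c1.2.trans (h.spec n).2.2.1)
    (by rw [abs_of_nonneg c2.1]; exact c2.2.trans (h.spec n').2.2.1)
  rw [(h.spec n).1, (h.spec n').1] at h1
  refine h1.trans ?_
  have w1 := h.W_lip n n'
  have w2 := h.len_lip n n'
  simp only [Wv] at w1 w2
  have l0 := (h.spec n').2.1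
  have nv := norm_vel (dir φ u x y)
  generalize max 0 (min a (len φ u x y)) = c at *
  generalize max 0 (min b (len φ u x' y')) = c' at *
  generalize vel (dir φ u x y) = v at *
  generalize vel (dir φ u x' y') = v' at *
  generalize len φ u x y = l at *
  generalize len φ u x' y' = l' at *
  have e1 : c • v - c' • v' = (c - c') • v + c' • (v - v') := by
    simp only [sub_smul, smul_sub]; abel
  have e2 : l' • (v - v') = (l • v - l' • v') - (l - l') • v := by
    simp only [sub_smul, smul_sub]; abel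
  have a1 := norm_add_le ((c - c') • v) (c' • (v - v'))
  have a2 := norm_sub_le (l • v - l' • v') ((l - l') • v)
  rw [← e1, norm_smul, norm_smul, nv, mul_one, Real.norm_eq_abs, Real.norm_of_nonneg c2.1] at a1
  rw [← e2, norm_smul, norm_smul, nv, mul_one, Real.norm_of_nonneg l0, Real.norm_eq_abs] at a2
  have a3 := mul_le_mul_of_nonneg_right c2.2 (norm_nonneg (v - v'))
  linarith [norm_nonneg (x - x'), norm_nonneg (y - y'), abs_nonneg (a - b)]

end

section
variable {Z : Type*} {l : Filter Z} {x y : Z → H} {x0 y0 : H}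

theorem W_tendsto (h : Lc lam L φ u) (hx : Tendsto x l (𝓝 x0)) (hy : Tendsto y l (𝓝 y0))
    (n : ∀ᶠ z in l, Near u (x z) (y z)) (n0 : Near u x0 y0) :
    Tendsto (fun z => Wv φ u (x z) (y z)) l (𝓝 (Wv φ u x0 y0)) := by
  rw [tendsto_iff_norm_sub_tendsto_zero] at hx hy ⊢
  refine squeeze_zero' (Eventually.of_forall fun _ => norm_nonneg _)
    (n.mono fun z hz => h.W_lip hz n0) ?_
  simpa using (hx.add hy).const_mul 2

end

section
variable {Z : Type*} [TopologicalSpace Z] {x y : Z → H} {a : Z → ℝ}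

theorem W_cont (h : Lc lam L φ u) (hx : Continuous x) (hy : Continuous y)
    (n : ∀ z, Near u (x z) (y z)) : Continuous fun z => Wv φ u (x z) (y z) :=
  continuous_iff_continuousAt.2 fun z =>
    h.W_tendsto (hx.tendsto z) (hy.tendsto z) (Eventually.of_forall n) (n z)

theorem len_cont (h : Lc lam L φ u) (hx : Continuous x) (hy : Continuous y)
    (n : ∀ z, Near u (x z) (y z)) : Continuous fun z => len φ u (x z) (y z) :=
  (h.W_cont hx hy n).norm.congr fun z => h.norm_W (n z)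

theorem pt_cont (h : Lc lam L φ u) (hx : Continuous x) (hy : Continuous y) (ha : Continuous a)
    (n : ∀ z, Near u (x z) (y z)) : Continuous fun z => pt φ u (x z) (y z) (a z) := by
  refine continuous_iff_continuousAt.2 fun z => ?_
  rw [ContinuousAt, tendsto_iff_norm_sub_tendsto_zero]
  refine squeeze_zero (fun _ => norm_nonneg _) (fun w => h.pt_lip (n w) (n z) _ _) ?_
  have c : Continuous fun w => 14 * (‖x w - x z‖ + ‖y w - y z‖ + |a w - a z|) := by fun_prop
  simpa using c.tendsto z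

end

end Lc

end Pool.Agent.Lib.MP_399f8e_an.Rp
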