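import Pool.Agent.Lib.MP_399f8e_an.Rp.Sd

/-! The Crofton semi-metric of an invariant measure. -/

open Set Filter Topology Metric MeasureTheory
open scoped RealInnerProductSpace

noncomputable section

namespace Pool.Agent.Lib.MP_399f8e_an.Rp

theorem unif {Z : Type*} [TopologicalSpace Z] {K : Set Z} (hK : IsCompact K) {g : Z → ℝ}
    (hg : ∀ z0 ∈ K, ∃ δ > 0, ∀ᶠ z in 𝓝 z0, δ ≤ g z) : ∃ δ > 0, ∀ z ∈ K, δ ≤ g z := by
  refine hK.induction_on (p := fun S => ∃ δ > 0, ∀ z ∈ S, δ ≤ g z) ⟨1, one_pos, by simp⟩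
    (fun s t hst ⟨δ, h0, h1⟩ => ⟨δ, h0, fun z hz => h1 z (hst hz)⟩)
    (fun s t ⟨δ, h0, h1⟩ ⟨ε, h2, h3⟩ => ⟨min δ ε, lt_min h0 h2, fun z hz => ?_⟩) fun z hz => ?_
  · rcases hz with hz | hz
    · exact (min_le_left _ _).trans (h1 z hz)
    · exact (min_le_right _ _).trans (h3 z hz)
  · obtain ⟨δ, h0, h1⟩ := hg z hz
    exact ⟨_, mem_nhdsWithin_of_mem_nhds h1, δ, h0, fun _ h => h⟩

/-- straight triples -/
def Str (φ : ℝ → S3 → S3) (u : ℝ) (a b c : H) : Prop :=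
  ∃ (p : S3) (α β : ℝ), pos p = b ∧ 0 ≤ α ∧ α ≤ 200 * u ∧ 0 ≤ β ∧ β ≤ 200 * u ∧
    pos (φ (-α) p) = a ∧ pos (φ β p) = c

/-- very close pairs -/
def Cl (u : ℝ) (x y : H) : Prop := x ∈ S2 ∧ y ∈ S2 ∧ ‖x - y‖ ≤ 2 * u

theorem Cl.symm {u : ℝ} {x y : H} (n : Cl u x y) : Cl u y x :=
  ⟨n.2.1, n.1, by rw [norm_sub_rev]; exact n.2.2⟩

variable {lam : S3 → ℝ} {L u : ℝ} {φ : ℝ → S3 → S3}

theorem Lc.near (h : Lc lam L φ u) {x y : H} (n : Cl u x y) : Near u x y :=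
  ⟨n.1, n.2.1, by linarith [n.2.2, h.u0]⟩

theorem Lc.cl_self (h : Lc lam L φ u) {x : H} (n : x ∈ S2) : Cl u x x :=
  ⟨n, n, by rw [sub_self, norm_zero]; linarith [h.u0]⟩

theorem Lc.D_tendsto (h : Lc lam L φ u) {Z : Type*} {l : Filter Z} {q : Z → S3} {y : Z → H}
    {q0 : S3} {y0 : H} (hq : Tendsto q l (𝓝 q0)) (hy : Tendsto y l (𝓝 y0))
    (n : ∀ z, y z ∈ S2) (n1 : y0 ∈ S2) (n0 : ‖pos q0 - y0‖ < 50 * u) :
    Tendsto (fun z => Dv φ u (q z) (y z)) l (𝓝 (Dv φ u q0 y0)) := by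
  have t1 := (cont_pos.tendsto q0).comp hq
  refine ((cont_nor.tendsto q0).comp hq).inner (h.W_tendsto t1 hy ?_ ⟨pos_mem _, n1, n0.le⟩)
  exact ((t1.sub hy).norm.eventually_lt_const n0).mono fun z hz => ⟨pos_mem _, n z, hz.le⟩

theorem Lc.exists_frame (h : Lc lam L φ u) {a b c : H} (na : Cl u b a) (nc : Cl u b c)
    (hs : ¬ Str φ u a b c) : ∃ q : S3, ‖pos q - b‖ < 10 * u ∧ 0 < ⟪vel (φ (-(u / 2)) q), b⟫ ∧
      ⟪vel (φ (u / 2) q), b⟫ < 0 ∧ 0 < Dv φ u q b ∧ Dv φ u q a < 0 ∧ Dv φ u q c < 0 := by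
  have hu := h.u0
  obtain ⟨a1, a2, a3, a4⟩ := h.spec (h.near na)
  obtain ⟨c1, c2, c3, c4⟩ := h.spec (h.near nc)
  generalize len φ u b a = α at *
  generalize len φ u b c = β at *
  generalize dir φ u b a = pa at *
  generalize dir φ u b c = pc at *
  have ab : |α| ≤ 200 * u := by rwa [abs_of_nonneg a2]
  have bb : |β| ≤ 200 * u := by rwa [abs_of_nonneg c2]
  have k1 : α • (vel pa + vel pc) ≠ 0 := fun e => hs ⟨pc, α, β, c1, a2, a3, c2, c3, by
    rw [← a4]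
    refine h.same (by rwa [abs_neg]) ab (c1.trans a1.symm) ?_
    rw [smul_add] at e
    rw [neg_smul, eq_neg_of_add_eq_zero_left e], c4⟩
  have k2 : β • (vel pa + vel pc) ≠ 0 := fun e => hs ⟨pa * uI, α, β, by rw [pos_uI, a1], a2, a3,
    c2, c3, by rw [h.pos_rev, neg_neg, a4], by
    rw [← c4]
    refine h.same bb bb (by rw [pos_uI, a1, c1]) ?_
    rw [smul_add] at e
    rw [vel_uI, smul_neg, eq_neg_of_add_eq_zero_right e]⟩
  have α0 : 0 < α := a2.lt_of_ne fun e => k1 (by rw [← e, zero_smul])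
  have β0 : 0 < β := c2.lt_of_ne fun e => k2 (by rw [← e, zero_smul])
  have v0 : 0 < ‖vel pa + vel pc‖ := norm_pos_iff.2 fun e => k1 (by rw [e, smul_zero])
  obtain ⟨p, p1, p2⟩ := exists_vel (v := vel pa + vel pc) na.1 (by simp [re_vel]) (by
    rw [inner_add_right]
    nth_rewrite 1 [← a1]
    rw [in_pv, ← c1, in_pv, add_zero])
  have n2 := norm_add_sq_real (vel pa) (vel pc)
  rw [norm_vel, norm_vel] at n2
  have ia : 0 < ⟪vel p, vel pa⟫ := by
    have e : ⟪‖vel pa + vel pc‖ • vel p, vel pa⟫ = 1 + ⟪vel pa, vel pc⟫ := by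
      rw [p2, inner_add_left, in_vv, real_inner_comm]
    rw [real_inner_smul_left] at e
    exact pos_of_mul_pos_left (b := ‖vel pa + vel pc‖) (by nlinarith) v0.le
  have ic : 0 < ⟪vel p, vel pc⟫ := by
    have e : ⟪‖vel pa + vel pc‖ • vel p, vel pc⟫ = ⟪vel pa, vel pc⟫ + 1 := by
      rw [p2, inner_add_left, in_vv]
    rw [real_inner_smul_left] at e
    exact pos_of_mul_pos_left (b := ‖vel pa + vel pc‖) (by nlinarith) v0.le
  obtain ⟨r, hr⟩ := exists_rot (a := 0) (b := 1) (by norm_num)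
  have r1 : ∀ q, pos (q * r) = pos q := fun q => (hr q).1
  have r2 : ∀ q, nor (q * r) = -vel q := fun q => by rw [(hr q).2.2]; simp
  have cQ : Continuous fun ε : ℝ => φ ε p * r :=
    (h.cont' continuous_id continuous_const).mul continuous_const
  have tQ : Tendsto (fun ε : ℝ => φ ε p * r) (𝓝 0) (𝓝 (p * r)) := by
    simpa [h.zero] using cQ.tendsto 0
  have pb : pos (p * r) = b := by rw [r1, p1]
  have f0 : ⟪vel (φ 0 (p * r)), b⟫ = 0 := by rw [h.zero, ← pb, in_vp]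
  have sl := fun {s t : ℝ} => h.slope na.1 (q := p * r) (ρ := u) (s := s) (t := t)
    (by rw [pb, sub_self, norm_zero]; linarith)
  have cv : ∀ t, Continuous fun q => ⟪vel (φ t q), b⟫ := fun t =>
    (cont_vel.comp (h.cont' continuous_const continuous_id)).inner continuous_const
  have e1 : ∀ᶠ ε in 𝓝 (0 : ℝ), ‖pos (φ ε p * r) - b‖ < 10 * u :=
    ((((cont_pos.sub continuous_const).norm).tendsto _).comp tQ).eventually_lt_const
      (by simp only [Pi.sub_apply, pb, sub_self, norm_zero]; linarith)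
  have e2 : ∀ᶠ ε in 𝓝 (0 : ℝ), 0 < ⟪vel (φ (-(u / 2)) (φ ε p * r)), b⟫ :=
    (((cv _).tendsto _).comp tQ).eventually_const_lt (by
      have := (sl (s := -(u / 2)) (t := 0) (by linarith) (by linarith) (by linarith)).1
      linarith)
  have e3 : ∀ᶠ ε in 𝓝 (0 : ℝ), ⟪vel (φ (u / 2) (φ ε p * r)), b⟫ < 0 :=
    (((cv _).tendsto _).comp tQ).eventually_lt_const (by
      have := (sl (s := 0) (t := u / 2) (by linarith) (by linarith) (by linarith)).1
      linarith)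
  have e4 : ∀ {x : H} {px : S3} {s : ℝ}, Cl u b x → pos px = b → pos (φ s px) = x → 0 < s →
      |s| ≤ 200 * u → 0 < ⟪vel p, vel px⟫ → ∀ᶠ ε in 𝓝 (0 : ℝ), Dv φ u (φ ε p * r) x < 0 := by
    intro x px s nx x1 x2 s0 s1 i0
    have nb : ‖pos (p * r) - x‖ < 50 * u := by rw [pb]; linarith [nx.2.2]
    refine (h.D_tendsto tQ tendsto_const_nhds (fun _ => nx.2.1) nx.2.1 nb).eventually_lt_const ?_
    rw [← x2] at nb ⊢
    rw [h.D_on s1 (x1.trans pb.symm) nb.le, r2, inner_neg_left]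
    nlinarith
  have e5 : ∀ᶠ ε in 𝓝 (0 : ℝ), ε < u := eventually_lt_nhds hu
  obtain ⟨ε, ⟨⟨⟨⟨⟨g1, g2⟩, g3⟩, g4⟩, g5⟩, g6⟩, g7⟩ :=
    (((((((e1.and e2).and e3).and (e4 na a1 a4 α0 ab ia)).and (e4 nc c1 c4 β0 bb ic)).and
      e5).filter_mono nhdsWithin_le_nhds).and (self_mem_nhdsWithin (s := Ioi 0))).exists
  have g8 : 0 < ε := g7
  refine ⟨φ ε p * r, g1, g2, g3, ?_, g4, g5⟩
  have e6 : b = pos (φ (-ε) (φ ε p)) := by rw [← h.add, neg_add_cancel, h.zero, p1]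
  rw [e6] at g1 ⊢
  rw [h.D_on (by rw [abs_neg, abs_of_pos g8]; linarith) (r1 _).symm (by linarith), r2,
    inner_neg_left, in_vv]
  linarith

variable [MeasurableSpace S3] [BorelSpace S3] {μ : Measure S3} [IsProbabilityMeasure μ]

theorem Fl.transfer (h : Fl lam L φ) (hμ : ∀ t, MeasurePreserving (φ t) μ μ) {X X' Y Y' : Set S3}
    (mX : MeasurableSet X) (mX' : MeasurableSet X') (mY : MeasurableSet Y)
    (mY' : MeasurableSet Y') {T : ℝ} (hu : 0 < u)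
    (hX : ∀ q ∈ X, volume {t : ℝ | |t| ≤ T ∧ φ t q ∈ Y'} = ENNReal.ofReal u)
    (hX' : ∀ q ∈ X', volume {t : ℝ | |t| ≤ T ∧ φ t q ∈ Y} = ENNReal.ofReal u)
    (hi : ∀ q t, |t| ≤ T → (q ∈ X ∧ φ t q ∈ Y' ↔ q ∈ Y ∧ φ t q ∈ X')) : μ X = μ X' := by
  have mφ : Measurable fun p : ℝ × S3 => φ p.1 p.2 := h.cont.measurable
  have mG : ∀ {X Y : Set S3}, MeasurableSet X → MeasurableSet Y →
      MeasurableSet {p : ℝ × S3 | p.2 ∈ X ∧ |p.1| ≤ T ∧ φ p.1 p.2 ∈ Y} := fun a b => by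
    have m : MeasurableSet {p : ℝ × S3 | |p.1| ≤ T} :=
      measurableSet_le (by fun_prop) measurable_const
    exact (measurable_snd a).inter (m.inter (mφ b))
  have vG : ∀ {X Y : Set S3}, MeasurableSet X → MeasurableSet Y →
      (∀ q ∈ X, volume {t : ℝ | |t| ≤ T ∧ φ t q ∈ Y} = ENNReal.ofReal u) →
      (volume.prod μ) {p : ℝ × S3 | p.2 ∈ X ∧ |p.1| ≤ T ∧ φ p.1 p.2 ∈ Y} =
        ENNReal.ofReal u * μ X := by
    intro X Y a b c
    rw [Measure.prod_apply_symm (mG a b), ← lintegral_indicator_const a]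
    refine lintegral_congr fun q => ?_
    by_cases hq : q ∈ X
    · rw [indicator_of_mem hq, ← c q hq]
      congr 1; ext t; simp [hq]
    · rw [indicator_of_notMem hq]
      convert measure_empty (μ := (volume : Measure ℝ))
      ext t; simp [hq]
  have hΨ : MeasurePreserving (fun p : ℝ × S3 => (-p.1, φ p.1 p.2)) (volume.prod μ)
      (volume.prod μ) :=
    (Measure.measurePreserving_neg volume).skew_product mφ
      (Eventually.of_forall fun t => (hμ t).map_eq)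
  have e := hΨ.measure_preimage (mG mX' mY).nullMeasurableSet
  have e2 : (fun p : ℝ × S3 => (-p.1, φ p.1 p.2)) ⁻¹'
      {p : ℝ × S3 | p.2 ∈ X' ∧ |p.1| ≤ T ∧ φ p.1 p.2 ∈ Y} =
      {p : ℝ × S3 | p.2 ∈ X ∧ |p.1| ≤ T ∧ φ p.1 p.2 ∈ Y'} := by
    ext p
    simp only [mem_preimage, mem_ofPred_eq, abs_neg, ← h.add, neg_add_cancel, h.zero]
    have := hi p.2 p.1
    tauto
  rw [e2, vG mX mY' hX, vG mX' mY hX'] at e
  exact (ENNReal.mul_right_inj (by simpa using hu) ENNReal.ofReal_ne_top).1 e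

/-- frames near `c` that separate `y` from `z` -/
def Sp (φ : ℝ → S3 → S3) (u : ℝ) (c y z : H) : Set S3 :=
  {q | q ∈ Ec φ u c ∧ ¬ (q ∈ Lf φ u y ↔ q ∈ Lf φ u z)}

/-- the Crofton semi-metric -/
def dm (φ : ℝ → S3 → S3) (u : ℝ) (μ : Measure S3) (y z : H) : ℝ := μ.real (Sp φ u y y z)

namespace Lc

omit [IsProbabilityMeasure μ] in
theorem Sp_meas (h : Lc lam L φ u) (c : H) {y z : H} (hy : y ∈ S2) (hz : z ∈ S2) :
    MeasurableSet (Sp φ u c y z) :=
  (h.Ec_meas c).inter ((h.Lf_meas hy).iff (h.Lf_meas hz)).compl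

theorem indep (h : Lc lam L φ u) (hμ : ∀ t, MeasurePreserving (φ t) μ μ) {c c' y z : H}
    (n1 : Cl u y c) (n2 : Cl u z c) (n3 : Cl u y c') (n4 : Cl u z c') :
    μ.real (Sp φ u c y z) = μ.real (Sp φ u c' y z) := by
  have hu := h.u0
  have k1 : ∀ {c : H} {q : S3}, Cl u y c → Cl u z c → q ∈ Sp φ u c y z → ‖pos q - c‖ ≤ 6 * u := by
    intro c q n1 n2 hq
    by_contra h1
    exact hq.2 (h.Lf_far2 n1.2.1 n1.1 n2.1 hq.1 (not_le.1 h1).le n1.2.2 n2.2.2)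
  have k0 : ∀ {c y : H} {q : S3}, Cl u y c → ‖pos q - c‖ ≤ 6 * u → ‖pos q - y‖ ≤ 8 * u := by
    intro c y q n1 hq
    linarith [norm_sub_le_norm_sub_add_norm_sub (pos q) c y, n1.symm.2.2]
  have k2 : ∀ {c c' : H}, Cl u y c → Cl u z c → Cl u y c' → ∀ q ∈ Sp φ u c y z,
      volume {t : ℝ | |t| ≤ 22 * u ∧ φ t q ∈ Ec φ u c'} = ENNReal.ofReal u := by
    intro c c' n1 n2 n3 q hq
    refine h.Ec_time n3.2.1 ?_
    linarith [norm_sub_le_norm_sub_add_norm_sub (pos q) y c', n3.2.2, k0 n1 (k1 n1 n2 hq)]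
  have k3 : ∀ {c : H} {q : S3} {t : ℝ}, Cl u y c → Cl u z c → q ∈ Sp φ u c y z → |t| ≤ 22 * u →
      ¬ (φ t q ∈ Lf φ u y ↔ φ t q ∈ Lf φ u z) := by
    intro c q t n1 n2 hq ht
    rw [← h.Lf_flow n1.1 (by linarith [k0 n1 (k1 n1 n2 hq)]) (by linarith),
      ← h.Lf_flow n2.1 (by linarith [k0 n2 (k1 n1 n2 hq)]) (by linarith)]
    exact hq.2
  rw [Measure.real, Measure.real, h.transfer hμ (h.Sp_meas c n1.1 n2.1) (h.Sp_meas c' n1.1 n2.1)
    (h.Ec_meas c) (h.Ec_meas c') hu (k2 n1 n2 n3) (k2 n3 n4 n1) fun q t ht => ⟨fun a =>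
      ⟨a.1.1, a.2, k3 n1 n2 a.1 ht⟩, fun a => ⟨⟨a.1, ?_⟩, a.2.1⟩⟩]
  have := k3 (t := -t) n3 n4 a.2 (by rwa [abs_neg])
  rwa [← h.add, neg_add_cancel, h.zero] at this

end Lc

omit [BorelSpace S3] [IsProbabilityMeasure μ] in
theorem d_nonneg (y z : H) : 0 ≤ dm φ u μ y z := measureReal_nonneg

omit [BorelSpace S3] [IsProbabilityMeasure μ] in
theorem d_self (y : H) : dm φ u μ y y = 0 := by simp [dm, Sp]

omit [BorelSpace S3] in
theorem d_le_one (y z : H) : dm φ u μ y z ≤ 1 := measureReal_le_one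

namespace Lc

variable (h : Lc lam L φ u) (hμ : ∀ t, MeasurePreserving (φ t) μ μ)
include h hμ

theorem d_symm {y z : H} (n : Cl u y z) : dm φ u μ y z = dm φ u μ z y := by
  rw [dm, dm, h.indep hμ (h.cl_self n.1) n.symm n (h.cl_self n.2.1)]
  congr 1; ext q; simp only [Sp, mem_ofPred_eq]; tauto

theorem d_gain {a b c : H} (n1 : Cl u a b) (n2 : Cl u b c) (n3 : Cl u a c) {U : Set S3}
    (mU : MeasurableSet U)
    (hU : ∀ q ∈ U, q ∈ Ec φ u b ∧ q ∈ Lf φ u b ∧ q ∉ Lf φ u a ∧ q ∉ Lf φ u c) :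
    dm φ u μ a c + μ.real U ≤ dm φ u μ a b + dm φ u μ b c := by
  rw [dm, dm, dm, h.indep hμ (h.cl_self n1.1) n3.symm n1 n2.symm,
    h.indep hμ (h.cl_self n1.1) n1.symm n1 (h.cl_self n2.1),
    ← measureReal_union (disjoint_right.2 fun q a1 a2 => a2.2 (by have := hU q a1; tauto)) mU]
  refine (measureReal_mono fun q hq => ?_).trans (measureReal_union_le _ _)
  have := hU q
  simp only [Sp, mem_union, mem_ofPred_eq] at hq ⊢
  tauto

theorem d_tri {a b c : H} (n1 : Cl u a b) (n2 : Cl u b c) (n3 : Cl u a c) :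
    dm φ u μ a c ≤ dm φ u μ a b + dm φ u μ b c := by
  simpa using h.d_gain hμ n1 n2 n3 MeasurableSet.empty (by simp)

theorem d_add {p : S3} {a b c : ℝ} (hab : a ≤ b) (hbc : b ≤ c) (hac : c - a ≤ 2 * u) :
    dm φ u μ (pos (φ a p)) (pos (φ c p)) =
      dm φ u μ (pos (φ a p)) (pos (φ b p)) + dm φ u μ (pos (φ b p)) (pos (φ c p)) := by
  have k : ∀ {s t : ℝ}, s ≤ t → t - s ≤ 2 * u → Cl u (pos (φ t p)) (pos (φ s p)) :=
    fun {s t} a1 a2 => ⟨pos_mem _, pos_mem _, (h.pos_lip p s t).trans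
      (by rwa [abs_of_nonneg (sub_nonneg.2 a1)])⟩
  rw [dm, dm, dm, h.indep hμ (h.cl_self (pos_mem (φ b p))) (k hbc (by linarith))
    (k hab (by linarith)) (k (hab.trans hbc) hac),
    ← measureReal_union (disjoint_left.2 fun q a1 a2 => a1.2 (h.Lf_mono hab hbc hac a1.1
      (by have := a1.2; have := a2.2; tauto))) (h.Sp_meas _ (pos_mem _) (pos_mem _))]
  congr 1; ext q
  have := fun a1 => h.Lf_mono (q := q) (p := p) hab hbc hac a1
  simp only [Sp, mem_union, mem_ofPred_eq]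
  tauto

theorem gain [μ.IsOpenPosMeasure] {Z : Type*} [TopologicalSpace Z] {a b c : Z → H}
    (ca : Continuous a) (cb : Continuous b) (cc : Continuous c) (n1 : ∀ z, Cl u (a z) (b z))
    (n2 : ∀ z, Cl u (b z) (c z)) (n3 : ∀ z, Cl u (a z) (c z)) {z0 : Z}
    (hs : ¬ Str φ u (a z0) (b z0) (c z0)) : ∃ δ > 0, ∀ᶠ z in 𝓝 z0,
      δ ≤ dm φ u μ (a z) (b z) + dm φ u μ (b z) (c z) - dm φ u μ (a z) (c z) := by
  have hu := h.u0
  obtain ⟨q0, g1, g2, g3, g4, g5, g6⟩ := h.exists_frame (n1 z0).symm (n2 z0) hs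
  have t1 : Tendsto (fun w : S3 × Z => w.1) (𝓝 (q0, z0)) (𝓝 q0) := continuous_fst.tendsto _
  have t2 : ∀ {x : Z → H}, Continuous x →
      Tendsto (fun w : S3 × Z => x w.2) (𝓝 (q0, z0)) (𝓝 (x z0)) := fun cx =>
    (cx.comp continuous_snd).tendsto _
  have cv : ∀ t, Continuous fun w : S3 × Z => ⟪vel (φ t w.1), b w.2⟫ := fun t =>
    (cont_vel.comp (h.cont' continuous_const continuous_fst)).inner (cb.comp continuous_snd)
  have tr : ∀ (q : S3) {x y : H}, Cl u x y → ‖pos q - x‖ < 10 * u → ‖pos q - y‖ < 12 * u :=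
    fun q x y n hq => by linarith [norm_sub_le_norm_sub_add_norm_sub (pos q) x y, n.2.2]
  have e1 := (((cont_pos.tendsto q0).comp t1).sub (t2 cb)).norm.eventually_lt_const g1
  have e2 := ((cv _).tendsto (q0, z0)).eventually_const_lt g2
  have e3 := ((cv _).tendsto (q0, z0)).eventually_lt_const g3
  have e4 := (h.D_tendsto t1 (t2 cb) (fun w => (n2 w.2).1) (n2 z0).1
    (by linarith)).eventually_const_lt g4
  have e5 := (h.D_tendsto t1 (t2 ca) (fun w => (n1 w.2).1) (n1 z0).1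
    (by linarith [tr q0 (n1 z0).symm g1])).eventually_lt_const g5
  have e6 := (h.D_tendsto t1 (t2 cc) (fun w => (n2 w.2).2.1) (n2 z0).2.1
    (by linarith [tr q0 (n2 z0) g1])).eventually_lt_const g6
  have e := ((((e1.and e2).and e3).and e4).and e5).and e6
  rw [nhds_prod_eq, eventually_prod_iff] at e
  obtain ⟨pa, ha, pb, hb, e⟩ := e
  obtain ⟨U, U1, U2, U3⟩ := _root_.eventually_nhds_iff.1 ha
  have c0 : Continuous (φ (u / 2)) := h.cont' continuous_const continuous_id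
  have oU := U2.preimage c0
  refine ⟨μ.real (φ (u / 2) ⁻¹' U), ?_, hb.mono fun z hz => ?_⟩
  · refine ENNReal.toReal_pos (oU.measure_pos μ ⟨φ (-(u / 2)) q0, ?_⟩).ne' (measure_ne_top _ _)
    rwa [mem_preimage, ← h.add, add_neg_cancel, h.zero]
  · have := h.d_gain hμ (n1 z) (n2 z) (n3 z) oU.measurableSet fun q hq => ?_
    · linarith
    obtain ⟨⟨⟨⟨⟨b1, b2⟩, b3⟩, b4⟩, b5⟩, b6⟩ := e (U1 _ hq) hz
    simp only [Function.comp_apply, ← h.add, neg_add_cancel, h.zero, add_halves] at b1 b2 b3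
    have ht : |-(u / 2)| ≤ u := by rw [abs_neg, abs_of_pos (by linarith)]; linarith
    have eq : φ (-(u / 2)) (φ (u / 2) q) = q := by rw [← h.add, neg_add_cancel, h.zero]
    have fl : ∀ {y : H}, y ∈ S2 → ‖pos (φ (u / 2) q) - y‖ < 12 * u →
        (φ (u / 2) q ∈ Lf φ u y ↔ q ∈ Lf φ u y) := fun {y} hy hq => by
      rw [h.Lf_flow hy (by linarith) (t := -(u / 2)) (by linarith), eq]
    refine ⟨⟨?_, b2.le, b3⟩, (fl (n2 z).1 (by linarith)).1 ⟨by linarith, b4⟩,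
      fun k => b5.not_gt ((fl (n1 z).1 (tr _ (n1 z).symm b1)).2 k).2,
      fun k => b6.not_gt ((fl (n2 z).2.1 (tr _ (n2 z) b1)).2 k).2⟩
    have d1 := h.pos_lip0 (φ (u / 2) q) (-(u / 2))
    rw [eq] at d1
    linarith [norm_sub_le_norm_sub_add_norm_sub (pos q) (pos (φ (u / 2) q)) (b z)]

omit hμ [MeasurableSpace S3] [BorelSpace S3] in
theorem not_str {a b : H} (hab : a ≠ b) : ¬ Str φ u a b a := by
  rintro ⟨p, α, β, p1, a1, a2, b1, b2, e1, e2⟩
  have e := h.uniq (by rwa [abs_neg, abs_of_nonneg a1]) (by rwa [abs_of_nonneg b1]) rfl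
    (e1.trans e2.symm)
  have e3 := congrArg (fun w => ⟪vel p, w⟫) e
  simp only [real_inner_smul_right, in_vv] at e3
  have : β = 0 := by linarith
  rw [this, h.zero, p1] at e2
  exact hab e2.symm

theorem coer [μ.IsOpenPosMeasure] {η : ℝ} (hη : 0 < η) :
    ∃ δ > 0, ∀ y z, Cl u y z → η ≤ ‖y - z‖ → δ ≤ dm φ u μ y z := by
  let Z := {w : H × H | Cl u w.1 w.2}
  have hZ : IsCompact Z := by
    refine (isCompact_S2.prod isCompact_S2).of_isClosed_subset ?_ fun w hw => ⟨hw.1, hw.2.1⟩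
    have m : IsClosed {w : H × H | ‖w.1 - w.2‖ ≤ 2 * u} :=
      isClosed_le (by fun_prop) continuous_const
    exact (isClosed_S2.preimage continuous_fst).inter
      ((isClosed_S2.preimage continuous_snd).inter m)
  have : CompactSpace Z := isCompact_iff_compactSpace.1 hZ
  have hK : IsCompact {w : Z | η ≤ ‖w.1.1 - w.1.2‖} :=
    (isClosed_le continuous_const (by fun_prop)).isCompact
  obtain ⟨δ, h0, h1⟩ := unif hK (g := fun w => dm φ u μ w.1.1 w.1.2 + dm φ u μ w.1.2 w.1.1 -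
      dm φ u μ w.1.1 w.1.1) fun w hw =>
    h.gain hμ (a := fun w : Z => w.1.1) (b := fun w : Z => w.1.2) (c := fun w : Z => w.1.1)
      (by fun_prop) (by fun_prop) (by fun_prop) (fun w => w.2) (fun w => Cl.symm w.2)
      (fun w => h.cl_self w.2.1) (h.not_str fun e => by
        rw [mem_ofPred_eq, e, sub_self, norm_zero] at hw; linarith)
  refine ⟨δ / 2, by linarith, fun y z n hyz => ?_⟩
  have := h1 ⟨(y, z), n⟩ hyz
  simp only [d_self, ← h.d_symm hμ n] at this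
  linarith

end Lc

end Pool.Agent.Lib.MP_399f8e_an.Rp
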