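import Pool.Agent.Lib.MP_399f8e_an.Rp.Q

/-! The flow, its symmetries and the master estimate for short geodesics. -/

open Set Filter Topology Metric
open scoped RealInnerProductSpace

noncomputable section

namespace Pool.Agent.Lib.MP_399f8e_an.Rp

/-- the vector field -/
def Xf (lam : S3 → ℝ) (q : S3) : H := (1 / 2 : ℝ) • ((q : H) * (qk + lam q • qi))

/-- integral curves -/
def Sol (lam : S3 → ℝ) (c : ℝ → S3) : Prop :=
  ∀ t, HasDerivAt (fun s => (c s : H)) (Xf lam (c t)) t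

/-- the standing hypotheses -/
structure Fl (lam : S3 → ℝ) (L : ℝ) (φ : ℝ → S3 → S3) : Prop where
  L0 : 0 ≤ L
  lip : ∀ q q', |lam q - lam q'| ≤ L * ‖(q : H) - q'‖
  odd : ∀ q, lam (q * uI) = -lam q
  zero : ∀ q, φ 0 q = q
  der : ∀ q, Sol lam fun s => φ s q

theorem mvt {f f' : ℝ → H} {C ρ s t : ℝ} (hd : ∀ s, HasDerivAt f (f' s) s)
    (hb : ∀ s, |s| ≤ ρ → ‖f' s‖ ≤ C) (hs : |s| ≤ ρ) (ht : |t| ≤ ρ) :
    ‖f t - f s‖ ≤ C * |t - s| := by
  have := (convex_Icc (-ρ) ρ).norm_image_sub_le_of_norm_hasDerivWithin_le (f := f) (f' := f')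
    (C := C) (x := s) (y := t) (fun s _ => (hd s).hasDerivWithinAt)
    (fun s hs => hb s (abs_le.2 hs)) (abs_le.1 hs) (abs_le.1 ht)
  simpa using this

theorem gron {f f' : ℝ → H} {K : ℝ} (hd : ∀ s, HasDerivAt f (f' s) s)
    (hb : ∀ s, ‖f' s‖ ≤ K * ‖f s‖) (t : ℝ) : ‖f t‖ ≤ ‖f 0‖ * Real.exp (K * |t|) := by
  have key : ∀ {f f' : ℝ → H}, (∀ s, HasDerivAt f (f' s) s) → (∀ s, ‖f' s‖ ≤ K * ‖f s‖) →
      ∀ t, 0 ≤ t → ‖f t‖ ≤ ‖f 0‖ * Real.exp (K * t) := by
    intro f f' hd hb t ht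
    have h := norm_le_gronwallBound_of_norm_deriv_right_le (f := f) (f' := f') (δ := ‖f 0‖)
      (K := K) (ε := 0) (a := 0) (b := t) (fun s _ => (hd s).continuousAt.continuousWithinAt)
      (fun s _ => (hd s).hasDerivWithinAt) le_rfl (fun s _ => by simpa using hb s) t
      ⟨ht, le_rfl⟩
    rwa [gronwallBound_ε0, sub_zero] at h
  rcases le_total 0 t with ht | ht
  · rw [abs_of_nonneg ht]; exact key hd hb t ht
  · have h := key (f := fun s => f (-s)) (f' := fun s => -f' (-s))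
      (fun s => ((hd (-s)).scomp s (hasDerivAt_neg s)).congr_deriv (by simp))
      (fun s => by simpa using hb (-s)) (-t) (neg_nonneg.2 ht)
    rw [abs_of_nonpos ht]
    simpa using h

theorem uI_sq (q : S3) : q * uI * uI = -q := by
  have h : qi * qi = -1 := by ext <;> simp [qi]
  refine Subtype.ext ?_
  show (q : H) * qi * qi = -(q : H)
  rw [mul_assoc, h]; simp

/-- quaternion conjugation as a continuous linear map -/
def stl : H →L[ℝ] H where
  toFun := star
  map_add' := star_add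
  map_smul' := fun c a => by simp [Quaternion.star_smul]
  cont := continuous_star

variable {lam : S3 → ℝ} {L : ℝ} {φ : ℝ → S3 → S3}

namespace Fl

theorem even (h : Fl lam L φ) (q : S3) : lam (-q) = lam q := by
  rw [← uI_sq, h.odd, h.odd, neg_neg]

theorem bd (h : Fl lam L φ) (q : S3) : |lam q| ≤ L := by
  have h1 := h.lip q (q * uI)
  have h2 : ‖(q : H) - (q * uI : S3)‖ ≤ 2 :=
    (norm_sub_le _ _).trans (by rw [nq, nq]; norm_num)
  rw [h.odd, sub_neg_eq_add, ← two_mul, abs_mul, abs_two] at h1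
  nlinarith [h.L0]

theorem contl (h : Fl lam L φ) : Continuous lam := by
  refine (LipschitzWith.of_dist_le' (K := L) fun x y => ?_).continuous
  rw [Real.dist_eq, Subtype.dist_eq, dist_eq_norm]
  exact h.lip x y

theorem X_lip (h : Fl lam L φ) (q q' : S3) :
    ‖Xf lam q - Xf lam q'‖ ≤ (1 + L) * ‖(q : H) - q'‖ := by
  have e : Xf lam q - Xf lam q' = (1 / 2 : ℝ) • (((q : H) - q') * qk +
      lam q • (((q : H) - q') * qi) + (lam q - lam q') • ((q' : H) * qi)) := by
    simp only [Xf, mul_add, sub_mul, mul_smul_comm, smul_sub, sub_smul, smul_add]; abel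
  rw [e, norm_smul]
  have h1 := norm_add₃_le (a := ((q : H) - q') * qk) (b := lam q • (((q : H) - q') * qi))
    (c := (lam q - lam q') • ((q' : H) * qi))
  simp only [norm_smul, norm_mul, norm_qi, norm_qk, nq, mul_one, Real.norm_eq_abs] at h1
  have h2 := mul_le_mul_of_nonneg_right (h.bd q) (norm_nonneg ((q : H) - q'))
  have h3 := h.lip q q'
  have h4 := norm_nonneg ((q : H) - q')
  rw [Real.norm_eq_abs, abs_of_pos (by norm_num : (0 : ℝ) < 1 / 2)]
  linarith

theorem sol_dist (h : Fl lam L φ) {c c' : ℝ → S3} (hc : Sol lam c) (hc' : Sol lam c') (t : ℝ) :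
    ‖(c t : H) - c' t‖ ≤ ‖(c 0 : H) - c' 0‖ * Real.exp ((1 + L) * |t|) :=
  gron (f := fun s => (c s : H) - c' s) (fun s => (hc s).sub (hc' s)) (fun _ => h.X_lip _ _) t

theorem sol_eq (h : Fl lam L φ) {c : ℝ → S3} (hc : Sol lam c) (t : ℝ) : c t = φ t (c 0) := by
  have h1 := h.sol_dist hc (h.der (c 0)) t
  rw [h.zero, sub_self, norm_zero, zero_mul] at h1
  exact Subtype.ext (sub_eq_zero.1 (norm_le_zero_iff.1 h1))

theorem add (h : Fl lam L φ) (s t : ℝ) (q : S3) : φ (s + t) q = φ s (φ t q) := by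
  have h1 := h.sol_eq (c := fun s => φ (s + t) q) (fun s => (h.der q (s + t)).comp_add_const s t) s
  simpa using h1

theorem neg (h : Fl lam L φ) (t : ℝ) (q : S3) : φ t (-q) = -φ t q := by
  have h1 := h.sol_eq (c := fun s => -φ s q) (fun s => by
    have h2 := (h.der q s).neg
    have e : Xf lam (-φ s q) = -Xf lam (φ s q) := by simp [Xf, h.even]
    rw [e]; exact h2) t
  rw [h1, h.zero]

theorem rev (h : Fl lam L φ) (t : ℝ) (q : S3) : φ t (q * uI) = φ (-t) q * uI := by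
  have h1 := h.sol_eq (c := fun s => φ (-s) q * uI) (fun s => by
    have h2 := ((h.der q (-s)).scomp s (hasDerivAt_neg s)).mul_const qi
    have e : Xf lam (φ (-s) q * uI) = ((-1 : ℝ) • Xf lam (φ (-s) q)) * qi := by
      have e1 : qi * (qk + (-lam (φ (-s) q)) • qi) = -((qk + lam (φ (-s) q) • qi) * qi) := by
        ext <;> simp [qi, qk]
      simp only [Xf, h.odd]
      show (1 / 2 : ℝ) • ((φ (-s) q : H) * qi * _) = _
      rw [mul_assoc, e1]
      simp [mul_assoc]
    rw [e]; exact h2) t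
  rw [h1, neg_zero, h.zero]

theorem dist_le (h : Fl lam L φ) (t : ℝ) (q q' : S3) :
    ‖(φ t q : H) - φ t q'‖ ≤ ‖(q : H) - q'‖ * Real.exp ((1 + L) * |t|) := by
  simpa only [h.zero] using h.sol_dist (h.der q) (h.der q') t

theorem cont (h : Fl lam L φ) : Continuous fun p : ℝ × S3 => φ p.1 p.2 := by
  refine continuous_iff_continuousAt.2 fun p => ?_
  rw [ContinuousAt, tendsto_iff_dist_tendsto_zero]
  have c1 : Continuous fun s => (φ s p.2 : H) :=
    continuous_iff_continuousAt.2 fun s => (h.der p.2 s).continuousAt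
  have c2 : Continuous fun z : ℝ × S3 => ‖(z.2 : H) - p.2‖ * Real.exp ((1 + L) * |z.1|) +
      ‖(φ z.1 p.2 : H) - φ p.1 p.2‖ := by
    have c3 : Continuous fun z : ℝ × S3 => (φ z.1 p.2 : H) := c1.comp continuous_fst
    fun_prop
  have t2 := c2.tendsto p
  simp only [sub_self, norm_zero, zero_mul, add_zero] at t2
  refine squeeze_zero (fun _ => dist_nonneg) (fun z => ?_) t2
  rw [Subtype.dist_eq, dist_eq_norm]
  exact (norm_sub_le_norm_sub_add_norm_sub _ (φ z.1 p.2 : H) _).trans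
    (add_le_add (h.dist_le _ _ _) le_rfl)

theorem cont' (h : Fl lam L φ) {Z : Type*} [TopologicalSpace Z] {t : Z → ℝ} {q : Z → S3}
    (ht : Continuous t) (hq : Continuous q) : Continuous fun z => φ (t z) (q z) :=
  h.cont.comp (ht.prodMk hq)

theorem d_cj (h : Fl lam L φ) (w : H) (q : S3) (t : ℝ) :
    HasDerivAt (fun s => cj (φ s q) w) (cj (φ t q) ((1 / 2 : ℝ) •
      ((qk + lam (φ t q) • qi) * w - w * (qk + lam (φ t q) • qi)))) t := by
  have h1 := h.der q t
  have h0 : HasDerivAt (fun s => star (φ s q : H)) (star (Xf lam (φ t q))) t :=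
    stl.hasFDerivAt.comp_hasDerivAt t h1
  have h2 := (h1.mul_const w).mul h0
  refine h2.congr_deriv ?_
  have e : star (qk + lam (φ t q) • qi) = -(qk + lam (φ t q) • qi) := by ext <;> simp [qi, qk]
  simp only [Xf, cj, Quaternion.star_smul, star_mul, e, smul_mul_assoc, mul_smul_comm, mul_sub,
    sub_mul, smul_sub, mul_assoc, neg_mul, mul_neg, smul_neg]
  abel

theorem d_pos (h : Fl lam L φ) (q : S3) (t : ℝ) :
    HasDerivAt (fun s => pos (φ s q)) (vel (φ t q)) t := by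
  refine (h.d_cj qi q t).congr_deriv ?_
  rw [vel]; congr 1
  ext <;> simp [qi, qj, qk]
  norm_num

theorem d_vel (h : Fl lam L φ) (q : S3) (t : ℝ) :
    HasDerivAt (fun s => vel (φ s q)) (lam (φ t q) • nor (φ t q) - pos (φ t q)) t := by
  refine (h.d_cj qj q t).congr_deriv ?_
  rw [pos, nor, ← cj_smul, ← cj_sub]; congr 1
  ext <;> simp [qi, qj, qk]
  · norm_num
  · ring

theorem pos_lip (h : Fl lam L φ) (q : S3) (s t : ℝ) :
    ‖pos (φ t q) - pos (φ s q)‖ ≤ |t - s| := by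
  simpa using mvt (C := 1) (ρ := max |s| |t|) (h.d_pos q) (fun s _ => (norm_vel _).le)
    (le_max_left _ _) (le_max_right _ _)

theorem pos_lip0 (h : Fl lam L φ) (q : S3) (t : ℝ) : ‖pos (φ t q) - pos q‖ ≤ |t| := by
  simpa [h.zero] using h.pos_lip q 0 t

theorem pos_rev (h : Fl lam L φ) (t : ℝ) (q : S3) : pos (φ t (q * uI)) = pos (φ (-t) q) := by
  rw [h.rev, pos_uI]

theorem pos_pm (h : Fl lam L φ) {q q' : S3} (h1 : pos q = pos q') (h2 : vel q = vel q') (t : ℝ) :
    pos (φ t q) = pos (φ t q') ∧ vel (φ t q) = vel (φ t q') := by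
  rcases eq_pm h1 h2 with rfl | rfl
  · exact ⟨rfl, rfl⟩
  · rw [h.neg]; exact ⟨cj_neg _ _, cj_neg _ _⟩

end Fl

/-- the deviation from the tangent line -/
def gg (φ : ℝ → S3 → S3) (s : ℝ) (q : S3) : H := pos (φ s q) - pos q - s • vel q

namespace Fl

theorem d_gg (h : Fl lam L φ) (q : S3) (t : ℝ) :
    HasDerivAt (fun s => gg φ s q) (vel (φ t q) - vel q) t := by
  exact (((h.d_pos q t).sub_const (pos q)).sub
    ((hasDerivAt_id t).smul_const (vel q))).congr_deriv (by simp)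

theorem vel_lip (h : Fl lam L φ) (q : S3) (t : ℝ) : ‖vel (φ t q) - vel q‖ ≤ (1 + L) * |t| := by
  have h1 := mvt (C := 1 + L) (ρ := |t|) (s := 0) (t := t) (h.d_vel q) (fun s _ => by
    refine (norm_sub_le _ _).trans ?_
    rw [norm_smul, norm_nor, norm_pos', Real.norm_eq_abs]
    linarith [h.bd (φ s q)]) (by simp) le_rfl
  simpa [h.zero] using h1

theorem gg_s (h : Fl lam L φ) (q : S3) {ρ s t : ℝ} (hs : |s| ≤ ρ) (ht : |t| ≤ ρ) :
    ‖gg φ t q - gg φ s q‖ ≤ (1 + L) * ρ * |t - s| :=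
  mvt (h.d_gg q) (fun s hs => (h.vel_lip q s).trans
    (mul_le_mul_of_nonneg_left hs (by linarith [h.L0]))) hs ht

theorem gg_q0 (h : Fl lam L φ) (q q' : S3) {s : ℝ} (hs : |s| ≤ 1) :
    ‖gg φ s q - gg φ s q'‖ ≤ (2 + 3 * L) * Real.exp (1 + L) * ‖(q : H) - q'‖ * s ^ 2 := by
  have hL := h.L0
  set C := (2 + 3 * L) * Real.exp (1 + L) * ‖(q : H) - q'‖ with hC
  have acc : ∀ t, |t| ≤ 1 → ‖(lam (φ t q) • nor (φ t q) - pos (φ t q)) -
      (lam (φ t q') • nor (φ t q') - pos (φ t q'))‖ ≤ C := by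
    intro t ht
    have e : (lam (φ t q) • nor (φ t q) - pos (φ t q)) -
        (lam (φ t q') • nor (φ t q') - pos (φ t q')) = lam (φ t q) • (nor (φ t q) - nor (φ t q')) +
        (lam (φ t q) - lam (φ t q')) • nor (φ t q') + -(pos (φ t q) - pos (φ t q')) := by
      simp only [smul_sub, sub_smul]; abel
    rw [e]
    refine norm_add₃_le.trans ?_
    have a1 := cj_lip (φ t q) (φ t q') qk
    have a2 := cj_lip (φ t q) (φ t q') qi
    rw [norm_qk] at a1
    rw [norm_qi] at a2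
    have a3 := h.lip (φ t q) (φ t q')
    have a4 : ‖(φ t q : H) - φ t q'‖ ≤ ‖(q : H) - q'‖ * Real.exp (1 + L) :=
      (h.dist_le t q q').trans (mul_le_mul_of_nonneg_left (Real.exp_le_exp.2 (by nlinarith))
        (norm_nonneg _))
    have a5 : |lam (φ t q)| * ‖nor (φ t q) - nor (φ t q')‖ ≤ L * (2 * 1 * ‖(φ t q : H) - φ t q'‖) :=
      mul_le_mul (h.bd _) a1 (norm_nonneg _) hL
    have a6 := mul_le_mul_of_nonneg_left a4 (show 0 ≤ 2 + 3 * L by linarith)
    rw [norm_neg, norm_smul, norm_smul, norm_nor, Real.norm_eq_abs, Real.norm_eq_abs, hC]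
    have a7 : ‖pos (φ t q) - pos (φ t q')‖ ≤ 2 * 1 * ‖(φ t q : H) - φ t q'‖ := a2
    nlinarith
  have hC0 : 0 ≤ C := by positivity
  have v1 : ∀ t, |t| ≤ |s| → ‖(vel (φ t q) - vel q) - (vel (φ t q') - vel q')‖ ≤ C * |s| := by
    intro t ht
    have h1 := mvt (C := C) (ρ := 1) (s := 0) (t := t) (fun t => (h.d_vel q t).sub (h.d_vel q' t))
      acc (by simp) (ht.trans hs)
    simp only [Pi.sub_apply, h.zero, sub_zero] at h1
    have e : (vel (φ t q) - vel q) - (vel (φ t q') - vel q') =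
        vel (φ t q) - vel (φ t q') - (vel q - vel q') := by abel
    rw [e]
    exact h1.trans (mul_le_mul_of_nonneg_left ht hC0)
  have h2 := mvt (C := C * |s|) (ρ := |s|) (s := 0) (t := s)
    (fun t => (h.d_gg q t).sub (h.d_gg q' t)) v1 (by simp) le_rfl
  have z : ∀ q, gg φ 0 q = 0 := fun q => by simp [gg, h.zero]
  simp only [Pi.sub_apply, z, sub_zero] at h2
  rw [← sq_abs, sq, ← mul_assoc]
  exact h2

theorem gg_q (h : Fl lam L φ) (q q' : S3) {s : ℝ} (hs : |s| ≤ 1) :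
    ‖gg φ s q - gg φ s q'‖ ≤ (2 + 3 * L) * Real.exp (1 + L) *
      (‖pos q - pos q'‖ + ‖vel q - vel q'‖) * s ^ 2 := by
  have hL := h.L0
  rcases near_pm q q' with h1 | h1
  · exact (h.gg_q0 q q' hs).trans (by gcongr)
  · have e : gg φ s (-q') = gg φ s q' := by simp only [gg, h.neg, pos, vel, cj_neg]
    rw [← e]
    exact (h.gg_q0 q (-q') hs).trans (by gcongr)

theorem gg_rev (h : Fl lam L φ) (s : ℝ) (q : S3) : gg φ (-s) (q * uI) = gg φ s q := by
  simp [gg, h.pos_rev, pos_uI, vel_uI]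

end Fl

/-- the standing hypotheses with a small scale -/
structure Lc (lam : S3 → ℝ) (L : ℝ) (φ : ℝ → S3 → S3) (u : ℝ) : Prop extends Fl lam L φ where
  u0 : 0 < u
  sm : (1 + L) * (200 * u) ≤ 1 / 100
  me : ∀ q q' s s', |s| ≤ 200 * u → |s'| ≤ 200 * u →
    ‖gg φ s q - gg φ s' q'‖ ≤ (‖s • vel q - s' • vel q'‖ + ‖pos q - pos q'‖) / 100

theorem Fl.exists_lc (h : Fl lam L φ) : ∃ u, Lc lam L φ u := by
  have hL := h.L0
  set C := (2 + 3 * L) * Real.exp (1 + L) with hC
  have hC0 : 0 < C := by positivity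
  obtain ⟨r, hr, hr1⟩ : ∃ r : ℝ, 0 < r ∧ (1 + L + 2 * C) * r = 1 / 100 :=
    ⟨1 / 100 / (1 + L + 2 * C), by positivity, by field_simp⟩
  have hr2 : r ≤ 1 := by nlinarith [mul_nonneg hL hr.le, mul_pos hC0 hr]
  have k1 : ∀ q q' s s', 0 ≤ s' → s' ≤ s → s ≤ r →
      ‖gg φ s q - gg φ s' q'‖ ≤ (‖s • vel q - s' • vel q'‖ + ‖pos q - pos q'‖) / 100 := by
    intro q q' s s' h0 h1 h2
    have a1 := h.gg_s q (ρ := r) (s := s') (t := s) (by rw [abs_of_nonneg h0]; linarith)
      (by rw [abs_of_nonneg (h0.trans h1)]; exact h2)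
    have a2 := h.gg_q q q' (s := s') (by rw [abs_of_nonneg h0]; linarith)
    have a3 := norm_sub_le_norm_sub_add_norm_sub (gg φ s q) (gg φ s' q) (gg φ s' q')
    have b1 : |s - s'| ≤ ‖s • vel q - s' • vel q'‖ := by
      have := abs_norm_sub_norm_le (s • vel q) (s' • vel q')
      rwa [norm_smul, norm_smul, norm_vel, norm_vel, mul_one, mul_one, Real.norm_of_nonneg h0,
        Real.norm_of_nonneg (h0.trans h1)] at this
    have b2 : s' * ‖vel q - vel q'‖ ≤ 2 * ‖s • vel q - s' • vel q'‖ := by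
      have e : s' • (vel q - vel q') = (s • vel q - s' • vel q') - (s - s') • vel q := by
        simp only [smul_sub, sub_smul]; abel
      have c1 := norm_sub_le (s • vel q - s' • vel q') ((s - s') • vel q)
      rw [← e, norm_smul, norm_smul, norm_vel, mul_one, Real.norm_of_nonneg h0,
        Real.norm_eq_abs] at c1
      linarith
    generalize ‖s • vel q - s' • vel q'‖ = w at *
    have n1 := norm_nonneg (pos q - pos q')
    have n2 := norm_nonneg (vel q - vel q')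
    generalize ‖pos q - pos q'‖ = x at *
    generalize ‖vel q - vel q'‖ = y at *
    have w0 : 0 ≤ w := (abs_nonneg _).trans b1
    have c1 : (1 + L) * r * |s - s'| ≤ (1 + L) * r * w := by gcongr
    have c2 : C * y * s' ^ 2 ≤ C * r * (2 * w) := by
      calc C * y * s' ^ 2 = C * s' * (s' * y) := by ring
        _ ≤ C * r * (2 * w) := by gcongr; linarith
    have c3 : C * x * s' ^ 2 ≤ x / 100 := by
      have d1 : s' ^ 2 ≤ r := by nlinarith
      have d2 : C * r ≤ 1 / 100 := by nlinarith [mul_nonneg hL hr.le, mul_pos hC0 hr]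
      calc C * x * s' ^ 2 ≤ C * x * r := by gcongr
        _ = C * r * x := by ring
        _ ≤ 1 / 100 * x := by gcongr
        _ = x / 100 := by ring
    have c4 : (1 + L) * r * w + C * r * (2 * w) = w / 100 := by linear_combination w * hr1
    have c5 : C * (x + y) * s' ^ 2 = C * x * s' ^ 2 + C * y * s' ^ 2 := by ring
    rw [← hC] at a2
    linarith
  have k2 : ∀ q q' s s', 0 ≤ s → 0 ≤ s' → s ≤ r → s' ≤ r →
      ‖gg φ s q - gg φ s' q'‖ ≤ (‖s • vel q - s' • vel q'‖ + ‖pos q - pos q'‖) / 100 := by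
    intro q q' s s' h0 h0' h1 h1'
    rcases le_total s' s with h2 | h2
    · exact k1 q q' s s' h0' h2 h1
    · rw [norm_sub_rev, norm_sub_rev (s • vel q), norm_sub_rev (pos q)]
      exact k1 q' q s' s h0 h2 h1'
  have k3 : ∀ q s, ∃ p : S3, gg φ s q = gg φ |s| p ∧ s • vel q = |s| • vel p ∧ pos q = pos p := by
    intro q s
    rcases le_total 0 s with h0 | h0
    · exact ⟨q, by rw [abs_of_nonneg h0], by rw [abs_of_nonneg h0], rfl⟩
    · exact ⟨q * uI, by rw [abs_of_nonpos h0, h.gg_rev], by simp [abs_of_nonpos h0, vel_uI],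
        (pos_uI q).symm⟩
  have e : 200 * (r / 200) = r := by ring
  refine ⟨r / 200, h, by positivity, ?_, fun q q' s s' hs hs' => ?_⟩
  · rw [e]; nlinarith [mul_pos hC0 hr]
  · obtain ⟨p, a1, a2, a3⟩ := k3 q s
    obtain ⟨p', b1, b2, b3⟩ := k3 q' s'
    rw [e] at hs hs'
    rw [a1, a2, a3, b1, b2, b3]
    exact k2 _ _ _ _ (abs_nonneg _) (abs_nonneg _) hs hs'

end Pool.Agent.Lib.MP_399f8e_an.Rp
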