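import Pool.Agent.Lib.MP_399f8e_an.Rp.Sh

/-! The minimax argument. -/

open Set Filter Topology Metric MeasureTheory
open scoped RealInnerProductSpace

noncomputable section

namespace Pool.Agent.Lib.MP_399f8e_an.Rp

variable [MeasurableSpace S3] [BorelSpace S3] {μ : Measure S3} [IsProbabilityMeasure μ]
  {lam : S3 → ℝ} {L : ℝ} {φ : ℝ → S3 → S3}

theorem Fl.periodic [μ.IsOpenPosMeasure] (h : Fl lam L φ)
    (hμ : ∀ t, MeasurePreserving (φ t) μ μ) : ∃ q T, 0 < T ∧ φ T q = q := by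
  obtain ⟨u, h⟩ := h.exists_lc
  have hu := h.u0
  have hsm := h.small
  by_contra hcon
  have hnp : ∀ q T, 0 < T → φ T q ≠ q := fun q T a b => hcon ⟨q, T, a, b⟩
  obtain ⟨δ0, d0, co⟩ := h.coer hμ (η := u / 8) (by linarith)
  obtain ⟨N0, hw⟩ := winding hu
  obtain ⟨N1, hN1⟩ := exists_nat_ge (8 * N0 / δ0)
  obtain ⟨N, n0, n1, hN⟩ : ∃ N, N0 ≤ N ∧ N1 ≤ N ∧ 0 < N := ⟨N0 + N1 + 1, by omega, by omega, by omega⟩
  have hN' : (0 : ℝ) < N := Nat.cast_pos.2 hN
  obtain ⟨η, η0, W, ⟨F, F1, F2, F3, F4, F5, F6⟩, hom, cgr, sml⟩ := hw N n0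
  obtain ⟨δ, δp, ga⟩ := h.unif_gain hμ hN hnp (ε := min (η / 2) u) (lt_min (by linarith) hu)
  have hA : ∀ x, Pol N u x → Ld φ u μ N x ≤ N0 → Al φ u x N / N ≤ u / 2 := by
    intro x P hl
    have a1 : Al φ u x N ≤ ∑ i ∈ Finset.range N,
        (u / 4 + 2 * u / δ0 * dm φ u μ (x i) (x (i + 1))) := by
      refine Finset.sum_le_sum fun i hi => ?_
      have hi := Finset.mem_range.1 hi
      have b0 := mul_nonneg (show 0 ≤ 2 * u / δ0 by positivity)
        (d_nonneg (φ := φ) (u := u) (μ := μ) (x i) (x (i + 1)))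
      rcases le_total (u / 8) ‖x i - x (i + 1)‖ with c | c
      · have b1 := mul_le_mul_of_nonneg_left (co _ _ ⟨P.1 i, P.1 (i + 1), by
          linarith [P.2.2 i hi]⟩ c) (show 0 ≤ 2 * u / δ0 by positivity)
        rw [div_mul_cancel₀ _ d0.ne'] at b1
        linarith [h.pl P hi]
      · linarith [h.len_le (h.pn P hi)]
    rw [Finset.sum_add_distrib, ← Finset.mul_sum, Finset.sum_const, Finset.card_range,
      nsmul_eq_mul] at a1
    have a2 := mul_le_mul_of_nonneg_left hl (show 0 ≤ 2 * u / δ0 by positivity)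
    have a3 : (N1 : ℝ) ≤ N := Nat.cast_le.2 n1
    have a4 : 2 * u / δ0 * N0 = u / 4 * (8 * N0 / δ0) := by ring
    have a5 := mul_le_mul_of_nonneg_left (hN1.trans a3) (show 0 ≤ u / 4 by linarith)
    rw [div_le_iff₀ hN']
    simp only [Ld] at a2
    linarith
  have mono : ∀ x, Pol N u x → Ld φ u μ N x ≤ N0 → Pol N u (Stp φ u N x) ∧
      Ld φ u μ N (Stp φ u N x) ≤ Ld φ u μ N x := fun x P hl =>
    ⟨h.Md_pol (h.rs_pol P hN (hA x P hl)) hN (by norm_num) (by norm_num),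
      (h.mid_mono hμ (h.rs_pol P hN (hA x P hl)) hN).trans (h.res_mono hμ P hN (hA x P hl))⟩
  have capS : ∀ x, Pol N u x → Ld φ u μ N x ≤ N0 → ∀ c ∈ S2, ∀ ε ≤ u, Cap N c ε x →
      Cap N c ε (Stp φ u N x) := fun x P hl c hc ε hε C =>
    h.Md_cap ((h.rs_pol P hN (hA x P hl)).mono (by linarith)) hN hc hε (h.Rs_cap P hc hε C 1) _
  let cl : ℝ → ℝ := fun τ => max 0 (min τ 1)
  have cl0 : cl 0 = 0 := by simp [cl]
  have cl1 : cl 1 = 1 := by simp [cl]
  have cla : ∀ τ, 0 ≤ cl τ := fun τ => le_max_left _ _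
  have clb : ∀ τ, cl τ ≤ 1 := fun τ => max_le zero_le_one (min_le_right _ _)
  have clc : Continuous fun p : ℝ × ℝ => cl p.1 := by fun_prop
  have step : ∀ G : ℝ → ℕ → H, (∀ i, Continuous fun s => G s i) → (∀ s, Pol N u (G s)) →
      (∀ s, Ld φ u μ N (G s) ≤ N0) → Cst N (G 0) → Cst N (G 1) → W G →
      W fun s => Stp φ u N (G s) := by
    intro G G1 G2 G3 G4 G5 G6
    have Py := fun s => h.rs_pol (G2 s) hN (hA _ (G2 s) (G3 s))
    have Py' := fun s => (Py s).mono (show u / 2 ≤ u by linarith)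
    have cr : ∀ s τ, Cst N (G s) → Cst N (Rs φ u N τ (G s)) := fun s τ a =>
      (h.Rs_cap (G2 s) ((G2 s).1 0) hu.le a.cap τ).cst
    have w1 := hom (fun τ s => Rs φ u N (cl τ) (G s))
      (h.Rs_cont (fun i => (G1 i).comp continuous_snd) (fun p => G2 p.2) clc)
      (fun τ s => h.Rs_pol (G2 s) hN (cla τ) (clb τ) (by
        nlinarith [cla τ, clb τ, hA _ (G2 s) (G3 s)]))
      (fun τ => ⟨cr 0 _ G4, cr 1 _ G5⟩)
      (cgr G _ (fun s i hi => by rw [cl0, h.Rs_zero (G2 s) hi]) G6)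
    rw [cl1] at w1
    have cm : ∀ s τ, Cst N (G s) → Cst N (Md φ u N τ (Rs φ u N 1 (G s))) := fun s τ a =>
      (h.Md_cap (Py' s) hN ((Py s).1 0) hu.le (cr s 1 a).cap τ).cst
    have w2 := hom (fun τ s => Md φ u N (cl τ / 2) (Rs φ u N 1 (G s)))
      (h.Md_cont (fun i => (h.Rs_cont G1 G2 continuous_const i).comp continuous_snd)
        (fun p => Py' p.2) hN (clc.div_const 2))
      (fun τ s => (h.Md_pol (Py s) hN (by linarith [cla τ]) (by linarith [clb τ])).mono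
        (by linarith))
      (fun τ => ⟨cm 0 _ G4, cm 1 _ G5⟩)
      (cgr _ _ (fun s i hi => by rw [cl0, zero_div, h.Md_zero (Py' s) hN hi]) w1)
    rw [cl1] at w2
    exact w2
  have L0 : ∀ s, Ld φ u μ N (F s) ≤ N0 := fun s => by
    rw [Ld, ← Finset.sum_range_add_sum_Ico _ n0, Finset.sum_eq_zero (s := Finset.Ico N0 N)
      fun i hi => by rw [F3 s i (Finset.mem_Ico.1 hi).1, d_self], add_zero]
    simpa using Finset.sum_le_card_nsmul (Finset.range N0) _ 1 fun i _ =>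
      d_le_one (φ := φ) (u := u) (μ := μ) (F s i) (F s (i + 1))
  have iter : ∀ n : ℕ, ∃ G : ℝ → ℕ → H, (∀ i, Continuous fun s => G s i) ∧ (∀ s, Pol N u (G s)) ∧
      (∀ s, Ld φ u μ N (G s) ≤ N0) ∧ Cst N (G 0) ∧ Cst N (G 1) ∧ W G ∧
      ∀ s, (∃ c ∈ S2, Cap N c (min (η / 2) u) (G s)) ∨ Ld φ u μ N (G s) ≤ N0 - n * δ := by
    intro n
    induction n with
    | zero => exact ⟨F, F1, F2, L0, F4, F5, F6, fun s => Or.inr (by simpa using L0 s)⟩
    | succ n ih =>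
      obtain ⟨G, G1, G2, G3, G4, G5, G6, G7⟩ := ih
      have cs : ∀ s, Cst N (G s) → Cst N (Stp φ u N (G s)) := fun s a =>
        (capS _ (G2 s) (G3 s) _ ((G2 s).1 0) 0 hu.le a.cap).cst
      refine ⟨fun s => Stp φ u N (G s), h.Md_cont (h.Rs_cont G1 G2 continuous_const)
        (fun s => (h.rs_pol (G2 s) hN (hA _ (G2 s) (G3 s))).mono (by linarith)) hN
        continuous_const, fun s => (mono _ (G2 s) (G3 s)).1,
        fun s => (mono _ (G2 s) (G3 s)).2.trans (G3 s), cs 0 G4, cs 1 G5,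
        step G G1 G2 G3 G4 G5 G6, fun s => ?_⟩
      rcases G7 s with ⟨c, hc, C⟩ | G7
      · exact Or.inl ⟨c, hc, capS _ (G2 s) (G3 s) c hc _ (min_le_right _ _) C⟩
      rcases le_total (Al φ u (G s) N) (min (η / 2) u) with a | a
      · exact Or.inl ⟨_, (G2 s).1 0, capS _ (G2 s) (G3 s) _ ((G2 s).1 0) _ (min_le_right _ _)
          (h.cap_of_A (G2 s) a)⟩
      · right
        have := ga _ (G2 s) a (hA _ (G2 s) (G3 s))
        push_cast
        linarith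
  obtain ⟨n, hn⟩ := exists_nat_gt (N0 / δ)
  rw [div_lt_iff₀ δp] at hn
  obtain ⟨G, G1, G2, -, G4, G5, G6, G7⟩ := iter n
  refine sml G G1 (fun s => ⟨(G2 s).1, (G2 s).2.1, fun i hi => ?_⟩) G4 G5 G6
  rcases G7 s with ⟨c, -, C⟩ | G7
  · have a1 := norm_sub_le_norm_sub_add_norm_sub (G s i) c (G s (i + 1))
    rw [norm_sub_rev c] at a1
    linarith [C i hi.le, C (i + 1) hi, min_le_left (η / 2) u]
  · have : 0 ≤ Ld φ u μ N (G s) := Finset.sum_nonneg fun _ _ => d_nonneg _ _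
    linarith

end Pool.Agent.Lib.MP_399f8e_an.Rp
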