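import Pool.Agent.Lib.MP_399f8e_an.Rp.Fl

/-! Existence of invariant measures, and the reversed frame. -/

open Set Filter Topology Metric MeasureTheory
open scoped RealInnerProductSpace

noncomputable section

namespace Pool.Agent.Lib.MP_399f8e_an.Rp

/-- Krylov-Bogolyubov for a sequence of orbit segments in a compact set. -/
theorem exists_limit {Y : Type} [TopologicalSpace Y] [T2Space Y] [HasOuterApproxClosed Y]
    [MeasurableSpace Y] [BorelSpace Y] {Φ : ℝ → Y → Y}
    (hc : Continuous fun q : ℝ × Y => Φ q.1 q.2)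
    (hadd : ∀ s t z, Φ s (Φ t z) = Φ (t + s) z) {K : Set Y} (hK : IsCompact K)
    {T : ℕ → ℝ} (hT : Tendsto T atTop atTop) (hT0 : ∀ m, 0 < T m) {z : ℕ → Y}
    (hz : ∀ m, ∀ t ∈ Set.Icc 0 (T m), Φ t (z m) ∈ K) :
    ∃ (μ : Measure Y) (U : Ultrafilter ℕ), IsProbabilityMeasure μ ∧ μ Kᶜ = 0 ∧
      (∀ s, MeasurePreserving (Φ s) μ μ) ∧ (U : Filter ℕ) ≤ atTop ∧
      ∀ g : Y → ℝ, Continuous g →
        Tendsto (fun m => (T m)⁻¹ * ∫ t in (0 : ℝ)..T m, g (Φ t (z m))) U (𝓝 (∫ q, g q ∂μ)) := by
  have : CompactSpace K := isCompact_iff_compactSpace.1 hK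
  have hP : IsProbabilityMeasure ((volume : Measure ℝ).restrict (Set.Ioc 0 1)) := ⟨by simp⟩
  let o : ℕ → ℝ → K := fun m u => ⟨Φ (T m * (Set.projIcc 0 1 zero_le_one u : ℝ)) (z m),
    hz m _ ⟨mul_nonneg (hT0 m).le (Set.projIcc 0 1 zero_le_one u).2.1,
      mul_le_of_le_one_right (hT0 m).le (Set.projIcc 0 1 zero_le_one u).2.2⟩⟩
  have hm : ∀ m, Continuous (o m) := fun m =>
    (hc.comp ((continuous_const.mul (continuous_subtype_val.comp continuous_projIcc)).prodMk
      continuous_const)).subtype_mk _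
  let ν : ℕ → ProbabilityMeasure K := fun m =>
    ⟨((volume : Measure ℝ).restrict (Set.Ioc 0 1)).map (o m),
      Measure.isProbabilityMeasure_map (hm m).measurable.aemeasurable⟩
  let U : Ultrafilter ℕ := Ultrafilter.of atTop
  have hU : (U : Filter ℕ) ≤ atTop := Ultrafilter.of_le _
  obtain ⟨μ, -, hμ⟩ := isCompact_univ.ultrafilter_le_nhds (U.map ν) (by simp)
  have hlim : Tendsto ν U (𝓝 μ) := hμ
  have hv : Measurable (Subtype.val : K → Y) := continuous_subtype_val.measurable
  have key : ∀ g : Y → ℝ, Continuous g →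
      Tendsto (fun m => (T m)⁻¹ * ∫ t in (0 : ℝ)..T m, g (Φ t (z m))) U
        (𝓝 (∫ q, g q ∂((μ : Measure K).map Subtype.val))) := by
    intro g hg
    have hg' : Continuous fun q : K => g q := hg.comp continuous_subtype_val
    have h1 := ProbabilityMeasure.tendsto_iff_forall_integral_tendsto.1 hlim
      (BoundedContinuousFunction.mkOfCompact ⟨_, hg'⟩)
    rw [integral_map hv.aemeasurable hg.aestronglyMeasurable]
    refine h1.congr fun m => ?_
    have h2 : ∫ q : K, g q ∂(ν m : Measure K) = ∫ u in (0 : ℝ)..1, g (Φ (T m * u) (z m)) := by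
      rw [intervalIntegral.integral_of_le zero_le_one]
      refine (integral_map (hm m).measurable.aemeasurable hg'.aestronglyMeasurable).trans ?_
      refine setIntegral_congr_fun measurableSet_Ioc fun u hu => ?_
      simp only [o, Set.projIcc_of_mem zero_le_one (Set.Ioc_subset_Icc_self hu)]
    have h3 := intervalIntegral.integral_comp_mul_left (a := 0) (b := 1)
      (fun t => g (Φ t (z m))) (hT0 m).ne'
    simp only [mul_zero, mul_one, smul_eq_mul] at h3
    rw [← h3, ← h2]
    rfl
  have hprob : IsProbabilityMeasure ((μ : Measure K).map Subtype.val) :=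
    Measure.isProbabilityMeasure_map hv.aemeasurable
  refine ⟨(μ : Measure K).map Subtype.val, U, hprob, ?_, fun s => ?_, hU, key⟩
  · rw [Measure.map_apply hv hK.isClosed.measurableSet.compl]
    simp
  · have hs : Continuous (Φ s) := hc.comp (continuous_const.prodMk continuous_id)
    refine ⟨hs.measurable, ?_⟩
    refine ext_of_forall_integral_eq_of_IsFiniteMeasure fun f => ?_
    rw [integral_map hs.measurable.aemeasurable f.continuous.aestronglyMeasurable]
    have l1 := (key _ (f.continuous.comp hs)).sub (key _ f.continuous)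
    have h0 : Tendsto (fun m => (T m)⁻¹ * (2 * (‖f‖ * |s|))) atTop (𝓝 0) := by
      simpa using (tendsto_inv_atTop_zero.comp hT).mul_const (2 * (‖f‖ * |s|))
    have l2 : Tendsto (fun m => (T m)⁻¹ * (∫ t in (0 : ℝ)..T m, (f ∘ Φ s) (Φ t (z m))) -
        (T m)⁻¹ * ∫ t in (0 : ℝ)..T m, f (Φ t (z m))) atTop (𝓝 0) := by
      refine squeeze_zero_norm (fun m => ?_) h0
      rw [← mul_sub, norm_mul, Real.norm_of_nonneg (inv_nonneg.2 (hT0 m).le)]
      refine mul_le_mul_of_nonneg_left ?_ (inv_nonneg.2 (hT0 m).le)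
      have hF : Continuous fun t => f (Φ t (z m)) :=
        f.continuous.comp (hc.comp (continuous_id.prodMk continuous_const))
      have e1 : ∫ t in (0 : ℝ)..T m, (f ∘ Φ s) (Φ t (z m)) =
          ∫ t in s..(T m + s), f (Φ t (z m)) := by
        have := intervalIntegral.integral_comp_add_right (a := 0) (b := T m)
          (fun t => f (Φ t (z m))) s
        simp only [zero_add] at this
        rw [← this]
        simp only [Function.comp_apply, hadd]
      have e2 := intervalIntegral.integral_add_adjacent_intervals (μ := volume)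
        (hF.intervalIntegrable 0 s) (hF.intervalIntegrable s (T m + s))
      have e3 := intervalIntegral.integral_add_adjacent_intervals (μ := volume)
        (hF.intervalIntegrable 0 (T m)) (hF.intervalIntegrable (T m) (T m + s))
      have b1 : ‖∫ t in (0 : ℝ)..s, f (Φ t (z m))‖ ≤ ‖f‖ * |s - 0| :=
        intervalIntegral.norm_integral_le_of_norm_le_const fun t _ => f.norm_coe_le_norm _
      have b2 : ‖∫ t in (T m)..(T m + s), f (Φ t (z m))‖ ≤ ‖f‖ * |T m + s - T m| :=
        intervalIntegral.norm_integral_le_of_norm_le_const fun t _ => f.norm_coe_le_norm _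
      rw [sub_zero, Real.norm_eq_abs] at b1
      rw [add_sub_cancel_left, Real.norm_eq_abs] at b2
      rw [e1, Real.norm_eq_abs, abs_le]
      constructor <;> linarith [abs_le.1 b1, abs_le.1 b2]
    exact sub_eq_zero.1 (tendsto_nhds_unique l1 (l2.mono_left hU))

variable {lam : S3 → ℝ} {L : ℝ} {φ : ℝ → S3 → S3}

/-- the reversed frame is never on the orbit -/
theorem Fl.ne_rev (h : Fl lam L φ) (q : S3) (s : ℝ) : φ s q ≠ q * uI := by
  intro hs
  have e1 : φ (s / 2) q = φ (s / 2) q * uI := by
    have e2 := h.rev (-(s / 2)) q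
    rw [neg_neg, ← hs, ← h.add] at e2
    rw [← e2]; congr 1; ring
  have e3 := vel_uI (φ (s / 2) q)
  rw [← e1] at e3
  have e4 := in_vv (φ (s / 2) q)
  nth_rewrite 1 [e3] at e4
  rw [inner_neg_left, in_vv] at e4
  norm_num at e4

end Pool.Agent.Lib.MP_399f8e_an.Rp
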