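import Pool.Agent.Lib.MP_399f8e_an.Rp.Q

/-! The winding invariant of sweep-outs of the two-sphere by closed polygons. -/

open Set Filter Topology Metric
open scoped RealInnerProductSpace

noncomputable section

namespace Pool.Agent.Lib.MP_399f8e_an.Rp

/-- closed chains `x 0, ..., x N = x 0` on the two-sphere with sides at most `ρ` -/
def Pol (N : ℕ) (ρ : ℝ) (x : ℕ → H) : Prop :=
  (∀ i, x i ∈ S2) ∧ x N = x 0 ∧ ∀ i < N, ‖x i - x (i + 1)‖ ≤ ρ

/-- constant chains -/
def Cst (N : ℕ) (x : ℕ → H) : Prop := ∀ i ≤ N, x i = x 0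

namespace Wd

/-- the transport from `x` to `y` -/
def rho (x y : H) : H := (1 / 2 : ℝ) • (1 - y * x)

/-- the transport along a chain -/
def tr (x : ℕ → H) : ℕ → H
  | 0 => 1
  | k + 1 => rho (x k) (x (k + 1)) * tr x k

/-- the holonomy as a complex number -/
def hol (N : ℕ) (x : ℕ → H) : ℂ :=
  ((tr x N).re : ℂ) - (((tr x N * x 0).re : ℝ) : ℂ) * Complex.I

theorem rho_self {x : H} (hx : x ∈ S2) : rho x x = 1 := by
  rw [rho, sq_S2 hx]; ext <;> simp; norm_num

theorem rho_comm {x y : H} (hx : x ∈ S2) (hy : y ∈ S2) : y * rho x y = rho x y * x := by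
  rw [rho, mul_smul_comm, smul_mul_assoc, mul_sub, sub_mul, ← mul_assoc, sq_S2 hy, mul_assoc,
    sq_S2 hx]
  simp [add_comm]

theorem rho_norm {x y : H} (hy : y ∈ S2) : ‖rho x y - 1‖ = ‖x - y‖ / 2 := by
  have e : rho x y - 1 = (-(1 / 2) : ℝ) • (y * (x - y)) := by
    rw [rho, mul_sub, sq_S2 hy]; ext <;> simp <;> ring
  rw [e, norm_smul, norm_mul, hy.2]
  norm_num
  ring

theorem tr_congr {x y : ℕ → H} : ∀ k, (∀ i ≤ k, x i = y i) → tr x k = tr y k
  | 0, _ => rfl
  | k + 1, h => by
    rw [tr, tr, tr_congr k fun i hi => h i (by omega), h k (by omega), h (k + 1) le_rfl]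

theorem hol_congr {N : ℕ} {x y : ℕ → H} (h : ∀ i ≤ N, x i = y i) : hol N x = hol N y := by
  rw [hol, hol, tr_congr N h, h 0 (Nat.zero_le _)]

theorem tr_comm {x : ℕ → H} (hx : ∀ i, x i ∈ S2) : ∀ k, x k * tr x k = tr x k * x 0
  | 0 => by simp [tr]
  | k + 1 => by
    rw [tr, ← mul_assoc, rho_comm (hx k) (hx (k + 1)), mul_assoc, tr_comm hx k, mul_assoc]

theorem tr_ne {N : ℕ} {x : ℕ → H} (hx : Pol N 1 x) : ∀ k ≤ N, tr x k ≠ 0
  | 0, _ => one_ne_zero
  | k + 1, h => by
    refine mul_ne_zero (fun h0 => ?_) (tr_ne hx k (by omega))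
    have h1 := rho_norm (x := x k) (hx.1 (k + 1))
    have h2 := hx.2.2 k (by omega)
    rw [h0, zero_sub, norm_neg, norm_one] at h1
    linarith

theorem hol_ne {N : ℕ} {x : ℕ → H} (hx : Pol N 1 x) : hol N x ≠ 0 := by
  intro h
  have h1 : (tr x N).re = 0 := by simpa [hol] using congrArg Complex.re h
  have h2 : (tr x N * x 0).re = 0 := by
    have := congrArg Complex.im h
    simp only [hol, Complex.sub_im, Complex.ofReal_im, Complex.mul_im, Complex.ofReal_re,
      Complex.I_im, Complex.I_re, Complex.zero_im] at this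
    linarith
  have h3 := tr_comm hx.1 N
  rw [hx.2.1] at h3
  have h4 := (hx.1 0).1
  have h5 : x 0 * tr x N + tr x N * x 0 = 0 := by
    simp only [Quaternion.re_mul, h1, h4] at h2
    have z1 : (0 : H).re = 0 := rfl
    have z2 : (0 : H).imI = 0 := rfl
    have z3 : (0 : H).imJ = 0 := rfl
    have z4 : (0 : H).imK = 0 := rfl
    ext <;> simp [h1, h4, z1, z2, z3, z4] <;> linarith
  have h6 : tr x N * x 0 = 0 := by
    rw [h3, ← two_smul ℝ] at h5
    exact (smul_eq_zero.1 h5).resolve_left two_ne_zero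
  rcases mul_eq_zero.1 h6 with h7 | h7
  · exact tr_ne hx N le_rfl h7
  · have := (hx.1 0).2
    rw [h7, norm_zero] at this
    exact zero_ne_one this

theorem tr_cst {N : ℕ} {x : ℕ → H} (h0 : x 0 ∈ S2) (h : Cst N x) : ∀ k ≤ N, tr x k = 1
  | 0, _ => rfl
  | k + 1, hk => by
    rw [tr, tr_cst h0 h k (by omega), h k (by omega), h (k + 1) hk, rho_self h0, one_mul]

theorem hol_cst {N : ℕ} {x : ℕ → H} (h0 : x 0 ∈ S2) (h : Cst N x) : hol N x = 1 := by
  rw [hol, tr_cst h0 h N le_rfl, one_mul, h0.1]; simp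

theorem tr_cont {Y : Type} [TopologicalSpace Y] {G : Y → ℕ → H}
    (hG : ∀ i, Continuous fun p => G p i) : ∀ k, Continuous fun p => tr (G p) k
  | 0 => continuous_const
  | k + 1 => by
    have h1 := hG k
    have h2 := hG (k + 1)
    have h3 := tr_cont hG k
    simp only [tr, rho]
    fun_prop

theorem hol_cont {Y : Type} [TopologicalSpace Y] {G : Y → ℕ → H}
    (hG : ∀ i, Continuous fun p => G p i) (N : ℕ) : Continuous fun p => hol N (G p) :=
  (Complex.continuous_ofReal.comp (Quaternion.continuous_re.comp (tr_cont hG N))).sub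
    ((Complex.continuous_ofReal.comp (Quaternion.continuous_re.comp
      ((tr_cont hG N).mul (hG 0)))).mul continuous_const)

theorem tr_small {N : ℕ} {η : ℝ} {x : ℕ → H} (hx : Pol N η x) (h0 : 0 ≤ η) (hη : N * η ≤ 1) :
    ∀ k ≤ N, ‖tr x k - 1‖ ≤ k * η
  | 0, _ => by simp [tr]
  | k + 1, hk => by
    have h1 := tr_small hx h0 hη k (by omega)
    have h2 := rho_norm (x := x k) (hx.1 (k + 1))
    have h3 := hx.2.2 k (by omega)
    have h4 : (k : ℝ) * η ≤ N * η :=
      mul_le_mul_of_nonneg_right (by exact_mod_cast (by omega : k ≤ N)) h0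
    have h5 : ‖tr x k‖ ≤ 2 := by
      have := norm_add_le (tr x k - 1) 1
      rw [sub_add_cancel, norm_one] at this
      linarith
    have e : tr x (k + 1) - 1 = (rho (x k) (x (k + 1)) - 1) * tr x k + (tr x k - 1) := by
      rw [tr, sub_mul, one_mul]; abel
    rw [e]
    refine (norm_add_le _ _).trans ?_
    rw [norm_mul, h2]
    push_cast
    nlinarith [norm_nonneg (x k - x (k + 1)), norm_nonneg (tr x k)]

theorem const_of_exp {f : ℝ → ℂ} (hf : Continuous f) (h : ∀ t, Complex.exp (f t) = 1) (a b : ℝ) :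
    f a = f b :=
  Complex.isCoveringMap_exp.const_of_comp hf (fun s t => Subtype.ext (by simp [h])) a b

theorem exists_log {g : ℝ × ℝ → ℂ} (hg : Continuous g) (h0 : ∀ p, g p ≠ 0) :
    ∃ L : ℝ × ℝ → ℂ, Continuous L ∧ ∀ p, Complex.exp (L p) = g p := by
  obtain ⟨L, ⟨-, hL⟩, -⟩ := Complex.isCoveringMap_exp.existsUnique_continuousMap_lifts
    (⟨fun p => ⟨g p, h0 p⟩, hg.subtype_mk _⟩ : C(ℝ × ℝ, {z : ℂ // z ≠ 0})) 0
    (Complex.log (g 0)) (Subtype.ext (Complex.exp_log (h0 0)))
  exact ⟨L, L.continuous, fun p => congrArg Subtype.val (congrFun hL p)⟩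

/-- a complex number in the plane spanned by `1` and `x` -/
def emb (x : H) (z : ℂ) : H := (z.re : H) + z.im • x

theorem emb_mul {x : H} (hx : x ∈ S2) (z w : ℂ) : emb x z * emb x w = emb x (z * w) := by
  have h := norm_sq' x
  rw [hx.2, hx.1] at h
  ext <;> simp [emb, hx.1]
  · linear_combination (z.im * w.im) * h
  all_goals ring

/-- powers of the elementary rotation -/
def wk (α : ℝ) (k : ℕ) : H := cq (Real.cos (k * α)) (Real.sin (k * α))

/-- the meridian -/
def mer (s : ℝ) : H := Real.cos (Real.pi * s) • qi + Real.sin (Real.pi * s) • qj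

/-- points on the latitude circles -/
def lat (α s : ℝ) (k : ℕ) : H := wk α k * mer s * star (wk α k)

theorem wk_succ (α : ℝ) (k : ℕ) : wk α (k + 1) = wk α k * wk α 1 := by
  ext <;> simp [wk, cq, add_mul, Real.cos_add, Real.sin_add]
  ring

theorem wk_norm (α : ℝ) (k : ℕ) : ‖wk α k‖ = 1 := norm_one_of (by simp [wk, cq])

theorem wk_star (α : ℝ) (k : ℕ) : star (wk α k) * wk α k = 1 := by
  rw [Quaternion.star_mul_self, Quaternion.normSq_eq_norm_mul_self, wk_norm]; simp

theorem wk_star' (α : ℝ) (k : ℕ) : wk α k * star (wk α k) = 1 := by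
  rw [Quaternion.self_mul_star, Quaternion.normSq_eq_norm_mul_self, wk_norm]; simp

theorem mer_mem (s : ℝ) : mer s ∈ S2 :=
  ⟨by simp [mer, qi, qj], norm_one_of (by simp [mer, qi, qj])⟩

theorem lat_mem (α s : ℝ) (k : ℕ) : lat α s k ∈ S2 := by
  refine ⟨?_, by rw [lat, norm_mul, norm_mul, norm_star, wk_norm, (mer_mem s).2]; norm_num⟩
  rw [lat, re_comm, ← mul_assoc, wk_star, one_mul, (mer_mem s).1]

theorem lat_zero (α s : ℝ) : lat α s 0 = mer s := by
  have : wk α 0 = 1 := by ext <;> simp [wk, cq]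
  rw [lat, this]; simp

theorem lat_side (α s : ℝ) (k : ℕ) : ‖lat α s k - lat α s (k + 1)‖ ≤ 2 * |α| := by
  have e : lat α s k - lat α s (k + 1) = wk α k *
      (mer s * (wk α 1 - 1) - (wk α 1 - 1) * mer s) * star (wk α 1) * star (wk α k) := by
    have h1 : (mer s * (wk α 1 - 1) - (wk α 1 - 1) * mer s) * star (wk α 1)
        = mer s - wk α 1 * mer s * star (wk α 1) := by
      have : mer s * (wk α 1 - 1) - (wk α 1 - 1) * mer s = mer s * wk α 1 - wk α 1 * mer s := by
        noncomm_ring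
      rw [this, sub_mul, mul_assoc (mer s), wk_star', mul_one]
    rw [mul_assoc (wk α k), h1, lat, lat, wk_succ, star_mul]
    noncomm_ring
  have h1 : ‖wk α 1 - 1‖ ≤ |α| := by
    refine (sq_le_sq₀ (norm_nonneg _) (abs_nonneg _)).1 ?_
    rw [norm_sq', sq_abs]
    simp [wk, cq]
    nlinarith [Real.one_sub_sq_div_two_le_cos (x := α), Real.cos_sq_add_sin_sq α]
  rw [e, norm_mul, norm_mul, norm_mul, norm_star, norm_star, wk_norm, wk_norm]
  have h2 := norm_sub_le (mer s * (wk α 1 - 1)) ((wk α 1 - 1) * mer s)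
  rw [norm_mul, norm_mul, (mer_mem s).2] at h2
  linarith

/-- the holonomy of one side -/
def zt (α s : ℝ) : ℂ := ⟨Real.cos α, -(Real.sin α * Real.cos (Real.pi * s))⟩

theorem rho_lat (α s : ℝ) (k : ℕ) :
    rho (lat α s k) (lat α s (k + 1)) * wk α k = wk α (k + 1) * emb (mer s) (zt α s) := by
  have h1 : (1 / 2 : ℝ) • (star (wk α 1) - mer s * star (wk α 1) * mer s)
      = emb (mer s) (zt α s) := by
    have h := Real.cos_sq_add_sin_sq (Real.pi * s)
    ext <;> simp [emb, zt, mer, wk, cq, qi, qj]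
    · linear_combination (1 / 2 * Real.cos α) * h
    · linear_combination (1 / 2 * Real.sin α) * h
    · ring
    · ring
  have h2 : lat α s (k + 1) * lat α s k * wk α k
      = wk α k * wk α 1 * (mer s * star (wk α 1) * mer s) := by
    calc lat α s (k + 1) * lat α s k * wk α k
        = wk α k * wk α 1 * mer s * star (wk α 1) * (star (wk α k) * wk α k) * mer s
          * (star (wk α k) * wk α k) := by
          rw [lat, lat, wk_succ, star_mul]; simp only [mul_assoc]
      _ = _ := by rw [wk_star]; simp only [mul_one, mul_assoc]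
  rw [← h1, rho, smul_mul_assoc, sub_mul, one_mul, h2, wk_succ α k, mul_smul_comm, mul_sub,
    mul_assoc (wk α k) (wk α 1) (star _), wk_star', mul_one]

theorem tr_lat (α s : ℝ) : ∀ k, tr (lat α s) k = wk α k * emb (mer s) (zt α s ^ k)
  | 0 => by ext <;> simp [tr, wk, cq, emb]
  | k + 1 => by
    rw [tr, tr_lat α s k, ← mul_assoc, rho_lat, mul_assoc, emb_mul (mer_mem s), pow_succ']

theorem tr_stop {x : ℕ → H} (hx : ∀ i, x i ∈ S2) {M : ℕ} (h : ∀ i, M ≤ i → x (i + 1) = x i) :
    ∀ k, tr x (M + k) = tr x M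
  | 0 => rfl
  | k + 1 => by
    rw [← add_assoc, tr, h _ (by omega), rho_self (hx _), one_mul, tr_stop hx h k]

theorem lat_pole (α : ℝ) {s : ℝ} (hs : Real.sin (Real.pi * s) = 0) (k : ℕ) :
    lat α s k = mer s := by
  have e : wk α k * mer s = mer s * wk α k := by
    ext <;> simp [wk, cq, mer, hs, qi, qj]
  rw [lat, e, mul_assoc, wk_star', mul_one]

theorem zt_cont (α : ℝ) : Continuous (zt α) := by
  have : zt α = fun s => (Real.cos α : ℂ)
      - ((Real.sin α * Real.cos (Real.pi * s) : ℝ) : ℂ) * Complex.I := by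
    funext s
    apply Complex.ext
    · simp only [zt, Complex.sub_re, Complex.ofReal_re, Complex.mul_re, Complex.I_re,
        Complex.ofReal_im, Complex.I_im]; ring
    · simp only [zt, Complex.sub_im, Complex.ofReal_re, Complex.mul_im, Complex.I_re,
        Complex.ofReal_im, Complex.I_im]; ring
  rw [this]; fun_prop

theorem hol_lat {α : ℝ} {M : ℕ} (hw : wk α M = -1) (s : ℝ) (k : ℕ) :
    hol (M + k) (fun i => lat α s (min i M)) = -zt α s ^ M := by
  have h0 : tr (fun i => lat α s (min i M)) (M + k) = tr (fun i => lat α s (min i M)) M :=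
    tr_stop (x := fun i => lat α s (min i M)) (fun i => lat_mem α s (min i M))
      (fun i hi => by
        show lat α s (min (i + 1) M) = lat α s (min i M)
        rw [min_eq_right hi, min_eq_right (by omega)]) k
  have h0' : tr (fun i => lat α s (min i M)) M = tr (lat α s) M :=
    tr_congr M fun i hi => by
      show lat α s (min i M) = lat α s i
      rw [min_eq_left hi]
  have h1 : tr (fun i => lat α s (min i M)) (M + k) = -emb (mer s) (zt α s ^ M) := by
    rw [h0, h0', tr_lat, hw, neg_one_mul]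
  have h2 : emb (mer s) (zt α s ^ M) * mer s = emb (mer s) (zt α s ^ M * Complex.I) := by
    rw [← emb_mul (mer_mem s)]; simp [emb]
  have h3 : ∀ z, (emb (mer s) z).re = z.re := fun z => by simp [emb, (mer_mem s).1]
  rw [hol, h1]
  simp only [Nat.zero_min, lat_zero]
  rw [neg_mul, h2, Quaternion.re_neg, Quaternion.re_neg, h3, h3]
  generalize zt α s ^ M = z
  apply Complex.ext <;> simp

end Wd

open Wd in
theorem winding {ε : ℝ} (hε : 0 < ε) : ∃ N0 : ℕ, ∀ N, N0 ≤ N → ∃ η : ℝ, 0 < η ∧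
    ∃ W : (ℝ → ℕ → H) → Prop,
      (∃ F : ℝ → ℕ → H, (∀ i, Continuous fun s => F s i) ∧ (∀ s, Pol N ε (F s)) ∧
        (∀ s i, N0 ≤ i → F s (i + 1) = F s i) ∧ Cst N (F 0) ∧ Cst N (F 1) ∧ W F) ∧
      (∀ G : ℝ → ℝ → ℕ → H, (∀ i, Continuous fun p : ℝ × ℝ => G p.1 p.2 i) →
        (∀ τ s, Pol N 1 (G τ s)) → (∀ τ, Cst N (G τ 0) ∧ Cst N (G τ 1)) → W (G 0) → W (G 1)) ∧
      (∀ F F' : ℝ → ℕ → H, (∀ s, ∀ i ≤ N, F s i = F' s i) → W F → W F') ∧
      (∀ F : ℝ → ℕ → H, (∀ i, Continuous fun s => F s i) → (∀ s, Pol N η (F s)) →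
        Cst N (F 0) → Cst N (F 1) → ¬ W F) := by
  obtain ⟨M, hM⟩ := exists_nat_ge (max 3 (2 * Real.pi / ε))
  have hM3 : (3 : ℝ) ≤ M := (le_max_left _ _).trans hM
  have hMε : 2 * Real.pi / ε ≤ M := (le_max_right _ _).trans hM
  have hM0 : (0 : ℝ) < M := by linarith
  have hpi := Real.pi_pos
  refine ⟨M, fun N hN => ⟨1 / (N + 1), by positivity,
    fun F => ∃ l : ℝ → ℂ, Continuous l ∧ (∀ s, Complex.exp (l s) = hol N (F s)) ∧ l 1 ≠ l 0,
    ?_, ?_, ?_, ?_⟩⟩
  · obtain ⟨α, hα⟩ : ∃ α : ℝ, α = Real.pi / M := ⟨_, rfl⟩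
    have hα0 : 0 < α := by rw [hα]; positivity
    have hαM : (M : ℝ) * α = Real.pi := by rw [hα]; field_simp
    have hα2 : α < Real.pi / 2 := by nlinarith
    have hC : 0 < Real.cos α := Real.cos_pos_of_mem_Ioo ⟨by linarith, hα2⟩
    have hS : 0 < Real.sin α := Real.sin_pos_of_pos_of_lt_pi hα0 (by linarith)
    have hw : wk α M = -1 := by ext <;> simp [wk, cq, hαM]
    have hstop : ∀ s i, M ≤ i → lat α s (min (i + 1) M) = lat α s (min i M) := fun s i hi => by
      rw [min_eq_right hi, min_eq_right (by omega)]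
    have hcst : ∀ s, Real.sin (Real.pi * s) = 0 → Cst N fun i => lat α s (min i M) :=
      fun s hs i _ => (lat_pole α hs _).trans (lat_pole α hs _).symm
    have hz : ∀ s, zt α s ∈ Complex.slitPlane := fun s => Or.inl hC
    refine ⟨fun s i => lat α s (min i M), fun i => ?_, fun s => ⟨fun i => lat_mem _ _ _, ?_, ?_⟩,
      hstop, hcst 0 (by simp), hcst 1 (by simp),
      fun s => Real.pi * Complex.I + M * Complex.log (zt α s), ?_, fun s => ?_, fun h => ?_⟩
    · simp only [lat, mer]; fun_prop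
    · show lat α s (min N M) = lat α s (min 0 M)
      rw [min_eq_right hN, Nat.zero_min, lat_zero, lat, hw]; simp
    · intro i _
      show ‖lat α s (min i M) - lat α s (min (i + 1) M)‖ ≤ ε
      rcases le_or_gt M i with h | h
      · rw [hstop s i h, sub_self, norm_zero]; exact hε.le
      · rw [min_eq_left h.le, min_eq_left (by omega)]
        refine (lat_side α s i).trans ?_
        rw [abs_of_pos hα0]
        rw [div_le_iff₀ hε] at hMε
        nlinarith
    · exact continuous_const.add (continuous_const.mul ((zt_cont α).clog hz))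
    · obtain ⟨k, hk⟩ := Nat.exists_eq_add_of_le hN
      rw [hk, hol_lat hw, Complex.exp_add, Complex.exp_pi_mul_I, Complex.exp_nat_mul,
        Complex.exp_log (Complex.slitPlane_ne_zero (hz s)), neg_one_mul]
    · have h1 : Complex.log (zt α 1) = Complex.log (zt α 0) :=
        mul_left_cancel₀ (by exact_mod_cast hM0.ne' : (M : ℂ) ≠ 0) (add_left_cancel h)
      have h2 := congrArg (fun z => (Complex.exp z).im) h1
      simp only [Complex.exp_log (Complex.slitPlane_ne_zero (hz _))] at h2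
      simp [zt] at h2
      linarith
  · rintro G hG hP hC ⟨l, hl, hl1, hl2⟩
    obtain ⟨L, hL, hL1⟩ := exists_log (hol_cont (G := fun p : ℝ × ℝ => G p.1 p.2) hG N)
      fun p => hol_ne (hP _ _)
    refine ⟨fun s => L (1, s), by fun_prop, fun s => hL1 (1, s), fun h => hl2 ?_⟩
    have h1 := const_of_exp (f := fun τ => L (τ, 1) - L (τ, 0)) (by fun_prop) (fun τ => by
      rw [Complex.exp_sub, hL1, hL1, hol_cst ((hP _ _).1 0) (hC τ).1,
        hol_cst ((hP _ _).1 0) (hC τ).2, div_one]) 0 1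
    have h2 := const_of_exp (f := fun s => l s - L (0, s)) (by fun_prop) (fun s => by
      rw [Complex.exp_sub, hL1, hl1, div_self (hol_ne (hP _ _))]) 0 1
    simp only at h h1 h2
    linear_combination h1 - h2 + h
  · rintro F F' h ⟨l, hl, hl1, hl2⟩
    exact ⟨l, hl, fun s => by rw [hl1, hol_congr (h s)], hl2⟩
  · rintro F hF hP h0 h1 ⟨l, hl, hl1, hl2⟩
    have hN1 : (N : ℝ) * (1 / (N + 1)) < 1 := by
      rw [mul_one_div, div_lt_one (by positivity)]; linarith
    have hz : ∀ s, hol N (F s) ∈ Complex.slitPlane := fun s => by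
      have h2 := tr_small (hP s) (by positivity) hN1.le N le_rfl
      have h3 := norm_sq' (tr (F s) N - 1)
      have h4 : ‖tr (F s) N - 1‖ ^ 2 < 1 := by nlinarith [norm_nonneg (tr (F s) N - 1)]
      have h5 : ((tr (F s) N).re - 1) ^ 2 < 1 := by
        have : (tr (F s) N - 1).re = (tr (F s) N).re - 1 := by simp
        rw [← this]
        nlinarith [sq_nonneg (tr (F s) N - 1).imI, sq_nonneg (tr (F s) N - 1).imJ,
          sq_nonneg (tr (F s) N - 1).imK]
      left
      have : (hol N (F s)).re = (tr (F s) N).re := by simp [hol]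
      rw [this]; nlinarith
    have h2 := const_of_exp (f := fun s => l s - Complex.log (hol N (F s)))
      (hl.sub ((hol_cont hF N).clog hz)) (fun s => by
        rw [Complex.exp_sub, hl1, Complex.exp_log (Complex.slitPlane_ne_zero (hz s)),
          div_self (Complex.slitPlane_ne_zero (hz s))]) 1 0
    simp only [hol_cst ((hP _).1 0) h0, hol_cst ((hP _).1 0) h1, Complex.log_one, sub_zero] at h2
    exact hl2 h2

end Pool.Agent.Lib.MP_399f8e_an.Rp
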