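import Pool.Agent.Lib.MP_399f8e_an.Rp.Cr
import Pool.Agent.Lib.MP_399f8e_an.Rp.Wd

/-! Polygons of short chords: parametrisation, resampling and midpoints. -/

open Set Filter Topology Metric MeasureTheory
open scoped RealInnerProductSpace

noncomputable section

namespace Pool.Agent.Lib.MP_399f8e_an.Rp

/-- cumulated chord length -/
def Al (φ : ℝ → S3 → S3) (u : ℝ) (x : ℕ → H) (k : ℕ) : ℝ :=
  ∑ i ∈ Finset.range k, len φ u (x i) (x (i + 1))

/-- the polygon parametrised by length -/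
def Gm (φ : ℝ → S3 → S3) (u : ℝ) (x : ℕ → H) (k : ℕ) (s : ℝ) : H :=
  x 0 + ∑ i ∈ Finset.range k, (pt φ u (x i) (x (i + 1)) (s - Al φ u x i) - x i)

/-- cyclic index -/
def jx (N i : ℕ) : ℕ := if i < N then i else 0

/-- resampling homotopy -/
def Rs (φ : ℝ → S3 → S3) (u : ℝ) (N : ℕ) (τ : ℝ) (x : ℕ → H) (i : ℕ) : H :=
  Gm φ u x N ((1 - τ) * Al φ u x (min i N) + τ * (i * (Al φ u x N / N)))

/-- midpoint homotopy -/
def Md (φ : ℝ → S3 → S3) (u : ℝ) (N : ℕ) (τ : ℝ) (y : ℕ → H) (i : ℕ) : H :=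
  pt φ u (y (jx N i)) (y (jx N i + 1)) (τ * len φ u (y (jx N i)) (y (jx N i + 1)))

/-- chains inside a cap -/
def Cap (N : ℕ) (c : H) (η : ℝ) (x : ℕ → H) : Prop := ∀ i ≤ N, ‖x i - c‖ ≤ η

theorem jx_lt {N : ℕ} (hN : 0 < N) (i : ℕ) : jx N i < N := by
  unfold jx; split_ifs <;> omega

theorem jx_of_lt {N i : ℕ} (hi : i < N) : jx N i = i := if_pos hi

theorem jx_self (N : ℕ) : jx N N = jx N 0 := by simp [jx]

theorem Pol.jx_eq {N i : ℕ} {ρ : ℝ} {x : ℕ → H} (P : Pol N ρ x) (hi : i ≤ N) :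
    x (jx N i) = x i := by
  rcases hi.eq_or_lt with rfl | h
  · simp [jx, P.2.1]
  · rw [jx_of_lt h]

theorem Pol.mono {N : ℕ} {ρ ρ' : ℝ} {x : ℕ → H} (P : Pol N ρ x) (h : ρ ≤ ρ') : Pol N ρ' x :=
  ⟨P.1, P.2.1, fun i hi => (P.2.2 i hi).trans h⟩

theorem Cst.cap {N : ℕ} {x : ℕ → H} (h : Cst N x) : Cap N (x 0) 0 x := fun i hi => by
  simp [h i hi]

theorem Cap.cst {N : ℕ} {x : ℕ → H} {c : H} (h : Cap N c 0 x) : Cst N x := fun i hi => by
  rw [sub_eq_zero.1 (norm_le_zero_iff.1 (h i hi)),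
    sub_eq_zero.1 (norm_le_zero_iff.1 (h 0 (Nat.zero_le _)))]

variable {lam : S3 → ℝ} {L u : ℝ} {φ : ℝ → S3 → S3} {N : ℕ} {x : ℕ → H}

theorem A_succ (k : ℕ) : Al φ u x (k + 1) = Al φ u x k + len φ u (x k) (x (k + 1)) :=
  Finset.sum_range_succ _ _

theorem G_succ (k : ℕ) (s : ℝ) : Gm φ u x (k + 1) s =
    Gm φ u x k s + (pt φ u (x k) (x (k + 1)) (s - Al φ u x k) - x k) := by
  rw [Gm, Finset.sum_range_succ, ← add_assoc, Gm]

theorem A_zero : Al φ u x 0 = 0 := by simp [Al]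

theorem G_zero (s : ℝ) : Gm φ u x 0 s = x 0 := by simp [Gm]

namespace Lc

variable (h : Lc lam L φ u) (P : Pol N u x)
include h P

theorem pn {i : ℕ} (hi : i < N) : Near u (x i) (x (i + 1)) :=
  ⟨P.1 _, P.1 _, by linarith [P.2.2 i hi, h.u0]⟩

theorem pl {i : ℕ} (hi : i < N) : len φ u (x i) (x (i + 1)) ≤ 2 * u := by
  linarith [h.len_le (h.pn P hi), P.2.2 i hi]

theorem A_mono {j k : ℕ} (hj : j ≤ k) (hk : k ≤ N) : Al φ u x j ≤ Al φ u x k := by
  induction k, hj using Nat.le_induction with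
  | base => exact le_rfl
  | succ k _ ih => rw [A_succ]; linarith [ih (by omega), (h.spec (h.pn P hk)).2.1]

theorem A_nonneg {k : ℕ} (hk : k ≤ N) : 0 ≤ Al φ u x k := by
  simpa [A_zero] using h.A_mono P (Nat.zero_le k) hk

theorem G_hi {k : ℕ} (hk : k ≤ N) {s : ℝ} (hs : Al φ u x k ≤ s) : Gm φ u x k s = x k := by
  induction k with
  | zero => exact G_zero s
  | succ k ih =>
    rw [G_succ, ih (by omega) ((h.A_mono P (Nat.le_succ k) hk).trans hs),
      h.pt_hi (h.pn P hk) (by rw [A_succ] at hs; linarith)]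
    abel

theorem G_lo' {k : ℕ} (hk : k < N) {s : ℝ} (hs : s ≤ Al φ u x k) :
    Gm φ u x (k + 1) s = Gm φ u x k s := by
  rw [G_succ, h.pt_lo (h.pn P hk) (by linarith)]; simp

theorem G_hi' {k : ℕ} (hk : k < N) {s : ℝ} (hs : Al φ u x k ≤ s) :
    Gm φ u x (k + 1) s = pt φ u (x k) (x (k + 1)) (s - Al φ u x k) := by
  rw [G_succ, h.G_hi P hk.le hs]; abel

theorem G_pred {Q : H → Prop} (h0 : Q (x 0)) (h1 : ∀ i < N, ∀ a, Q (pt φ u (x i) (x (i + 1)) a))
    {k : ℕ} (hk : k ≤ N) (s : ℝ) : Q (Gm φ u x k s) := by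
  induction k with
  | zero => rwa [G_zero]
  | succ k ih =>
    rcases le_total s (Al φ u x k) with hs | hs
    · rw [h.G_lo' P hk hs]; exact ih (by omega)
    · rw [h.G_hi' P hk hs]; exact h1 k hk _

theorem G_mem {k : ℕ} (hk : k ≤ N) (s : ℝ) : Gm φ u x k s ∈ S2 :=
  h.G_pred P (Q := fun z => z ∈ S2) (P.1 0) (fun _ _ _ => pt_mem _ _ _) hk s

theorem G_at {j k : ℕ} (hj : j ≤ k) (hk : k ≤ N) : Gm φ u x k (Al φ u x j) = x j := by
  induction k, hj using Nat.le_induction with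
  | base => exact h.G_hi P hk le_rfl
  | succ k hjk ih => rw [h.G_lo' P hk (h.A_mono P hjk (by omega)), ih (by omega)]

theorem G_lip {k : ℕ} (hk : k ≤ N) {a b : ℝ} (hab : a ≤ b) :
    ‖Gm φ u x k a - Gm φ u x k b‖ ≤ b - a := by
  induction k generalizing a b with
  | zero => rw [G_zero, G_zero, sub_self, norm_zero]; linarith
  | succ k ih =>
    have k1 : ∀ {a b : ℝ}, a ≤ b → b ≤ Al φ u x k →
        ‖Gm φ u x (k + 1) a - Gm φ u x (k + 1) b‖ ≤ b - a := fun {a b} h1 h2 => by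
      rw [h.G_lo' P hk h2, h.G_lo' P hk (h1.trans h2)]; exact ih (by omega) h1
    have k2 : ∀ {a b : ℝ}, a ≤ b → Al φ u x k ≤ a →
        ‖Gm φ u x (k + 1) a - Gm φ u x (k + 1) b‖ ≤ b - a := fun {a b} h1 h2 => by
      rw [h.G_hi' P hk h2, h.G_hi' P hk (h2.trans h1)]
      exact (h.pt_lip1 _ _ _ _).trans (abs_le.2 ⟨by linarith, by linarith⟩)
    rcases le_total b (Al φ u x k) with hb | hb
    · exact k1 hab hb
    rcases le_total (Al φ u x k) a with ha | ha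
    · exact k2 hab ha
    linarith [k1 ha le_rfl, k2 hb le_rfl, norm_sub_le_norm_sub_add_norm_sub (Gm φ u x (k + 1) a)
      (Gm φ u x (k + 1) (Al φ u x k)) (Gm φ u x (k + 1) b)]

theorem G_cl {k : ℕ} (hk : k ≤ N) {a b : ℝ} (hab : a ≤ b) (h2 : b - a ≤ 2 * u) :
    Cl u (Gm φ u x k a) (Gm φ u x k b) :=
  ⟨h.G_mem P hk _, h.G_mem P hk _, (h.G_lip P hk hab).trans h2⟩

theorem G_move {k : ℕ} (hk : k ≤ N) {a b : ℝ} (ha : 0 ≤ a) (hab : a < b) (hb : b ≤ Al φ u x k) :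
    ∃ s ∈ Icc a b, Gm φ u x k a ≠ Gm φ u x k s := by
  induction k generalizing b with
  | zero => rw [A_zero] at hb; linarith
  | succ k ih =>
    rcases lt_or_ge a (Al φ u x k) with h1 | h1
    · obtain ⟨s, hs, e⟩ := ih (by omega) (lt_min hab h1) (min_le_right _ _)
      refine ⟨s, ⟨hs.1, hs.2.trans (min_le_left _ _)⟩, ?_⟩
      rwa [h.G_lo' P hk h1.le, h.G_lo' P hk (hs.2.trans (min_le_right _ _))]
    · refine ⟨b, ⟨hab.le, le_rfl⟩, ?_⟩
      rw [A_succ] at hb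
      have l2 := (h.spec (h.pn P hk)).2.2.1
      rw [h.G_hi' P hk h1, h.G_hi' P hk (h1.trans hab.le), pt, pt, min_eq_left (by linarith),
        min_eq_left (by linarith), max_eq_right (by linarith), max_eq_right (by linarith)]
      intro e
      have e2 := h.uniq (abs_le.2 ⟨by linarith [h.u0], by linarith⟩)
        (abs_le.2 ⟨by linarith [h.u0], by linarith⟩) rfl e
      have e3 := congrArg (fun w => ⟪vel (dir φ u (x k) (x (k + 1))), w⟫) e2
      simp only [real_inner_smul_right, in_vv] at e3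
      linarith

theorem G_cap {c : H} (hc : c ∈ S2) {η : ℝ} (hη : η ≤ u) (C : Cap N c η x) (s : ℝ) :
    ‖Gm φ u x N s - c‖ ≤ η :=
  h.G_pred P (Q := fun z => ‖z - c‖ ≤ η) (C 0 (Nat.zero_le _))
    (fun i hi a => h.cap (h.pn P hi) hc hη (C i hi.le) (C (i + 1) hi) a) le_rfl s

theorem cap_of_A {η : ℝ} (hη : Al φ u x N ≤ η) : Cap N (x 0) η x := fun i hi => by
  have h1 := h.G_lip P le_rfl (h.A_mono P (Nat.zero_le i) hi)
  rw [h.G_at P hi le_rfl, h.G_at P (Nat.zero_le _) le_rfl, norm_sub_rev, A_zero] at h1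
  linarith [h.A_mono P hi le_rfl]

theorem Rs_cap {c : H} (hc : c ∈ S2) {η : ℝ} (hη : η ≤ u) (C : Cap N c η x) (τ : ℝ) :
    Cap N c η (Rs φ u N τ x) := fun _ _ => h.G_cap P hc hη C _

theorem Md_cap (hN : 0 < N) {c : H} (hc : c ∈ S2) {η : ℝ} (hη : η ≤ u) (C : Cap N c η x) (τ : ℝ) :
    Cap N c η (Md φ u N τ x) := fun i _ =>
  h.cap (h.pn P (jx_lt hN i)) hc hη (C _ (jx_lt hN i).le) (C _ (jx_lt hN i)) _

theorem Rs_zero {i : ℕ} (hi : i ≤ N) : Rs φ u N 0 x i = x i := by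
  rw [Rs, sub_zero, one_mul, zero_mul, add_zero, min_eq_left hi, h.G_at P hi le_rfl]

theorem Md_zero (hN : 0 < N) {i : ℕ} (hi : i ≤ N) : Md φ u N 0 x i = x i := by
  rw [Md, zero_mul, h.pt_lo (h.pn P (jx_lt hN i)) le_rfl, P.jx_eq hi]

theorem Rs_pol (hN : 0 < N) {τ ρ : ℝ} (h0 : 0 ≤ τ) (h1 : τ ≤ 1)
    (hρ : (1 - τ) * (2 * u) + τ * (Al φ u x N / N) ≤ ρ) : Pol N ρ (Rs φ u N τ x) := by
  have hN' : (0 : ℝ) < N := Nat.cast_pos.2 hN
  refine ⟨fun i => h.G_mem P le_rfl _, ?_, fun i hi => ?_⟩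
  · have e1 : (1 - τ) * Al φ u x N + τ * (N * (Al φ u x N / N)) = Al φ u x N := by
      field_simp; ring
    have e2 : (1 - τ) * Al φ u x 0 + τ * ((0 : ℕ) * (Al φ u x N / N)) = Al φ u x 0 := by
      simp [A_zero]
    rw [Rs, Rs, min_self, Nat.zero_min, e1, e2, h.G_at P le_rfl le_rfl,
      h.G_at P (Nat.zero_le _) le_rfl, P.2.1]
  · have a1 := mul_nonneg (sub_nonneg.2 h1) (h.spec (h.pn P hi)).2.1
    have a2 := mul_nonneg h0 (div_nonneg (h.A_nonneg P le_rfl) hN'.le)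
    have a3 := mul_le_mul_of_nonneg_left (h.pl P hi) (sub_nonneg.2 h1)
    rw [Rs, Rs, min_eq_left hi.le, min_eq_left (Nat.succ_le_of_lt hi), A_succ]
    push_cast
    exact (h.G_lip P le_rfl (by nlinarith)).trans (by nlinarith)

omit P in
theorem Md_pol (P : Pol N (u / 2) x) (hN : 0 < N) {τ : ℝ} (h0 : 0 ≤ τ) (h1 : τ ≤ 1) :
    Pol N u (Md φ u N τ x) := by
  have P' := P.mono (show u / 2 ≤ u by linarith [h.u0])
  refine ⟨fun i => pt_mem _ _ _, by rw [Md, Md, jx_self], fun i hi => ?_⟩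
  have l1 : ∀ j < N, len φ u (x j) (x (j + 1)) ≤ u := fun j hj => by
    linarith [h.len_le (h.pn P' hj), P.2.2 j hj]
  have j1 := jx_lt hN (i + 1)
  have a1 := h.pt_lip1 (x i) (x (i + 1)) (τ * len φ u (x i) (x (i + 1))) (len φ u (x i) (x (i + 1)))
  have a2 := h.pt_lip1 (x (jx N (i + 1))) (x (jx N (i + 1) + 1)) 0
    (τ * len φ u (x (jx N (i + 1))) (x (jx N (i + 1) + 1)))
  rw [h.pt_hi (h.pn P' hi) le_rfl] at a1
  rw [h.pt_lo (h.pn P' j1) le_rfl] at a2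
  nth_rewrite 1 [P.jx_eq hi] at a2
  rw [Md, Md, jx_of_lt hi]
  refine (norm_sub_le_norm_sub_add_norm_sub _ (x (i + 1)) _).trans ?_
  have b1 := (h.spec (h.pn P' hi)).2.1
  have b2 := (h.spec (h.pn P' j1)).2.1
  have b3 := l1 i hi
  have b4 := l1 _ j1
  rw [abs_of_nonpos (by nlinarith)] at a1 a2
  nlinarith

end Lc

section
variable {Z : Type*} [TopologicalSpace Z] {x : Z → ℕ → H} (h : Lc lam L φ u)
  (cx : ∀ i, Continuous fun z => x z i) (P : ∀ z, Pol N u (x z))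
include h cx P

theorem Lc.A_cont {k : ℕ} (hk : k ≤ N) : Continuous fun z => Al φ u (x z) k :=
  continuous_finsetSum _ fun i hi => h.len_cont (cx i) (cx (i + 1)) fun z =>
    h.pn (P z) ((Finset.mem_range.1 hi).trans_le hk)

theorem Lc.G_cont {s : Z → ℝ} (cs : Continuous s) : Continuous fun z => Gm φ u (x z) N (s z) :=
  (cx 0).add (continuous_finsetSum _ fun i hi => (h.pt_cont (cx i) (cx (i + 1))
    (cs.sub (h.A_cont cx P (Finset.mem_range.1 hi).le)) fun z =>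
      h.pn (P z) (Finset.mem_range.1 hi)).sub (cx i))

theorem Lc.Rs_cont {τ : Z → ℝ} (cτ : Continuous τ) (i : ℕ) :
    Continuous fun z => Rs φ u N (τ z) (x z) i := by
  have c1 := h.A_cont cx P (min_le_right i N)
  have c2 := h.A_cont cx P le_rfl
  exact h.G_cont cx P (by fun_prop)

theorem Lc.Md_cont (hN : 0 < N) {τ : Z → ℝ} (cτ : Continuous τ) (i : ℕ) :
    Continuous fun z => Md φ u N (τ z) (x z) i :=
  h.pt_cont (cx _) (cx _) (cτ.mul (h.len_cont (cx _) (cx _) fun z => h.pn (P z) (jx_lt hN i)))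
    fun z => h.pn (P z) (jx_lt hN i)

end

theorem Lc.per (h : Lc lam L φ u) (P : Pol N u x) (hN : 0 < N) (hne : ∀ i < N, x i ≠ x (i + 1))
    (hs : ∀ i < N, Str φ u (Md φ u N (1 / 2) x i) (x (i + 1)) (Md φ u N (1 / 2) x (i + 1))) :
    ∃ q T, 0 < T ∧ φ T q = q := by
  have hu := h.u0
  let p : ℕ → S3 := fun i => dir φ u (x (jx N i)) (x (jx N i + 1))
  let l : ℕ → ℝ := fun i => len φ u (x (jx N i)) (x (jx N i + 1))
  have l0 : ∀ i, 0 < l i := fun i => (norm_pos_iff.2 (sub_ne_zero.2 (hne _ (jx_lt hN i)))).trans_le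
    (h.le_len (h.pn P (jx_lt hN i)))
  have l1 : ∀ i, l i ≤ 2 * u := fun i => h.pl P (jx_lt hN i)
  have m : ∀ i, Md φ u N (1 / 2) x i = pos (φ (l i / 2) (p i)) := fun i => by
    have := l0 i
    rw [Md, pt, min_eq_left (by simp only [l] at this; linarith),
      max_eq_right (by simp only [l] at this; linarith)]
    congr 2; simp only [l]; ring
  have un : ∀ {a b : ℝ} {v w : S3}, 0 ≤ a → 0 < b → a • vel v = b • vel w → vel v = vel w := by
    intro a b v w ha hb e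
    have e1 := congrArg norm e
    rw [norm_smul, norm_smul, norm_vel, norm_vel, Real.norm_of_nonneg ha,
      Real.norm_of_nonneg hb.le, mul_one, mul_one] at e1
    rw [e1] at e
    exact smul_right_injective H hb.ne' e
  have st : ∀ i < N, pos (φ (l i) (p i)) = pos (p (i + 1)) ∧
      vel (φ (l i) (p i)) = vel (p (i + 1)) := by
    intro i hi
    obtain ⟨r, α, β, r1, a1, a2, b1, b2, e1, e2⟩ := hs i hi
    have c1 : pos (φ (l i) (p i)) = x (i + 1) := by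
      have := (h.spec (h.pn P (jx_lt hN i))).2.2.2
      simp only [l, p]
      rw [this, jx_of_lt hi]
    have c2 : pos (p (i + 1)) = x (i + 1) :=
      (h.spec (h.pn P (jx_lt hN (i + 1)))).1.trans (P.jx_eq hi)
    rw [m] at e1 e2
    have d1 := h.uniq (by rwa [abs_of_nonneg b1])
      (by rw [abs_of_pos (by linarith [l0 (i + 1)])]; linarith [l1 (i + 1)]) (r1.trans c2.symm) e2
    have e3 : φ (l i / 2) (p i) = φ (-(l i / 2)) (φ (l i) (p i)) := by
      rw [← h.add]; congr 1; ring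
    rw [e3] at e1
    have d2 := h.uniq (by rwa [abs_neg, abs_of_nonneg a1])
      (by rw [abs_neg, abs_of_pos (by linarith [l0 i])]; linarith [l1 i]) (r1.trans c1.symm) e1
    rw [neg_smul, neg_smul, neg_inj] at d2
    exact ⟨c1.trans c2.symm, (un a1 (by linarith [l0 i]) d2).symm.trans
      (un b1 (by linarith [l0 (i + 1)]) d1)⟩
  have ind : ∀ k ≤ N, pos (φ (∑ i ∈ Finset.range k, l i) (p 0)) = pos (p k) ∧
      vel (φ (∑ i ∈ Finset.range k, l i) (p 0)) = vel (p k) := by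
    intro k hk
    induction k with
    | zero => simp [h.zero]
    | succ k ih =>
      have a1 := ih (by omega)
      have a2 := h.pos_pm a1.1 a1.2 (l k)
      rw [Finset.sum_range_succ, add_comm, h.add]
      exact ⟨a2.1.trans (st k hk).1, a2.2.trans (st k hk).2⟩
  have T0 : 0 < ∑ i ∈ Finset.range N, l i :=
    Finset.sum_pos (fun i _ => l0 i) ⟨0, Finset.mem_range.2 hN⟩
  have pN : p N = p 0 := by simp only [p, jx_self]
  have a := ind N le_rfl
  rw [pN] at a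
  rcases eq_pm a.1 a.2 with e | e
  · exact ⟨_, _, T0, e⟩
  · exact ⟨p 0, _, add_pos T0 T0, by rw [h.add, e, h.neg, e, neg_neg]⟩

end Pool.Agent.Lib.MP_399f8e_an.Rp
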