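import Mathlib

/-! Quaternion algebra: frames attached to unit quaternions. -/

open Set Filter Topology Metric
open scoped RealInnerProductSpace

noncomputable section

namespace Pool.Agent.Lib.MP_399f8e_an.Rp

/-- the quaternions -/
abbrev H : Type := Quaternion ℝ
/-- the unit quaternions -/
abbrev S3 : Type := Metric.sphere (0 : H) 1
/-- the unit `i` -/
def qi : H := ⟨0, 1, 0, 0⟩
/-- the unit `j` -/
def qj : H := ⟨0, 0, 1, 0⟩
/-- the unit `k` -/
def qk : H := ⟨0, 0, 0, 1⟩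
/-- conjugation -/
def cj (q : S3) (w : H) : H := (q : H) * w * star (q : H)
/-- position -/
def pos (q : S3) : H := cj q qi
/-- velocity -/
def vel (q : S3) : H := cj q qj
/-- normal -/
def nor (q : S3) : H := cj q qk
/-- the two-sphere -/
def S2 : Set H := {x | x.re = 0 ∧ ‖x‖ = 1}

theorem nq (q : S3) : ‖(q : H)‖ = 1 := by simp

@[simp] theorem one_re' : (1 : H).re = 1 := rfl
@[simp] theorem one_imI' : (1 : H).imI = 0 := rfl
@[simp] theorem one_imJ' : (1 : H).imJ = 0 := rfl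
@[simp] theorem one_imK' : (1 : H).imK = 0 := rfl

/-- a complex number as a quaternion -/
def cq (c s : ℝ) : H := ⟨c, s, 0, 0⟩

theorem norm_sq' (a : H) : ‖a‖ ^ 2 = a.re ^ 2 + a.imI ^ 2 + a.imJ ^ 2 + a.imK ^ 2 := by
  rw [sq, ← Quaternion.normSq_eq_norm_mul_self, Quaternion.normSq_def']

theorem norm_one_of {a : H} (h : a.re ^ 2 + a.imI ^ 2 + a.imJ ^ 2 + a.imK ^ 2 = 1) : ‖a‖ = 1 := by
  have h1 := norm_sq' a
  rw [h] at h1
  exact (sq_eq_sq₀ (norm_nonneg a) zero_le_one).1 (by rw [h1]; norm_num)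

theorem inner_eq (a b : H) :
    ⟪a, b⟫ = a.re * b.re + a.imI * b.imI + a.imJ * b.imJ + a.imK * b.imK := by
  rw [Quaternion.inner_def]; simp

theorem mul_star' (q : S3) : (q : H) * star (q : H) = 1 := by
  rw [Quaternion.self_mul_star, Quaternion.normSq_eq_norm_mul_self, nq]; simp

theorem star_mul' (q : S3) : star (q : H) * (q : H) = 1 := by
  rw [Quaternion.star_mul_self, Quaternion.normSq_eq_norm_mul_self, nq]; simp

theorem re_comm (a b : H) : (a * b).re = (b * a).re := by simp; ring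

theorem cj_mul (q : S3) (a b : H) : cj q a * cj q b = cj q (a * b) := by
  simp only [cj]
  calc (q : H) * a * star (q : H) * ((q : H) * b * star (q : H))
      = (q : H) * a * (star (q : H) * (q : H)) * b * star (q : H) := by simp only [mul_assoc]
    _ = _ := by rw [star_mul']; simp only [mul_assoc, mul_one]

theorem cj_re (q : S3) (a : H) : (cj q a).re = a.re := by
  rw [cj, re_comm, ← mul_assoc, star_mul', one_mul]

theorem cj_star (q : S3) (a : H) : star (cj q a) = cj q (star a) := by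
  simp [cj, mul_assoc]

theorem cj_inner (q : S3) (a b : H) : ⟪cj q a, cj q b⟫ = ⟪a, b⟫ := by
  rw [Quaternion.inner_def, cj_star, cj_mul, cj_re, Quaternion.inner_def]

theorem cj_norm (q : S3) (a : H) : ‖cj q a‖ = ‖a‖ := by
  simp [cj]

theorem cj_add (q : S3) (a b : H) : cj q (a + b) = cj q a + cj q b := by
  simp [cj, mul_add, add_mul]

theorem cj_sub (q : S3) (a b : H) : cj q (a - b) = cj q a - cj q b := by
  simp [cj, mul_sub, sub_mul]

theorem cj_smul (q : S3) (c : ℝ) (a : H) : cj q (c • a) = c • cj q a := by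
  simp [cj]

theorem cj_neg' (q : S3) (a : H) : cj q (-a) = -cj q a := by simp [cj]

theorem cj_one (q : S3) : cj q 1 = 1 := by simp [cj, mul_star']

theorem cj_neg (q : S3) (a : H) : cj (-q) a = cj q a := by simp [cj]

theorem cj_cj (q r : S3) (a : H) : cj (q * r) a = cj q (cj r a) := by
  simp [cj, mul_assoc]

theorem cj_surj (q : S3) (y : H) : cj q (star (q : H) * y * q) = y := by
  simp only [cj]
  calc (q : H) * (star (q : H) * y * q) * star (q : H)
      = ((q : H) * star (q : H)) * y * ((q : H) * star (q : H)) := by simp only [mul_assoc]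
    _ = y := by rw [mul_star']; simp

theorem cj_lip (q q' : S3) (a : H) : ‖cj q a - cj q' a‖ ≤ 2 * ‖a‖ * ‖(q : H) - q'‖ := by
  have e : cj q a - cj q' a =
      ((q : H) - q') * a * star (q : H) + (q' : H) * a * star ((q : H) - q') := by
    simp only [cj, star_sub]; noncomm_ring
  rw [e]
  refine (norm_add_le _ _).trans (le_of_eq ?_)
  simp only [norm_mul, norm_star, nq]
  ring

theorem cont_cj (a : H) : Continuous fun q : S3 => cj q a := by
  unfold cj; fun_prop

theorem norm_qi : ‖qi‖ = 1 := norm_one_of (by simp [qi])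
theorem norm_qj : ‖qj‖ = 1 := norm_one_of (by simp [qj])
theorem norm_qk : ‖qk‖ = 1 := norm_one_of (by simp [qk])

theorem norm_pos' (q : S3) : ‖pos q‖ = 1 := by rw [pos, cj_norm, norm_qi]
theorem norm_vel (q : S3) : ‖vel q‖ = 1 := by rw [vel, cj_norm, norm_qj]
theorem norm_nor (q : S3) : ‖nor q‖ = 1 := by rw [nor, cj_norm, norm_qk]
theorem re_pos (q : S3) : (pos q).re = 0 := by rw [pos, cj_re]; rfl
theorem re_vel (q : S3) : (vel q).re = 0 := by rw [vel, cj_re]; rfl
theorem re_nor (q : S3) : (nor q).re = 0 := by rw [nor, cj_re]; rfl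
theorem pos_mem (q : S3) : pos q ∈ S2 := ⟨re_pos q, norm_pos' q⟩
theorem in_pv (q : S3) : ⟪pos q, vel q⟫ = 0 := by rw [pos, vel, cj_inner, inner_eq]; simp [qi, qj]
theorem in_pn (q : S3) : ⟪pos q, nor q⟫ = 0 := by rw [pos, nor, cj_inner, inner_eq]; simp [qi, qk]
theorem in_vn (q : S3) : ⟪vel q, nor q⟫ = 0 := by rw [vel, nor, cj_inner, inner_eq]; simp [qj, qk]
theorem in_vp (q : S3) : ⟪vel q, pos q⟫ = 0 := by rw [real_inner_comm, in_pv]
theorem in_np (q : S3) : ⟪nor q, pos q⟫ = 0 := by rw [real_inner_comm, in_pn]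
theorem in_nv (q : S3) : ⟪nor q, vel q⟫ = 0 := by rw [real_inner_comm, in_vn]
theorem in_pp (q : S3) : ⟪pos q, pos q⟫ = 1 := by
  rw [real_inner_self_eq_norm_sq, norm_pos']; norm_num
theorem in_vv (q : S3) : ⟪vel q, vel q⟫ = 1 := by
  rw [real_inner_self_eq_norm_sq, norm_vel]; norm_num
theorem in_nn (q : S3) : ⟪nor q, nor q⟫ = 1 := by
  rw [real_inner_self_eq_norm_sq, norm_nor]; norm_num
theorem cont_pos : Continuous pos := cont_cj _
theorem cont_vel : Continuous vel := cont_cj _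
theorem cont_nor : Continuous nor := cont_cj _

theorem frame (q : S3) {y : H} (hy : y.re = 0) :
    y = ⟪pos q, y⟫ • pos q + ⟪vel q, y⟫ • vel q + ⟪nor q, y⟫ • nor q := by
  obtain ⟨w, rfl⟩ : ∃ w, cj q w = y := ⟨_, cj_surj q y⟩
  rw [cj_re] at hy
  rw [pos, vel, nor, cj_inner, cj_inner, cj_inner, ← cj_smul, ← cj_smul, ← cj_smul, ← cj_add,
    ← cj_add]
  congr 1
  ext <;> simp [inner_eq, qi, qj, qk, hy]

/-- the unit `i` on the sphere -/
def uI : S3 := ⟨qi, by simp [norm_qi]⟩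

theorem pos_uI (q : S3) : pos (q * uI) = pos q := by
  rw [pos, cj_cj, pos]; congr 1; ext <;> simp [cj, uI, qi]
theorem vel_uI (q : S3) : vel (q * uI) = -vel q := by
  rw [vel, cj_cj, vel, ← cj_neg']; congr 1; ext <;> simp [cj, uI, qi, qj]
theorem nor_uI (q : S3) : nor (q * uI) = -nor q := by
  rw [nor, cj_cj, nor, ← cj_neg']; congr 1; ext <;> simp [cj, uI, qi, qk]

/-- rotation of the frame about the position -/
theorem exists_rot {a b : ℝ} (h : a ^ 2 + b ^ 2 = 1) : ∃ r : S3, ∀ q : S3, pos (q * r) = pos q ∧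
    vel (q * r) = a • vel q + b • nor q ∧ nor (q * r) = (-b) • vel q + a • nor q := by
  obtain ⟨c, s, hcs, ha, hb⟩ : ∃ c s : ℝ, c ^ 2 + s ^ 2 = 1 ∧ a = c ^ 2 - s ^ 2 ∧ b = 2 * c * s := by
    obtain ⟨z, hz⟩ := IsAlgClosed.exists_pow_nat_eq (⟨a, b⟩ : ℂ) (n := 2) two_pos
    have h1 := congrArg Complex.re hz
    have h2 := congrArg Complex.im hz
    simp only [sq, Complex.mul_re, Complex.mul_im] at h1 h2
    refine ⟨z.re, z.im, ?_, by linarith, by linarith⟩
    have h3 : (z.re ^ 2 + z.im ^ 2) ^ 2 = 1 ^ 2 := by rw [one_pow, ← h, ← h1, ← h2]; ring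
    exact (sq_eq_sq₀ (by positivity) zero_le_one).1 h3
  have hn : ‖cq c s‖ = 1 := norm_one_of (by simpa [cq] using hcs)
  refine ⟨⟨cq c s, by simpa using hn⟩, fun q => ⟨?_, ?_, ?_⟩⟩
  · rw [pos, cj_cj, pos]; congr 1
    ext <;> simp [cj, qi, cq]
    · ring
    · linarith
  · rw [vel, cj_cj, vel, nor, ← cj_smul, ← cj_smul, ← cj_add]; congr 1
    ext <;> simp [cj, qj, qk, ha, hb, cq] <;> ring
  · rw [nor, cj_cj, vel, nor, ← cj_smul, ← cj_smul, ← cj_add]; congr 1
    ext <;> simp [cj, qj, qk, ha, hb, cq] <;> ring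

theorem sq_S2 {x : H} (hx : x ∈ S2) : x * x = -1 := by
  have h := norm_sq' x
  rw [hx.2, hx.1] at h
  ext <;> simp [hx.1]
  · linarith
  all_goals ring

theorem exists_pos {x : H} (hx : x ∈ S2) : ∃ q : S3, pos q = x := by
  by_cases h : x = -qi
  · refine ⟨⟨qj, by simp [norm_qj]⟩, ?_⟩
    rw [h]; ext <;> simp [pos, cj, qi, qj]
  · have hi : qi * qi = -1 := by ext <;> simp [qi]
    have h0 : 1 - x * qi ≠ 0 := by
      intro h1
      apply h
      have h2 : x * qi = 1 := (sub_eq_zero.1 h1).symm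
      have h3 : x * qi * qi = qi := by rw [h2, one_mul]
      rw [mul_assoc, hi] at h3
      rw [← h3]; simp
    have hn : 0 < ‖1 - x * qi‖ := norm_pos_iff.2 h0
    let q : S3 := ⟨‖1 - x * qi‖⁻¹ • (1 - x * qi), by
      simp [norm_smul, hn.ne']⟩
    refine ⟨q, ?_⟩
    have e : (q : H) * qi = x * q := by
      have e1 : (1 - x * qi) * qi = x * (1 - x * qi) := by
        rw [sub_mul, mul_sub, mul_assoc, hi, ← mul_assoc, sq_S2 hx]; simp [add_comm]
      show (‖1 - x * qi‖⁻¹ • (1 - x * qi)) * qi = x * (‖1 - x * qi‖⁻¹ • (1 - x * qi))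
      rw [smul_mul_assoc, mul_smul_comm, e1]
    rw [pos, cj, e, mul_assoc, mul_star', mul_one]

/-- the frame determines the quaternion up to sign, in a Lipschitz way -/
theorem near_pm (q q' : S3) : ‖(q : H) - q'‖ ≤ ‖pos q - pos q'‖ + ‖vel q - vel q'‖ ∨
    ‖(q : H) - (-q' : S3)‖ ≤ ‖pos q - pos q'‖ + ‖vel q - vel q'‖ := by
  obtain ⟨r, rfl⟩ : ∃ r : S3, q' = q * r := ⟨q⁻¹ * q', by simp⟩
  have hr := norm_sq' (r : H)
  rw [nq] at hr
  have e1 : ‖pos q - pos (q * r)‖ ^ 2 = 4 * ((r : H).imJ ^ 2 + (r : H).imK ^ 2) := by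
    rw [pos, pos, cj_cj, ← cj_sub, cj_norm]
    have : ‖qi - cj r qi‖ = ‖qi * r - r * qi‖ := by
      have e : qi * r - r * qi = (qi - cj r qi) * r := by
        rw [sub_mul, cj, mul_assoc _ (star _), star_mul', mul_one]
      rw [e, norm_mul, nq, mul_one]
    rw [this, norm_sq']; simp [qi]; ring
  have e2 : ‖vel q - vel (q * r)‖ ^ 2 = 4 * ((r : H).imI ^ 2 + (r : H).imK ^ 2) := by
    rw [vel, vel, cj_cj, ← cj_sub, cj_norm]
    have : ‖qj - cj r qj‖ = ‖qj * r - r * qj‖ := by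
      have e : qj * r - r * qj = (qj - cj r qj) * r := by
        rw [sub_mul, cj, mul_assoc _ (star _), star_mul', mul_one]
      rw [e, norm_mul, nq, mul_one]
    rw [this, norm_sq']; simp [qj]; ring
  have e3 : ‖(q : H) - (q * r : S3)‖ ^ 2 = 2 - 2 * (r : H).re := by
    have : (q : H) - (q * r : S3) = q * (1 - r) := by simp [mul_sub]
    rw [this, norm_mul, nq, one_mul, norm_sq']; simp; linarith
  have e4 : ‖(q : H) - (-(q * r) : S3)‖ ^ 2 = 2 + 2 * (r : H).re := by
    have : (q : H) - (-(q * r) : S3) = q * (1 + r) := by simp [mul_add]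
    rw [this, norm_mul, nq, one_mul, norm_sq']; simp; linarith
  have a1 := norm_nonneg (pos q - pos (q * r))
  have a2 := norm_nonneg (vel q - vel (q * r))
  have a3 := mul_nonneg a1 a2
  have b0 : (r : H).re ^ 2 ≤ 1 := by
    nlinarith [sq_nonneg (r : H).imI, sq_nonneg (r : H).imJ, sq_nonneg (r : H).imK]
  have b1 := abs_le.1 ((sq_le_one_iff_abs_le_one _).1 b0)
  rcases le_total 0 (r : H).re with h | h
  · left
    refine (sq_le_sq₀ (norm_nonneg _) (by positivity)).1 ?_
    rw [e3]; nlinarith [sq_nonneg (r : H).imK]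
  · right
    refine (sq_le_sq₀ (norm_nonneg _) (by positivity)).1 ?_
    rw [e4]; nlinarith [sq_nonneg (r : H).imK]

theorem eq_pm {q q' : S3} (h1 : pos q = pos q') (h2 : vel q = vel q') : q = q' ∨ q = -q' := by
  rcases near_pm q q' with h | h <;> rw [h1, h2, sub_self, sub_self, norm_zero, add_zero] at h
  · exact Or.inl (Subtype.ext (sub_eq_zero.1 (norm_le_zero_iff.1 h)))
  · exact Or.inr (Subtype.ext (sub_eq_zero.1 (norm_le_zero_iff.1 h)))

theorem inner_S2 {x y : H} (hx : x ∈ S2) (hy : y ∈ S2) : ⟪x, y⟫ = 1 - ‖x - y‖ ^ 2 / 2 := by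
  rw [norm_sub_sq_real, hx.2, hy.2]; ring

theorem isClosed_S2 : IsClosed S2 :=
  (isClosed_eq Quaternion.continuous_re continuous_const).inter
    (isClosed_eq continuous_norm continuous_const)

theorem isCompact_S2 : IsCompact S2 :=
  (isCompact_sphere (0 : H) 1).of_isClosed_subset isClosed_S2 fun x hx => by simpa using hx.2

end Pool.Agent.Lib.MP_399f8e_an.Rp
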