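import Pool.Agent.Lib.MP_399f8e_an.Rp.Ch

/-! The side of a point with respect to a nearby geodesic, and local cross-sections. -/

open Set Filter Topology Metric MeasureTheory
open scoped RealInnerProductSpace

noncomputable section

namespace Pool.Agent.Lib.MP_399f8e_an.Rp

/-- the side function -/
def Dv (φ : ℝ → S3 → S3) (u : ℝ) (q : S3) (y : H) : ℝ := ⟪nor q, Wv φ u (pos q) y⟫

/-- frames that have the point `y` on their left -/
def Lf (φ : ℝ → S3 → S3) (u : ℝ) (y : H) : Set S3 :=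
  {q | ‖pos q - y‖ ≤ 50 * u ∧ 0 < Dv φ u q y}

/-- a thickened cross-section near `c` -/
def Ec (φ : ℝ → S3 → S3) (u : ℝ) (c : H) : Set S3 :=
  {q | ‖pos q - c‖ ≤ 40 * u ∧ 0 ≤ ⟪vel q, c⟫ ∧ ⟪vel (φ u q), c⟫ < 0}

theorem pos_iff_of_ne {a b s t : ℝ} {f : Icc a b → ℝ} (hf : Continuous f) (h0 : ∀ z, f z ≠ 0)
    (hs : s ∈ Icc a b) (ht : t ∈ Icc a b) (h : 0 < f ⟨s, hs⟩) : 0 < f ⟨t, ht⟩ := by
  have : PreconnectedSpace (Icc a b) := Subtype.preconnectedSpace isPreconnected_Icc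
  by_contra h1
  obtain ⟨z, hz⟩ := intermediate_value_univ ⟨t, ht⟩ ⟨s, hs⟩ hf ⟨not_lt.1 h1, h.le⟩
  exact h0 z hz

variable {lam : S3 → ℝ} {L u : ℝ} {φ : ℝ → S3 → S3}

namespace Lc

theorem D_cont (h : Lc lam L φ u) {Z : Type*} [TopologicalSpace Z] {q : Z → S3} {y : Z → H}
    (hq : Continuous q) (hy : Continuous y) (n : ∀ z, Near u (pos (q z)) (y z)) :
    Continuous fun z => Dv φ u (q z) (y z) :=
  (cont_nor.comp hq).inner (h.W_cont (cont_pos.comp hq) hy n)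

theorem D_on (h : Lc lam L φ u) {q p : S3} {s : ℝ} (hs : |s| ≤ 200 * u) (hp : pos p = pos q)
    (n : ‖pos q - pos (φ s p)‖ ≤ 50 * u) : Dv φ u q (pos (φ s p)) = s * ⟪nor q, vel p⟫ := by
  rw [Dv, h.W_eq ⟨pos_mem _, pos_mem _, n⟩ hs hp rfl, real_inner_smul_right]

theorem D_zero (h : Lc lam L φ u) {q : S3} {y : H} (n : Near u (pos q) y) (h0 : Dv φ u q y = 0) :
    ∃ s, |s| ≤ 2 * ‖pos q - y‖ ∧ pos (φ s q) = y := by
  have e := frame q (y := Wv φ u (pos q) y) (by simp [Wv, re_vel])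
  have e1 : ⟪pos q, Wv φ u (pos q) y⟫ = 0 := by
    have e0 := in_pv (dir φ u (pos q) y)
    rw [(h.spec n).1] at e0
    rw [Wv, real_inner_smul_right, e0, mul_zero]
  rw [Dv] at h0
  rw [e1, h0, zero_smul, zero_smul, zero_add, add_zero] at e
  have e2 : |⟪vel q, Wv φ u (pos q) y⟫| = len φ u (pos q) y := by
    rw [← h.norm_W n]
    nth_rewrite 2 [e]
    rw [norm_smul, norm_vel, mul_one, Real.norm_eq_abs]
  refine ⟨⟪vel q, Wv φ u (pos q) y⟫, e2.le.trans (h.len_le n), ?_⟩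
  exact (h.same (e2.le.trans (h.spec n).2.2.1) (h.len_abs n) (h.spec n).1.symm e.symm).trans
    (h.spec n).2.2.2

theorem Lf_flow (h : Lc lam L φ u) {q : S3} {y : H} (hy : y ∈ S2) (hq : ‖pos q - y‖ ≤ 25 * u)
    {t : ℝ} (ht : |t| ≤ 25 * u) : q ∈ Lf φ u y ↔ φ t q ∈ Lf φ u y := by
  have hu := h.u0
  have n : ∀ z : Icc (-(25 * u)) (25 * u), Near u (pos (φ z q)) y := fun z => ⟨pos_mem _, hy, by
    have a1 := h.pos_lip0 q z
    have a2 := norm_sub_le_norm_sub_add_norm_sub (pos (φ z q)) (pos q) y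
    linarith [abs_le.2 z.2]⟩
  have hc := h.D_cont (h.cont' continuous_subtype_val continuous_const) continuous_const n
  have m0 : (0 : ℝ) ∈ Icc (-(25 * u)) (25 * u) := ⟨by linarith, by linarith⟩
  have mt : t ∈ Icc (-(25 * u)) (25 * u) := abs_le.1 ht
  have key : 0 < Dv φ u (φ 0 q) y ↔ 0 < Dv φ u (φ t q) y := by
    by_cases h0 : ∀ z : Icc (-(25 * u)) (25 * u), Dv φ u (φ z q) y ≠ 0
    · exact ⟨pos_iff_of_ne hc h0 m0 mt, pos_iff_of_ne hc h0 mt m0⟩
    · simp only [not_forall, not_not] at h0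
      obtain ⟨z, hz⟩ := h0
      obtain ⟨s, hs, e⟩ := h.D_zero (n z) hz
      have z0 : ∀ w : Icc (-(25 * u)) (25 * u), Dv φ u (φ w q) y = 0 := by
        intro w
        have e2 : y = pos (φ (s + z - w) (φ w q)) := by
          rw [← h.add, sub_add_cancel, h.add, e]
        have nw := (n w).2.2
        rw [e2] at nw ⊢
        rw [h.D_on (abs_le.2 ⟨by linarith [abs_le.1 hs, (n z).2.2, z.2.1, w.2.2],
          by linarith [abs_le.1 hs, (n z).2.2, z.2.2, w.2.1]⟩) rfl nw, in_nv, mul_zero]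
      rw [z0 ⟨0, m0⟩, z0 ⟨t, mt⟩]
  rw [h.zero] at key
  exact ⟨fun a => ⟨(n ⟨t, mt⟩).2.2, key.1 a.2⟩, fun a => ⟨by linarith, key.2 a.2⟩⟩

theorem Lf_far (h : Lc lam L φ u) {q : S3} {c y : H} (hc : c ∈ S2) (hy : y ∈ S2)
    (h1 : 6 * u ≤ ‖pos q - c‖) (h2 : ‖pos q - c‖ ≤ 40 * u) (h3 : |⟪vel q, c⟫| ≤ 2 * u)
    (h4 : ‖y - c‖ ≤ 2 * u) : q ∈ Lf φ u y ↔ 0 < ⟪nor q, c⟫ := by
  have hu := h.u0
  have hsm := h.small
  have a0 : ‖pos q - y‖ ≤ ‖pos q - c‖ + 2 * u := by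
    have := norm_sub_le_norm_sub_add_norm_sub (pos q) c y
    rw [norm_sub_rev c] at this
    linarith
  have n : Near u (pos q) y := ⟨pos_mem _, hy, by linarith⟩
  have e : Wv φ u (pos q) y =
      c - pos q + ((y - c) - gg φ (len φ u (pos q) y) (dir φ u (pos q) y)) := by
    simp only [gg, Wv, (h.spec n).1, (h.spec n).2.2.2]; abel
  have a1 := h.gg_le (dir φ u (pos q) y) (h.len_abs n)
  rw [abs_of_nonneg (h.spec n).2.1] at a1
  have a2 := h.len_le n
  have a3 := norm_sub_le (y - c) (gg φ (len φ u (pos q) y) (dir φ u (pos q) y))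
  have a4 := abs_real_inner_le_norm (nor q)
    ((y - c) - gg φ (len φ u (pos q) y) (dir φ u (pos q) y))
  rw [norm_nor, one_mul] at a4
  have e2 : Dv φ u q y = ⟪nor q, c⟫ +
      ⟪nor q, (y - c) - gg φ (len φ u (pos q) y) (dir φ u (pos q) y)⟫ := by
    rw [Dv]
    nth_rewrite 1 [e]
    rw [inner_add_right, inner_sub_right, in_np, sub_zero]
  have b1 : 1 = ⟪pos q, c⟫ ^ 2 + ⟪vel q, c⟫ ^ 2 + ⟪nor q, c⟫ ^ 2 := by
    have b0 : ⟪c, c⟫ = 1 := by rw [real_inner_self_eq_norm_sq, hc.2]; norm_num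
    rw [← b0]
    nth_rewrite 1 [frame q hc.1]
    simp only [inner_add_left, real_inner_smul_left]; ring
  rw [inner_S2 (pos_mem q) hc] at b1
  generalize ⟪nor q, (y - c) - gg φ (len φ u (pos q) y) (dir φ u (pos q) y)⟫ = er at e2 a4
  have b2 : |er| ≤ ‖pos q - c‖ / 2 := by linarith
  generalize ‖pos q - c‖ = ρ at *
  have b3 : ⟪vel q, c⟫ ^ 2 ≤ (ρ / 3) ^ 2 := by
    rw [← sq_abs]; exact pow_le_pow_left₀ (abs_nonneg _) (by linarith) 2
  have ρ0 : 0 < ρ := by linarith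
  have ρ1 : ρ ^ 2 ≤ 1 := by nlinarith
  have b4 : (ρ / 2) ^ 2 < ⟪nor q, c⟫ ^ 2 := by nlinarith [sq_pos_of_pos ρ0]
  have b5 := abs_le.1 b2
  simp only [Lf, mem_ofPred_eq, e2]
  rcases lt_or_gt_of_ne (show ⟪nor q, c⟫ ≠ 0 by intro h0; rw [h0] at b4; nlinarith) with c1 | c1
  · have : ⟪nor q, c⟫ < -(ρ / 2) := by nlinarith
    exact ⟨fun a => by linarith [a.2], fun a => by linarith⟩
  · have : ρ / 2 < ⟪nor q, c⟫ := by nlinarith
    exact ⟨fun _ => c1, fun _ => ⟨n.2.2, by linarith⟩⟩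

theorem slope (h : Lc lam L φ u) {q : S3} {c : H} (hc : c ∈ S2) {ρ s t : ℝ}
    (hq : ‖pos q - c‖ + ρ ≤ 200 * u) (hs : -ρ ≤ s) (hst : s ≤ t) (ht : t ≤ ρ) :
    (t - s) / 2 ≤ ⟪vel (φ s q), c⟫ - ⟪vel (φ t q), c⟫ ∧
      ⟪vel (φ s q), c⟫ - ⟪vel (φ t q), c⟫ ≤ 2 * (t - s) := by
  rcases hst.eq_or_lt with rfl | hlt
  · simp
  have hd : ∀ x, HasDerivAt (fun x => ⟪vel (φ x q), c⟫)
      ⟪lam (φ x q) • nor (φ x q) - pos (φ x q), c⟫ x := fun x =>
    ((h.d_vel q x).inner ℝ (hasDerivAt_const x c)).congr_deriv (by simp)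
  obtain ⟨x, hx, e⟩ := exists_hasDerivAt_eq_slope _ _ hlt
    (fun x _ => (hd x).continuousAt.continuousWithinAt) (fun x _ => hd x)
  have a1 : ‖pos (φ x q) - c‖ ≤ 200 * u := by
    have b1 := h.pos_lip0 q x
    have b2 := norm_sub_le_norm_sub_add_norm_sub (pos (φ x q)) (pos q) c
    have b3 : |x| ≤ ρ := abs_le.2 ⟨by linarith [hx.1], by linarith [hx.2]⟩
    linarith
  have a2 : |⟪nor (φ x q), c⟫| ≤ 200 * u := by
    have b1 := abs_real_inner_le_norm (nor (φ x q)) (pos (φ x q) - c)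
    rw [inner_sub_right, in_np, zero_sub, abs_neg, norm_nor, one_mul] at b1
    linarith
  have a3 : |lam (φ x q) * ⟪nor (φ x q), c⟫| ≤ 1 / 100 := by
    rw [abs_mul]
    have := mul_le_mul (h.bd (φ x q)) a2 (abs_nonneg _) h.L0
    nlinarith [h.sm, h.u0]
  have a4 : ‖pos (φ x q) - c‖ ^ 2 ≤ 1 / 2 := by
    nlinarith [h.small, norm_nonneg (pos (φ x q) - c)]
  rw [inner_sub_left, real_inner_smul_left, inner_S2 (pos_mem _) hc,
    eq_div_iff (sub_pos.2 hlt).ne'] at e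
  have a5 := abs_le.1 a3
  have a6 := sq_nonneg ‖pos (φ x q) - c‖
  have a7 := sub_pos.2 hlt
  constructor <;> nlinarith

theorem Ec_small (h : Lc lam L φ u) {q : S3} {c : H} (hc : c ∈ S2) (hq : q ∈ Ec φ u c) :
    |⟪vel q, c⟫| ≤ 2 * u := by
  have hu := h.u0
  have h1 := (h.slope hc (q := q) (ρ := u) (s := 0) (t := u) (by linarith [hq.1]) (by linarith)
    hu.le le_rfl).2
  rw [h.zero] at h1
  rw [abs_of_nonneg hq.2.1]
  linarith [hq.2.2]

theorem Ec_time (h : Lc lam L φ u) {q : S3} {c : H} (hc : c ∈ S2) (hq : ‖pos q - c‖ ≤ 10 * u) :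
    volume {t : ℝ | |t| ≤ 22 * u ∧ φ t q ∈ Ec φ u c} = ENNReal.ofReal u := by
  have hu := h.u0
  have sl := fun {s t : ℝ} => h.slope hc (q := q) (ρ := 23 * u) (s := s) (t := t) (by linarith)
  have a0 : |⟪vel (φ 0 q), c⟫| ≤ 10 * u := by
    have b1 := abs_real_inner_le_norm (vel q) (pos q - c)
    rw [inner_sub_right, in_vp, zero_sub, abs_neg, norm_vel, one_mul] at b1
    rw [h.zero]; linarith
  have a1 := (sl (s := -(20 * u)) (t := 0) (by linarith) (by linarith) (by linarith)).1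
  have a2 := (sl (s := 0) (t := 20 * u) (by linarith) (by linarith) (by linarith)).1
  have hc' : Continuous fun t : ℝ => ⟪vel (φ t q), c⟫ :=
    (cont_vel.comp (h.cont' continuous_id continuous_const)).inner continuous_const
  obtain ⟨τ, hτ, e⟩ := intermediate_value_Icc' (show -(20 * u) ≤ 20 * u by linarith)
    hc'.continuousOn (show (0 : ℝ) ∈ _ from ⟨by linarith [abs_le.1 a0], by linarith [abs_le.1 a0]⟩)
  simp only at e
  have e2 : {t : ℝ | |t| ≤ 22 * u ∧ φ t q ∈ Ec φ u c} = Ioc (τ - u) τ := by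
    ext t
    simp only [Ec, mem_ofPred_eq, mem_Ioc, ← h.add, abs_le]
    constructor
    · rintro ⟨⟨b1, b2⟩, -, b3, b4⟩
      constructor
      · by_contra b5
        have := (sl (s := u + t) (t := τ) (by linarith) (by linarith) (by linarith [hτ.2])).1
        linarith
      · by_contra b5
        have := (sl (s := τ) (t := t) (by linarith [hτ.1]) (by linarith) (by linarith)).1
        linarith
    · rintro ⟨b1, b2⟩
      have b3 : -(22 * u) ≤ t := by linarith [hτ.1]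
      have b4 : t ≤ 22 * u := by linarith [hτ.2]
      refine ⟨⟨b3, b4⟩, ?_, ?_, ?_⟩
      · have c1 := h.pos_lip0 q t
        have c2 := norm_sub_le_norm_sub_add_norm_sub (pos (φ t q)) (pos q) c
        linarith [abs_le.2 ⟨b3, b4⟩]
      · have := (sl (s := t) (t := τ) (by linarith) b2 (by linarith [hτ.2])).1
        linarith
      · have := (sl (s := τ) (t := u + t) (by linarith [hτ.1]) (by linarith) (by linarith)).1
        linarith
  rw [e2, Real.volume_Ioc]; congr 1; ring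

theorem cap (h : Lc lam L φ u) {x y c : H} (n : Near u x y) (hc : c ∈ S2) {η : ℝ}
    (hη : η ≤ u) (hx : ‖x - c‖ ≤ η) (hy : ‖y - c‖ ≤ η) (a : ℝ) : ‖pt φ u x y a - c‖ ≤ η := by
  have hu := h.u0
  obtain ⟨t0, t1⟩ := h.cl_mem n a
  have l1 := h.len_le n
  obtain ⟨e1, l0, -, e2⟩ := h.spec n
  have nn := n.2.2
  rw [pt]
  generalize max 0 (min a (len φ u x y)) = t at *
  generalize len φ u x y = l at *
  generalize dir φ u x y = p at *
  have sl := fun {s t : ℝ} => h.slope hc (q := p) (ρ := l) (s := s) (t := t) (by rw [e1]; linarith)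
  have hd : ∀ x, HasDerivAt (fun x => ⟪pos (φ x p), c⟫) ⟪vel (φ x p), c⟫ x := fun x =>
    ((h.d_pos p x).inner ℝ (hasDerivAt_const x c)).congr_deriv (by simp)
  have fin : ∀ z : H, z ∈ S2 → ‖z - c‖ ≤ η → ⟪z, c⟫ ≤ ⟪pos (φ t p), c⟫ →
      ‖pos (φ t p) - c‖ ≤ η := by
    intro z hz h1 h2
    rw [inner_S2 hz hc, inner_S2 (pos_mem _) hc] at h2
    exact ((sq_le_sq₀ (norm_nonneg _) (norm_nonneg _)).1 (by linarith)).trans h1
  rcases le_total 0 ⟪vel (φ t p), c⟫ with h0 | h0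
  · refine fin x n.1 hx ?_
    rcases t0.eq_or_lt with rfl | hlt
    · rw [h.zero, e1]
    obtain ⟨x', hx', e⟩ := exists_hasDerivAt_eq_slope _ _ hlt
      (fun x _ => (hd x).continuousAt.continuousWithinAt) (fun x _ => hd x)
    have := (sl (s := x') (t := t) (by linarith [hx'.1]) hx'.2.le t1).1
    rw [eq_div_iff (sub_pos.2 hlt).ne', h.zero, e1] at e
    nlinarith [hx'.2]
  · refine fin y n.2.1 hy ?_
    rcases t1.eq_or_lt with rfl | hlt
    · rw [e2]
    obtain ⟨x', hx', e⟩ := exists_hasDerivAt_eq_slope _ _ hlt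
      (fun x _ => (hd x).continuousAt.continuousWithinAt) (fun x _ => hd x)
    have := (sl (s := t) (t := x') (by linarith) hx'.1.le hx'.2.le).1
    rw [eq_div_iff (sub_pos.2 hlt).ne', e2] at e
    nlinarith [hx'.1]

theorem Lf_far2 (h : Lc lam L φ u) {q : S3} {c y z : H} (hc : c ∈ S2) (hy : y ∈ S2) (hz : z ∈ S2)
    (hq : q ∈ Ec φ u c) (h1 : 6 * u ≤ ‖pos q - c‖) (h4 : ‖y - c‖ ≤ 2 * u) (h5 : ‖z - c‖ ≤ 2 * u) :
    q ∈ Lf φ u y ↔ q ∈ Lf φ u z :=
  (h.Lf_far hc hy h1 hq.1 (h.Ec_small hc hq) h4).trans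
    (h.Lf_far hc hz h1 hq.1 (h.Ec_small hc hq) h5).symm

theorem Lf_mono (h : Lc lam L φ u) {q p : S3} {a b c : ℝ} (hab : a ≤ b) (hbc : b ≤ c)
    (hac : c - a ≤ 2 * u) (hq : q ∈ Ec φ u (pos (φ a p)))
    (h1 : q ∈ Lf φ u (pos (φ a p)) ↔ q ∈ Lf φ u (pos (φ c p))) :
    q ∈ Lf φ u (pos (φ a p)) ↔ q ∈ Lf φ u (pos (φ b p)) := by
  have hu := h.u0
  have d : ∀ z ∈ Icc a c, ‖pos (φ z p) - pos (φ a p)‖ ≤ 2 * u := fun z hz =>
    (h.pos_lip p a z).trans (abs_le.2 ⟨by linarith [hz.1], by linarith [hz.2]⟩)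
  have ma : a ∈ Icc a c := ⟨le_rfl, hab.trans hbc⟩
  have mb : b ∈ Icc a c := ⟨hab, hbc⟩
  have mc : c ∈ Icc a c := ⟨hab.trans hbc, le_rfl⟩
  rcases le_total (6 * u) ‖pos q - pos (φ a p)‖ with h2 | h2
  · exact h.Lf_far2 (pos_mem _) (pos_mem _) (pos_mem _) hq h2 (d a ma) (d b mb)
  have d2 : ∀ z ∈ Icc a c, ‖pos q - pos (φ z p)‖ ≤ 8 * u := fun z hz => by
    have := norm_sub_le_norm_sub_add_norm_sub (pos q) (pos (φ a p)) (pos (φ z p))
    rw [norm_sub_rev (pos (φ a p))] at this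
    linarith [d z hz]
  have n : ∀ z : Icc a c, Near u (pos q) (pos (φ z p)) := fun z =>
    ⟨pos_mem _, pos_mem _, by linarith [d2 z z.2]⟩
  by_cases h0 : ∀ z : Icc a c, Dv φ u q (pos (φ z p)) ≠ 0
  · have hc := h.D_cont continuous_const
      (cont_pos.comp (h.cont' continuous_subtype_val continuous_const)) n
    exact ⟨fun x => ⟨(n ⟨b, mb⟩).2.2, pos_iff_of_ne hc h0 ma mb x.2⟩,
      fun x => ⟨(n ⟨a, ma⟩).2.2, pos_iff_of_ne hc h0 mb ma x.2⟩⟩
  simp only [not_forall, not_not] at h0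
  obtain ⟨z, hz⟩ := h0
  obtain ⟨s, hs, e⟩ := h.D_zero (n z) hz
  have key : ∀ w ∈ Icc a c, q ∈ Lf φ u (pos (φ w p)) ↔
      0 < (w - z) * ⟪nor (φ s q), vel (φ z p)⟫ := by
    intro w hw
    have wz : |w - z| ≤ 2 * u := abs_le.2 ⟨by linarith [hw.1, z.2.2], by linarith [hw.2, z.2.1]⟩
    rw [h.Lf_flow (pos_mem _) (by linarith [d2 w hw]) (t := s) (by linarith [d2 z z.2])]
    have e2 : φ w p = φ (w - z) (φ z p) := by rw [← h.add, sub_add_cancel]
    have n2 : ‖pos (φ s q) - pos (φ (w - z) (φ z p))‖ ≤ 50 * u := by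
      rw [e, norm_sub_rev]
      linarith [h.pos_lip0 (φ z p) (w - z)]
    rw [e2, ← h.D_on (by linarith) e.symm n2]
    exact ⟨fun x => x.2, fun x => ⟨n2, x⟩⟩
  rw [key a ma, key c mc] at h1
  rw [key a ma, key b mb]
  generalize ⟪nor (φ s q), vel (φ z p)⟫ = κ at *
  rcases le_total 0 κ with k | k
  · have i1 := mul_le_mul_of_nonneg_right (sub_le_sub_right hab z) k
    have i2 := mul_le_mul_of_nonneg_right (sub_le_sub_right hbc z) k
    exact ⟨fun x => by linarith, fun x => h1.2 (by linarith)⟩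
  · have i1 := mul_le_mul_of_nonpos_right (sub_le_sub_right hab z) k
    have i2 := mul_le_mul_of_nonpos_right (sub_le_sub_right hbc z) k
    exact ⟨fun x => by linarith [h1.1 x], fun x => by linarith⟩

theorem Lf_meas [MeasurableSpace S3] [BorelSpace S3] (h : Lc lam L φ u) {y : H} (hy : y ∈ S2) :
    MeasurableSet (Lf φ u y) := by
  have hK : IsClosed {q : S3 | ‖pos q - y‖ ≤ 50 * u} :=
    isClosed_le (cont_pos.sub continuous_const).norm continuous_const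
  have hc : ContinuousOn (fun q => Dv φ u q y) {q : S3 | ‖pos q - y‖ ≤ 50 * u} :=
    continuousOn_iff_continuous_domRestrict.2
      (h.D_cont continuous_subtype_val continuous_const fun z => ⟨pos_mem _, hy, z.2⟩)
  have h2 := hc.preimage_isClosed_of_isClosed hK (isClosed_Iic (a := 0))
  convert hK.measurableSet.diff h2.measurableSet using 1
  ext q
  simp only [Lf, mem_ofPred_eq, Set.mem_sdiff, mem_inter_iff, mem_preimage, mem_Iic, not_and, not_le]
  tauto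

theorem Ec_meas [MeasurableSpace S3] [BorelSpace S3] (h : Lc lam L φ u) (c : H) :
    MeasurableSet (Ec φ u c) := by
  have c0 : Continuous (φ u) := h.cont' continuous_const continuous_id
  have c1 : Continuous fun q => ⟪vel q, c⟫ := cont_vel.inner continuous_const
  have m1 : MeasurableSet {q : S3 | ‖pos q - c‖ ≤ 40 * u} :=
    (isClosed_le (cont_pos.sub continuous_const).norm continuous_const).measurableSet
  have m2 : MeasurableSet {q : S3 | 0 ≤ ⟪vel q, c⟫} :=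
    (isClosed_le continuous_const c1).measurableSet
  have m3 : MeasurableSet {q : S3 | ⟪vel (φ u q), c⟫ < 0} :=
    (isOpen_lt (c1.comp c0) continuous_const).measurableSet
  exact m1.inter (m2.inter m3)

end Lc

end Pool.Agent.Lib.MP_399f8e_an.Rp
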