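import Pool.Agent.Lib.MP_399f8e_an.Rp.Pg

/-! Birkhoff shortening for the Crofton semi-metric gives a periodic orbit. -/

open Set Filter Topology Metric MeasureTheory
open scoped RealInnerProductSpace

noncomputable section

namespace Pool.Agent.Lib.MP_399f8e_an.Rp

variable [MeasurableSpace S3]

/-- Crofton length of a chain -/
def Ld (φ : ℝ → S3 → S3) (u : ℝ) (μ : Measure S3) (N : ℕ) (x : ℕ → H) : ℝ :=
  ∑ i ∈ Finset.range N, dm φ u μ (x i) (x (i + 1))

/-- Crofton length up to a parameter -/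
def Vd (φ : ℝ → S3 → S3) (u : ℝ) (μ : Measure S3) (x : ℕ → H) (k : ℕ) (s : ℝ) : ℝ :=
  ∑ i ∈ Finset.range k, dm φ u μ (x i) (pt φ u (x i) (x (i + 1)) (s - Al φ u x i))

/-- one step of the shortening process -/
def Stp (φ : ℝ → S3 → S3) (u : ℝ) (N : ℕ) (x : ℕ → H) : ℕ → H :=
  Md φ u N (1 / 2) (Rs φ u N 1 x)

variable [BorelSpace S3] {μ : Measure S3} [IsProbabilityMeasure μ]
  {lam : S3 → ℝ} {L u : ℝ} {φ : ℝ → S3 → S3} {N : ℕ} {x : ℕ → H}

omit [MeasurableSpace S3] [BorelSpace S3] in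
theorem Rs_one (i : ℕ) : Rs φ u N 1 x i = Gm φ u x N (i * (Al φ u x N / N)) := by simp [Rs]

namespace Lc

variable (h : Lc lam L φ u) (hμ : ∀ t, MeasurePreserving (φ t) μ μ)
include h hμ

theorem chord_add {x y : H} (n : Near u x y) (hl : len φ u x y ≤ 2 * u) {a b : ℝ} (hab : a ≤ b) :
    dm φ u μ x (pt φ u x y b) =
      dm φ u μ x (pt φ u x y a) + dm φ u μ (pt φ u x y a) (pt φ u x y b) := by
  have := h.d_add hμ (p := dir φ u x y) (h.cl_mem n a).1
    (max_le_max_left 0 (min_le_min_right _ hab)) (by linarith [(h.cl_mem n b).2])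
  rwa [h.zero, (h.spec n).1] at this

variable (P : Pol N u x)
include P

theorem V_le {k : ℕ} (hk : k ≤ N) {a b : ℝ} (hab : a ≤ b) (h2 : b - a ≤ 2 * u) :
    dm φ u μ (Gm φ u x k a) (Gm φ u x k b) ≤ Vd φ u μ x k b - Vd φ u μ x k a := by
  induction k with
  | zero => simp [G_zero, d_self, Vd]
  | succ k ih =>
    have ih := ih (by omega)
    have n := h.pn P hk
    simp only [Vd, Finset.sum_range_succ] at ih ⊢
    rcases le_total b (Al φ u x k) with hb | hb
    · rw [h.G_lo' P hk hb, h.G_lo' P hk (hab.trans hb), h.pt_lo n (by linarith),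
        h.pt_lo n (by linarith)]
      linarith
    rcases le_total (Al φ u x k) a with ha | ha
    · rw [h.G_hi' P hk hb, h.G_hi' P hk ha,
        h.chord_add hμ n (h.pl P hk) (sub_le_sub_right hab (Al φ u x k))]
      linarith [d_nonneg (φ := φ) (u := u) (μ := μ) (Gm φ u x k a) (Gm φ u x k b)]
    have t := h.d_tri hμ (h.G_cl P hk ha (by linarith)) (h.G_cl P hk hb (by linarith))
      (h.G_cl P hk hab h2)
    rw [h.G_at P (Nat.le_succ k) hk, h.G_lo' P hk ha, h.G_hi' P hk hb] at t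
    rw [h.G_hi P (Nat.le_of_succ_le hk) hb] at ih
    rw [h.G_lo' P hk ha, h.G_hi' P hk hb, h.pt_lo n (sub_nonpos.2 ha), d_self]
    linarith

theorem res_gain (hN : 0 < N) {i : ℕ} (hi : i < N) {θ : ℝ} (h0 : 0 ≤ θ) (h1 : θ ≤ 1)
    (hA : Al φ u x N / N ≤ 2 * u) :
    dm φ u μ (Rs φ u N 1 x i) (Gm φ u x N ((i + θ) * (Al φ u x N / N))) +
      dm φ u μ (Gm φ u x N ((i + θ) * (Al φ u x N / N))) (Rs φ u N 1 x (i + 1)) -
      dm φ u μ (Rs φ u N 1 x i) (Rs φ u N 1 x (i + 1)) ≤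
      Ld φ u μ N x - Ld φ u μ N (Rs φ u N 1 x) := by
  have hN' : (0 : ℝ) < N := Nat.cast_pos.2 hN
  have A0 : 0 ≤ Al φ u x N / N := div_nonneg (h.A_nonneg P le_rfl) hN'.le
  have e : N * (Al φ u x N / N) = Al φ u x N := by field_simp
  have e1 : Vd φ u μ x N (N * (Al φ u x N / N)) = Ld φ u μ N x := by
    rw [e]
    refine Finset.sum_congr rfl fun j hj => ?_
    have hj := Finset.mem_range.1 hj
    rw [h.pt_hi (h.pn P hj) (by linarith [h.A_mono P hj le_rfl, A_succ (φ := φ) (u := u) (x := x) j])]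
  have e2 : Vd φ u μ x N ((0 : ℕ) * (Al φ u x N / N)) = 0 := by
    refine Finset.sum_eq_zero fun j hj => ?_
    have hj := Finset.mem_range.1 hj
    rw [h.pt_lo (h.pn P hj) (by simpa using h.A_nonneg P hj.le), d_self]
  have e3 := Finset.sum_range_sub (fun j : ℕ => Vd φ u μ x N (j * (Al φ u x N / N))) N
  rw [e1, e2, sub_zero] at e3
  simp only [Ld] at e3 ⊢
  rw [← e3, ← Finset.sum_sub_distrib]
  simp only [Rs_one]
  generalize Al φ u x N / N = η at *
  refine le_trans ?_ (Finset.single_le_sum (f := fun j : ℕ => Vd φ u μ x N ((j + 1 : ℕ) * η) -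
    Vd φ u μ x N (j * η) - dm φ u μ (Gm φ u x N (j * η)) (Gm φ u x N ((j + 1 : ℕ) * η)))
    (fun j _ => sub_nonneg.2 (h.V_le hμ P le_rfl (by push_cast; linarith) (by push_cast; linarith)))
    (Finset.mem_range.2 hi))
  have b1 := h.V_le hμ P le_rfl (a := i * η) (b := (i + θ) * η) (by nlinarith) (by nlinarith)
  have b2 := h.V_le hμ P le_rfl (a := (i + θ) * η) (b := (i + 1 : ℕ) * η)
    (by push_cast; nlinarith) (by push_cast; nlinarith)
  linarith

omit hμ [MeasurableSpace S3] [BorelSpace S3] in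
theorem md_cl (hN : 0 < N) {i : ℕ} (hi : i < N) : Cl u (Md φ u N (1 / 2) x i) (x (i + 1)) ∧
    Cl u (x (i + 1)) (Md φ u N (1 / 2) x (i + 1)) := by
  have j1 := jx_lt hN (i + 1)
  have a1 := h.pt_lip1 (x i) (x (i + 1)) (1 / 2 * len φ u (x i) (x (i + 1)))
    (len φ u (x i) (x (i + 1)))
  have a2 := h.pt_lip1 (x (jx N (i + 1))) (x (jx N (i + 1) + 1)) 0
    (1 / 2 * len φ u (x (jx N (i + 1))) (x (jx N (i + 1) + 1)))
  rw [h.pt_hi (h.pn P hi) le_rfl] at a1
  rw [h.pt_lo (h.pn P j1) le_rfl] at a2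
  nth_rewrite 1 [P.jx_eq hi] at a2
  have b1 := (h.spec (h.pn P hi)).2.1
  have b2 := (h.spec (h.pn P j1)).2.1
  have b3 := h.pl P hi
  have b4 := h.pl P j1
  rw [abs_of_nonpos (by linarith)] at a1 a2
  refine ⟨⟨pt_mem _ _ _, P.1 _, ?_⟩, P.1 _, pt_mem _ _ _, a2.trans (by linarith)⟩
  rw [Md, jx_of_lt hi]
  linarith

theorem mid_gain (P2 : Pol N (u / 2) x) (hN : 0 < N) {i : ℕ} (hi : i < N) :
    dm φ u μ (Md φ u N (1 / 2) x i) (x (i + 1)) +
      dm φ u μ (x (i + 1)) (Md φ u N (1 / 2) x (i + 1)) -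
      dm φ u μ (Md φ u N (1 / 2) x i) (Md φ u N (1 / 2) x (i + 1)) ≤
      Ld φ u μ N x - Ld φ u μ N (Md φ u N (1 / 2) x) := by
  have Pz := h.Md_pol P2 hN (τ := 1 / 2) (by norm_num) (by norm_num)
  have e1 : Ld φ u μ N x = ∑ j ∈ Finset.range N, dm φ u μ (x j) (Md φ u N (1 / 2) x j) +
      ∑ j ∈ Finset.range N, dm φ u μ (Md φ u N (1 / 2) x j) (x (j + 1)) := by
    rw [Ld, ← Finset.sum_add_distrib]
    refine Finset.sum_congr rfl fun j hj => ?_
    have hj := Finset.mem_range.1 hj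
    have := h.chord_add hμ (h.pn P hj) (h.pl P hj) (a := 1 / 2 * len φ u (x j) (x (j + 1)))
      (b := len φ u (x j) (x (j + 1))) (by linarith [(h.spec (h.pn P hj)).2.1])
    rw [h.pt_hi (h.pn P hj) le_rfl] at this
    rwa [Md, jx_of_lt hj]
  have e2 := Finset.sum_range_sub (fun j : ℕ => dm φ u μ (x j) (Md φ u N (1 / 2) x j)) N
  rw [P.2.1, Pz.2.1, sub_self, Finset.sum_sub_distrib] at e2
  have e3 : Ld φ u μ N x - Ld φ u μ N (Md φ u N (1 / 2) x) = ∑ j ∈ Finset.range N,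
      (dm φ u μ (Md φ u N (1 / 2) x j) (x (j + 1)) +
      dm φ u μ (x (j + 1)) (Md φ u N (1 / 2) x (j + 1)) -
      dm φ u μ (Md φ u N (1 / 2) x j) (Md φ u N (1 / 2) x (j + 1))) := by
    rw [Finset.sum_sub_distrib, Finset.sum_add_distrib, e1, Ld]; linarith
  rw [e3]
  refine Finset.single_le_sum (f := fun j => dm φ u μ (Md φ u N (1 / 2) x j) (x (j + 1)) +
      dm φ u μ (x (j + 1)) (Md φ u N (1 / 2) x (j + 1)) -
      dm φ u μ (Md φ u N (1 / 2) x j) (Md φ u N (1 / 2) x (j + 1))) (fun j hj => ?_)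
    (Finset.mem_range.2 hi)
  have hj := Finset.mem_range.1 hj
  exact sub_nonneg.2 (h.d_tri hμ (h.md_cl P hN hj).1 (h.md_cl P hN hj).2
    ⟨Pz.1 _, Pz.1 _, by linarith [Pz.2.2 j hj, h.u0]⟩)

omit hμ [MeasurableSpace S3] [BorelSpace S3] in
theorem rs_pol (hN : 0 < N) (hA : Al φ u x N / N ≤ u / 2) : Pol N (u / 2) (Rs φ u N 1 x) :=
  h.Rs_pol P hN zero_le_one le_rfl (by linarith)

theorem res_mono (hN : 0 < N) (hA : Al φ u x N / N ≤ u / 2) :
    Ld φ u μ N (Rs φ u N 1 x) ≤ Ld φ u μ N x := by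
  have := h.res_gain hμ P hN hN le_rfl zero_le_one (by linarith [h.u0])
  rw [add_zero, ← Rs_one, d_self] at this
  linarith

omit P in
theorem mid_mono (P2 : Pol N (u / 2) x) (hN : 0 < N) :
    Ld φ u μ N (Md φ u N (1 / 2) x) ≤ Ld φ u μ N x := by
  have P := P2.mono (show u / 2 ≤ u by linarith [h.u0])
  have Pz := h.Md_pol P2 hN (τ := 1 / 2) (by norm_num) (by norm_num)
  have a1 := h.mid_gain hμ P P2 hN hN
  have a2 := h.d_tri hμ (h.md_cl P hN hN).1 (h.md_cl P hN hN).2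
    ⟨Pz.1 _, Pz.1 _, by linarith [Pz.2.2 0 hN, h.u0]⟩
  linarith

omit P in
theorem unif_gain [μ.IsOpenPosMeasure] (hN : 0 < N) (hnp : ∀ q T, 0 < T → φ T q ≠ q) {ε : ℝ}
    (hε : 0 < ε) : ∃ δ > 0, ∀ x, Pol N u x → ε ≤ Al φ u x N → Al φ u x N / N ≤ u / 2 →
      δ ≤ Ld φ u μ N x - Ld φ u μ N (Stp φ u N x) := by
  have hu := h.u0
  have hN' : (0 : ℝ) < N := Nat.cast_pos.2 hN
  let Z0 := {x : ℕ → H | Pol N u x}
  have hZ : IsCompact Z0 := by
    refine (isCompact_univ_pi fun _ => isCompact_S2).of_isClosed_subset ?_ fun w hw i _ => hw.1 i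
    have m1 : IsClosed {x : ℕ → H | ∀ i, x i ∈ S2} := by
      simp only [ofPred_forall]
      exact isClosed_iInter fun i => isClosed_S2.preimage (continuous_apply i)
    have m2 : IsClosed {x : ℕ → H | x N = x 0} := isClosed_eq (by fun_prop) (by fun_prop)
    have m3 : IsClosed {x : ℕ → H | ∀ i < N, ‖x i - x (i + 1)‖ ≤ u} := by
      simp only [ofPred_forall]
      exact isClosed_iInter fun i => isClosed_iInter fun _ =>
        isClosed_le (by fun_prop) continuous_const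
    exact m1.inter (m2.inter m3)
  have : CompactSpace Z0 := isCompact_iff_compactSpace.1 hZ
  have cA := h.A_cont (x := fun z : Z0 => z.1)
    (fun i => (continuous_apply i).comp continuous_subtype_val) (fun z => z.2) le_rfl
  let Z := {z : Z0 | ε ≤ Al φ u z.1 N ∧ Al φ u z.1 N / N ≤ u / 2}
  have hK : IsCompact Z := ((isClosed_le continuous_const cA).inter
    (isClosed_le (cA.div_const _) continuous_const)).isCompact
  have : CompactSpace Z := isCompact_iff_compactSpace.1 hK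
  have cx : ∀ i, Continuous fun z : Z => z.1.1 i := fun i =>
    ((continuous_apply i).comp continuous_subtype_val).comp continuous_subtype_val
  have Px : ∀ z : Z, Pol N u z.1.1 := fun z => z.1.2
  have cy : ∀ i, Continuous fun z : Z => Rs φ u N 1 z.1.1 i :=
    h.Rs_cont cx Px continuous_const
  have Py : ∀ z : Z, Pol N (u / 2) (Rs φ u N 1 z.1.1) := fun z => h.rs_pol (Px z) hN z.2.2
  have Py' : ∀ z : Z, Pol N u (Rs φ u N 1 z.1.1) := fun z => (Py z).mono (by linarith)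
  have cz : ∀ i, Continuous fun z : Z => Md φ u N (1 / 2) (Rs φ u N 1 z.1.1) i :=
    h.Md_cont cy Py' hN continuous_const
  have Pz : ∀ z : Z, Pol N u (Md φ u N (1 / 2) (Rs φ u N 1 z.1.1)) := fun z =>
    h.Md_pol (Py z) hN (by norm_num) (by norm_num)
  have A0 : ∀ z : Z, 0 < Al φ u z.1.1 N / N := fun z => div_pos (hε.trans_le z.2.1) hN'
  obtain ⟨δ, h0, h1⟩ := unif (isCompact_univ (X := Z))
    (g := fun z => Ld φ u μ N z.1.1 - Ld φ u μ N (Stp φ u N z.1.1)) fun z0 _ => by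
    by_cases c1 : ∀ i < N, Rs φ u N 1 z0.1.1 i ≠ Rs φ u N 1 z0.1.1 (i + 1)
    · by_cases c2 : ∀ i < N, Str φ u (Md φ u N (1 / 2) (Rs φ u N 1 z0.1.1) i)
        (Rs φ u N 1 z0.1.1 (i + 1)) (Md φ u N (1 / 2) (Rs φ u N 1 z0.1.1) (i + 1))
      · obtain ⟨q, T, T0, e⟩ := h.per (Py' z0) hN c1 c2
        exact absurd e (hnp q T T0)
      simp only [not_forall] at c2
      obtain ⟨i, hi, c2⟩ := c2
      obtain ⟨δ, h0, h1⟩ := h.gain hμ (cz i) (cy (i + 1)) (cz (i + 1))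
        (fun z => (h.md_cl (Py' z) hN hi).1) (fun z => (h.md_cl (Py' z) hN hi).2)
        (fun z => ⟨(Pz z).1 _, (Pz z).1 _, by linarith [(Pz z).2.2 i hi]⟩) c2
      refine ⟨δ, h0, h1.mono fun z hz => ?_⟩
      linarith [h.mid_gain hμ (Py' z) (Py z) hN hi, h.res_mono hμ (Px z) hN z.2.2,
        show Stp φ u N z.1.1 = Md φ u N (1 / 2) (Rs φ u N 1 z.1.1) from rfl,
        show Ld φ u μ N (Stp φ u N z.1.1) = Ld φ u μ N (Md φ u N (1 / 2) (Rs φ u N 1 z.1.1))
          from rfl]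
    · simp only [not_forall, not_not] at c1
      obtain ⟨i, hi, c1⟩ := c1
      have hi' : (i : ℝ) + 1 ≤ N := by exact_mod_cast hi
      have i0 : (0 : ℝ) ≤ i := Nat.cast_nonneg i
      have a0 := A0 z0
      obtain ⟨s, hs, c2⟩ := h.G_move (Px z0) le_rfl (a := i * (Al φ u z0.1.1 N / N))
        (b := (i + 1) * (Al φ u z0.1.1 N / N)) (by positivity) (by linarith) (by
          have e : N * (Al φ u z0.1.1 N / N) = Al φ u z0.1.1 N := by field_simp
          nlinarith)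
      obtain ⟨θ, e⟩ : ∃ θ : ℝ, s = (i + θ) * (Al φ u z0.1.1 N / N) :=
        ⟨s / (Al φ u z0.1.1 N / N) - i, by rw [add_sub_cancel, div_mul_cancel₀ _ a0.ne']⟩
      have t0 : 0 ≤ θ := by nlinarith [hs.1]
      have t1 : θ ≤ 1 := by nlinarith [hs.2]
      have cA' := h.A_cont cx Px le_rfl
      have cw : Continuous fun z : Z => Gm φ u z.1.1 N ((i + θ) * (Al φ u z.1.1 N / N)) :=
        h.G_cont cx Px (by fun_prop)
      obtain ⟨δ, h0, h1⟩ := h.gain hμ (cy i) cw (cy (i + 1))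
        (fun z => by
          rw [Rs_one]
          exact h.G_cl (Px z) le_rfl (by nlinarith [A0 z]) (by nlinarith [A0 z, z.2.2]))
        (fun z => by
          rw [Rs_one]
          exact h.G_cl (Px z) le_rfl (by push_cast; nlinarith [A0 z])
            (by push_cast; nlinarith [A0 z, z.2.2]))
        (fun z => ⟨(Py z).1 _, (Py z).1 _, by linarith [(Py z).2.2 i hi]⟩) (z0 := z0) (by
          rw [← c1, ← e]
          exact h.not_str (by rwa [Rs_one]))
      refine ⟨δ, h0, h1.mono fun z hz => ?_⟩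
      linarith [h.res_gain hμ (Px z) hN hi t0 t1 (by linarith [z.2.2]), h.mid_mono hμ (Py z) hN,
        show Ld φ u μ N (Stp φ u N z.1.1) = Ld φ u μ N (Md φ u N (1 / 2) (Rs φ u N 1 z.1.1))
          from rfl]
  exact ⟨δ, h0, fun x P a1 a2 => h1 ⟨⟨x, P⟩, a1, a2⟩ (mem_univ _)⟩

end Lc

end Pool.Agent.Lib.MP_399f8e_an.Rp
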