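import Pool.Agent.Lib.MP_399f8e_an.Rp.Mn
import Pool.Agent.Lib.MP_399f8e_an.Rp.Nm

/-! Time changes. -/

open Set Filter Topology Metric MeasureTheory
open scoped RealInnerProductSpace

noncomputable section

namespace Pool.Agent.Lib.MP_399f8e_an.Rp

variable {a lam : S3 → ℝ} {L : ℝ} {φ : ℝ → S3 → S3}

theorem time_change (ha : Continuous a) (ha0 : ∀ q, 0 < a q) (L0 : 0 ≤ L)
    (lip : ∀ q q', |lam q - lam q'| ≤ L * ‖(q : H) - q'‖) (odd : ∀ q, lam (q * uI) = -lam q)
    (h0 : ∀ q, φ 0 q = q)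
    (hd : ∀ q t, HasDerivAt (fun s => (φ s q : H)) (a (φ t q) • Xf lam (φ t q)) t) :
    ∃ (ψ : ℝ → S3 → S3) (σ : ℝ → S3 → ℝ), Fl lam L ψ ∧ (∀ t q, φ t q = ψ (σ t q) q) ∧
      (∀ q t, HasDerivAt (fun t => σ t q) (a (φ t q)) t) ∧
      (∀ q T, 0 < T → ∃ t, 0 < t ∧ σ t q = T) ∧ (∀ s t q, φ s (φ t q) = φ (t + s) q) ∧
      Continuous fun p : ℝ × S3 => φ p.1 p.2 := by
  obtain ⟨q1, -, m1⟩ := isCompact_univ.exists_isMinOn ⟨uI, mem_univ _⟩ ha.continuousOn
  obtain ⟨q2, -, m2⟩ := isCompact_univ.exists_isMaxOn ⟨uI, mem_univ _⟩ ha.continuousOn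
  have c1 : ∀ q, Continuous fun t => a (φ t q) := fun q => ha.comp
    (continuous_induced_rng.2 (continuous_iff_continuousAt.2 fun t => (hd q t).continuousAt))
  obtain ⟨σ, dσ, σ0⟩ : ∃ σ : ℝ → S3 → ℝ, (∀ q t, HasDerivAt (fun t => σ t q) (a (φ t q)) t) ∧
      ∀ q, σ 0 q = 0 := ⟨fun t q => ∫ r in (0 : ℝ)..t, a (φ r q), fun q t =>
    ((c1 q).integral_hasStrictDerivAt 0 t).hasDerivAt, fun q => by simp⟩
  have cσ : ∀ q, Continuous fun t => σ t q := fun q =>
    continuous_iff_continuousAt.2 fun t => (dσ q t).continuousAt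
  have sl : ∀ q {s t : ℝ}, s ≤ t → a q1 * (t - s) ≤ σ t q - σ s q ∧
      σ t q - σ s q ≤ a q2 * (t - s) := by
    intro q s t hst
    rcases hst.eq_or_lt with rfl | hlt
    · simp
    obtain ⟨x, -, e⟩ := exists_hasDerivAt_eq_slope _ _ hlt (cσ q).continuousOn fun x _ => dσ q x
    rw [eq_div_iff (sub_pos.2 hlt).ne'] at e
    rw [← e]
    exact ⟨mul_le_mul_of_nonneg_right (m1 (mem_univ _)) (sub_nonneg.2 hst),
      mul_le_mul_of_nonneg_right (m2 (mem_univ _)) (sub_nonneg.2 hst)⟩
  have mσ : ∀ q, StrictMono fun t => σ t q := fun q s t hst => by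
    nlinarith [(sl q hst.le).1, ha0 q1, mul_pos (ha0 q1) (sub_pos.2 hst)]
  have sσ : ∀ q, Function.Surjective fun t => σ t q := fun q => (cσ q).surjective
    (tendsto_atTop_mono' _ ((eventually_ge_atTop 0).mono fun t ht => by
      simpa [σ0] using (sl q ht).1) (tendsto_id.const_mul_atTop (ha0 q1)))
    (tendsto_atBot_mono' _ ((eventually_le_atBot 0).mono fun t ht => by
      have := (sl q ht).1
      rw [σ0] at this
      show σ t q ≤ a q1 * t
      linarith) (tendsto_id.const_mul_atBot (ha0 q1)))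
  obtain ⟨τ, e1, e2, cτ⟩ : ∃ τ : ℝ → S3 → ℝ, (∀ s q, σ (τ s q) q = s) ∧ (∀ t q, τ (σ t q) q = t) ∧
      ∀ q, Continuous fun s => τ s q :=
    ⟨fun s q => ((mσ q).orderIsoOfSurjective _ (sσ q)).symm s,
      fun s q => ((mσ q).orderIsoOfSurjective _ (sσ q)).apply_symm_apply s,
      fun t q => ((mσ q).orderIsoOfSurjective _ (sσ q)).symm_apply_apply t,
      fun q => ((mσ q).orderIsoOfSurjective _ (sσ q)).symm.continuous⟩
  have dτ : ∀ q s, HasDerivAt (fun s => τ s q) (a (φ (τ s q) q))⁻¹ s := fun q s =>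
    HasDerivAt.of_local_left_inverse (f := fun t => σ t q) (cτ q).continuousAt (dσ q _)
      (ha0 _).ne' (Eventually.of_forall fun y => e1 y q)
  have τ0 : ∀ q, τ 0 q = 0 := fun q => by simpa [σ0] using e2 0 q
  have hψ : Fl lam L fun s q => φ (τ s q) q := ⟨L0, lip, odd, fun q => by rw [τ0, h0],
    fun q s => by
      have k := (hd q (τ s q)).scomp s (dτ q s)
      rw [smul_smul, inv_mul_cancel₀ (ha0 _).ne', one_smul] at k
      exact k⟩
  refine ⟨fun s q => φ (τ s q) q, σ, hψ, fun t q => by simp only [e2], dσ, fun q T hT =>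
    ⟨τ T q, (mσ q).lt_iff_lt.1 (by rwa [σ0, e1]), e1 T q⟩, fun s t q => ?_, ?_⟩
  · have k1 : ∀ s, φ (τ (σ s (φ t q) + σ t q) q) q = φ s (φ t q) := fun s => by
      simpa only [e2] using hψ.add (σ s (φ t q)) (σ t q) q
    have k2 : ∀ s, HasDerivAt (fun s => τ (σ s (φ t q) + σ t q) q - s) 0 s := fun s => by
      have k3 := ((dτ q _).comp s ((dσ (φ t q) s).add_const (σ t q))).sub (hasDerivAt_id s)
      rw [k1, inv_mul_cancel₀ (ha0 _).ne', sub_self] at k3
      exact k3
    have k4 := is_const_of_deriv_eq_zero (fun s => (k2 s).differentiableAt)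
      (fun s => (k2 s).deriv) s 0
    simp only [σ0, zero_add, e2, sub_zero] at k4
    rw [← k1, eq_add_of_sub_eq k4]
  have c2 : Continuous fun p : ℝ × S3 => (a (φ (τ p.1 p.2) p.2))⁻¹ :=
    (ha.comp hψ.cont).inv₀ fun p => (ha0 _).ne'
  have c3 : ∀ s, Continuous fun q => τ s q := fun s => by
    have c6 : Continuous fun p : S3 × ℝ => (a (φ (τ p.2 p.1) p.1))⁻¹ := c2.comp continuous_swap
    refine (intervalIntegral.continuous_parametric_intervalIntegral_of_continuous' (μ := volume)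
      (f := fun q r => (a (φ (τ r q) q))⁻¹) c6 0 s).congr fun q => ?_
    have c7 : Continuous fun r => (a (φ (τ r q) q))⁻¹ :=
      c2.comp (continuous_id.prodMk continuous_const)
    rw [intervalIntegral.integral_eq_sub_of_hasDerivAt (fun r _ => dτ q r)
      (c7.intervalIntegrable _ _), τ0, sub_zero]
  have c4 : Continuous fun p : ℝ × S3 => σ p.1 p.2 := by
    refine continuous_iff_continuousAt.2 fun p => ?_
    rw [ContinuousAt, tendsto_iff_norm_sub_tendsto_zero]
    have c5 : Continuous fun z : ℝ × S3 => a q2 * |z.1 - τ (σ p.1 p.2) z.2| :=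
      continuous_const.mul (continuous_fst.sub ((c3 _).comp continuous_snd)).abs
    have t5 := c5.tendsto p
    rw [e2, sub_self, abs_zero, mul_zero] at t5
    refine squeeze_zero (fun _ => norm_nonneg _) (fun z => ?_) t5
    rw [Real.norm_eq_abs]
    nth_rewrite 1 [← e1 (σ p.1 p.2) z.2]
    generalize τ (σ p.1 p.2) z.2 = w
    rcases le_total w z.1 with k | k
    · rw [abs_of_nonneg (sub_nonneg.2 k), abs_of_nonneg (sub_nonneg.2 ((mσ _).monotone k))]
      exact (sl _ k).2
    · rw [abs_sub_comm, abs_sub_comm z.1, abs_of_nonneg (sub_nonneg.2 k),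
        abs_of_nonneg (sub_nonneg.2 ((mσ _).monotone k))]
      exact (sl _ k).2
  exact (hψ.cont' c4 continuous_snd).congr fun p => by simp only [e2]

theorem meas_change [MeasurableSpace S3] [BorelSpace S3] {μ : Measure S3} [IsFiniteMeasure μ]
    {ψ : ℝ → S3 → S3} {σ : ℝ → S3 → ℝ} (ha : Continuous a) (ha0 : ∀ q, 0 < a q) (h : Fl lam L ψ)
    (h0 : ∀ q, φ 0 q = q) (e : ∀ t q, φ t q = ψ (σ t q) q)
    (dσ : ∀ q t, HasDerivAt (fun t => σ t q) (a (φ t q)) t)
    (hc : Continuous fun p : ℝ × S3 => φ p.1 p.2) (hμ : ∀ t, MeasurePreserving (φ t) μ μ) (s : ℝ) :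
    MeasurePreserving (ψ s) (μ.withDensity fun q => ENNReal.ofReal (a q))
      (μ.withDensity fun q => ENNReal.ofReal (a q)) := by
  have ig : ∀ {g : S3 → ℝ}, Continuous g → Integrable g μ := fun hg =>
    hg.integrable_of_hasCompactSupport (HasCompactSupport.of_compactSpace _)
  have := isFiniteMeasure_withDensity_ofReal (ig ha).2
  have cs : Continuous (ψ s) := h.cont' continuous_const continuous_id
  refine ⟨cs.measurable, ext_of_forall_integral_eq_of_IsFiniteMeasure fun f => ?_⟩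
  rw [integral_map cs.measurable.aemeasurable f.continuous.aestronglyMeasurable,
    integral_withDensity_eq_integral_toReal_smul ha.measurable.ennreal_ofReal (by simp),
    integral_withDensity_eq_integral_toReal_smul ha.measurable.ennreal_ofReal (by simp)]
  simp only [ENNReal.toReal_ofReal (ha0 _).le, smul_eq_mul]
  have cf : Continuous fun p : ℝ × S3 => f (ψ p.1 p.2) := f.continuous.comp h.cont
  let g : S3 → ℝ := fun q => a q * f (ψ s q) - a q * f q
  let G : S3 → ℝ := fun q => ∫ r in (0 : ℝ)..s, f (ψ r q)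
  have cg1 : Continuous fun q => a q * f (ψ s q) := ha.mul (f.continuous.comp cs)
  have cg2 : Continuous fun q => a q * f q := ha.mul f.continuous
  have cg : Continuous g := cg1.sub cg2
  have cG : Continuous G := intervalIntegral.continuous_parametric_intervalIntegral_of_continuous'
    (f := fun q r => f (ψ r q)) (cf.comp continuous_swap) 0 s
  have dG : ∀ q t, HasDerivAt (fun t => G (φ t q)) (g (φ t q)) t := by
    intro q t
    have cF : Continuous fun r => f (ψ r q) := cf.comp (continuous_id.prodMk continuous_const)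
    have d1 := ((cF.integral_hasStrictDerivAt 0 (s + σ t q)).hasDerivAt.comp t
      ((dσ q t).const_add s)).sub ((cF.integral_hasStrictDerivAt 0 (σ t q)).hasDerivAt.comp t
      (dσ q t))
    refine (d1.congr_deriv ?_).congr_of_eventuallyEq (Eventually.of_forall fun x => ?_)
    · simp only [g]
      rw [h.add, ← e]; ring
    · simp only [G, Pi.sub_apply, Function.comp_apply, e, ← h.add]
      rw [intervalIntegral.integral_comp_add_right (fun r => f (ψ r q)),
        intervalIntegral.integral_interval_sub_left (cF.intervalIntegrable _ _)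
          (cF.intervalIntegrable _ _), zero_add]
  have iv : ∀ {g : S3 → ℝ}, Continuous g → ∀ t, ∫ q, g (φ t q) ∂μ = ∫ q, g q ∂μ := fun hg t => by
    rw [← integral_map (hμ t).measurable.aemeasurable hg.aestronglyMeasurable, (hμ t).map_eq]
  obtain ⟨C, hC⟩ := isCompact_univ.exists_bound_of_continuousOn cg.continuousOn
  have : IsFiniteMeasure ((volume : Measure ℝ).restrict (uIoc 0 1)) := ⟨by simp⟩
  have sw := intervalIntegral_integral_swap (μ := μ) (a := 0) (b := 1)
    (f := fun t q => g (φ t q)) (Integrable.of_bound (cg.comp hc).aestronglyMeasurable C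
      (Eventually.of_forall fun p => hC _ (mem_univ _)))
  have e3 : ∀ q, ∫ t in (0 : ℝ)..1, g (φ t q) = G (φ 1 q) - G q := fun q => by
    rw [intervalIntegral.integral_eq_sub_of_hasDerivAt (fun r _ => dG q r)
      (((cg.comp hc).comp (continuous_id.prodMk continuous_const)).intervalIntegrable _ _), h0]
  simp only [iv cg, e3] at sw
  have cG1 : Continuous fun q => G (φ 1 q) :=
    cG.comp (hc.comp (continuous_const.prodMk continuous_id))
  rw [integral_sub (ig cG1) (ig cG), iv cG, sub_self, integral_sub (ig cg1) (ig cg2)] at sw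
  simpa [sub_eq_zero] using sw

theorem main [MeasurableSpace S3] [BorelSpace S3] (ha : Continuous a) (ha0 : ∀ q, 0 < a q)
    (L0 : 0 ≤ L) (lip : ∀ q q', |lam q - lam q'| ≤ L * ‖(q : H) - q'‖)
    (odd : ∀ q, lam (q * uI) = -lam q) (h0 : ∀ q, φ 0 q = q)
    (hd : ∀ q t, HasDerivAt (fun s => (φ s q : H)) (a (φ t q) • Xf lam (φ t q)) t) :
    ∃ K : Set S3, IsClosed K ∧ K.Nonempty ∧ K ≠ univ ∧ (∀ t, ∀ q ∈ K, φ t q ∈ K) ∧
      ((∃ q T, 0 < T ∧ φ T q = q ∧ K = range fun t => φ t q) ∨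
        ∀ μ : Measure S3, IsProbabilityMeasure μ → (∀ t, MeasurePreserving (φ t) μ μ) →
          μ Kᶜ = 0) := by
  obtain ⟨ψ, σ, h, e, dσ, sj, hadd, hc⟩ := time_change ha ha0 L0 lip odd h0 hd
  have ct : ∀ t, Continuous (φ t) := fun t => hc.comp (continuous_const.prodMk continuous_id)
  by_cases hp : ∃ q T, 0 < T ∧ φ T q = q
  · obtain ⟨q, T, T0, hq⟩ := hp
    have pe : Function.Periodic (fun t => φ t q) T := fun t => by
      simp only [add_comm t, ← hadd, hq]
    refine ⟨range fun t => φ t q, (pe.compact_of_continuous T0.ne'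
      (hc.comp (continuous_id.prodMk continuous_const))).isClosed, range_nonempty _, fun hu => ?_,
      ?_, Or.inl ⟨q, T, T0, hq, rfl⟩⟩
    · obtain ⟨s, hs⟩ : q * uI ∈ range fun t => φ t q := by rw [hu]; exact mem_univ _
      exact h.ne_rev q (σ s q) ((e s q).symm.trans hs)
    · rintro t _ ⟨s, rfl⟩
      exact ⟨s + t, (hadd t s q).symm⟩
  let S : Set (Set S3) := {U | IsOpen U ∧ ∀ μ : Measure S3, IsProbabilityMeasure μ →
    (∀ t, MeasurePreserving (φ t) μ μ) → μ U = 0}
  have hW : ∀ μ : Measure S3, IsProbabilityMeasure μ → (∀ t, MeasurePreserving (φ t) μ μ) →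
      μ (⋃₀ S) = 0 := fun μ a1 a2 => by
    obtain ⟨T, T1, T2, T3⟩ := TopologicalSpace.isOpen_sUnion_countable S fun U hU => hU.1
    rw [← T3]
    exact (measure_sUnion_null_iff T1).2 fun U hU => (T2 hU).2 μ a1 a2
  refine ⟨(⋃₀ S)ᶜ, (isOpen_sUnion fun U hU => hU.1).isClosed_compl, ?_, fun hu => hp ?_,
    fun t q hq ⟨U, hU, hq'⟩ => hq ⟨φ t ⁻¹' U, ⟨hU.1.preimage (ct t), fun μ a1 a2 =>
      ((a2 t).measure_preimage hU.1.measurableSet.nullMeasurableSet).trans (hU.2 μ a1 a2)⟩, hq'⟩,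
    Or.inr fun μ a1 a2 => by rw [compl_compl]; exact hW μ a1 a2⟩
  · obtain ⟨μ, -, a1, -, a2, -⟩ := exists_limit hc hadd isCompact_univ (T := fun m => (m : ℝ) + 1)
      (tendsto_atTop_add_const_right _ _ tendsto_natCast_atTop_atTop) (fun m => by positivity)
      (z := fun _ => uI) fun _ _ _ => mem_univ _
    rw [nonempty_compl]
    intro hu
    simpa [hu] using hW μ a1 a2
  have ex : ∀ U : TopologicalSpace.countableBasis S3, ∃ μ : Measure S3, IsProbabilityMeasure μ ∧
      (∀ t, MeasurePreserving (φ t) μ μ) ∧ μ U ≠ 0 := fun U => by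
    by_contra hn
    obtain ⟨q, hq⟩ := TopologicalSpace.nonempty_of_mem_countableBasis U.2
    have : q ∈ (⋃₀ S)ᶜ := by rw [hu]; exact mem_univ _
    refine this ⟨U, ⟨TopologicalSpace.isOpen_of_mem_countableBasis U.2, fun μ a1 a2 => ?_⟩, hq⟩
    by_contra h1
    exact hn ⟨μ, a1, a2, h1⟩
  choose m m1 m2 m3 using ex
  obtain ⟨w, w0, w1⟩ := ENNReal.exists_pos_sum_of_countable one_ne_zero
    (TopologicalSpace.countableBasis S3)
  obtain ⟨μ, f1, f2, hμ⟩ : ∃ μ : Measure S3, IsFiniteMeasure μ ∧ μ.IsOpenPosMeasure ∧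
      ∀ t, MeasurePreserving (φ t) μ μ := by
    refine ⟨Measure.sum fun U => (w U : ENNReal) • m U, ⟨?_⟩, ⟨fun V hV ⟨q, hq⟩ h0 => ?_⟩,
      fun t => ⟨(ct t).measurable, ?_⟩⟩
    · simpa using w1.trans ENNReal.one_lt_top
    · obtain ⟨U, U1, -, U2⟩ :=
        (TopologicalSpace.isBasis_countableBasis S3).exists_subset_of_mem_open hq hV
      rw [Measure.sum_apply _ hV.measurableSet, ENNReal.tsum_eq_zero] at h0
      have h1 := h0 ⟨U, U1⟩
      rw [Measure.smul_apply, smul_eq_mul, mul_eq_zero] at h1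
      exact h1.elim (by simpa using (w0 _).ne') fun h2 => m3 ⟨U, U1⟩ (measure_mono_null U2 h2)
    · rw [Measure.map_sum (ct t).measurable.aemeasurable]
      simp only [Measure.map_smul, fun U => (m2 U t).map_eq]
  have := isFiniteMeasure_withDensity_ofReal (μ := μ)
    (ha.integrable_of_hasCompactSupport (HasCompactSupport.of_compactSpace _)).2
  have := (withDensity_absolutelyContinuous' (μ := μ) ha.measurable.ennreal_ofReal.aemeasurable
    (Eventually.of_forall fun q => by simpa using ha0 q)).isOpenPosMeasure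
  have : NeZero (μ.withDensity fun q => ENNReal.ofReal (a q)) := ⟨Measure.measure_univ_ne_zero.1
    (isOpen_univ.measure_ne_zero _ ⟨uI, mem_univ _⟩)⟩
  have := Measure.isOpenPosMeasure_smul (μ.withDensity fun q => ENNReal.ofReal (a q))
    (c := ((μ.withDensity fun q => ENNReal.ofReal (a q)) univ)⁻¹)
    (ENNReal.inv_ne_zero.2 (measure_ne_top _ _))
  obtain ⟨q, T, T0, hq⟩ := h.periodic fun s =>
    (meas_change ha ha0 h h0 e dσ hc hμ s).smul_measure
      ((μ.withDensity fun q => ENNReal.ofReal (a q)) univ)⁻¹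
  obtain ⟨t, t0, ht⟩ := sj q T T0
  exact ⟨q, t, t0, by rw [e, ht, hq]⟩

end Pool.Agent.Lib.MP_399f8e_an.Rp
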